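import Mathlib
import Pool.Agent.MP_01c7b3_an.Upper

namespace Pool.Agent.MP_01c7b3_an.SE
open Finset

/-- the data of the unbounded solution, any number of big classes -/
structure St where
  k : ℕ
  m : ℕ
  u : ℕ
  j : ℕ
  S : ℤ → Prop
  b : ℕ → ℝ
  B : ℕ → ℝ
  κ : ℝ
  ε : ℝ
  M : ℝ
  R : ℝ
  g : ℝ
  γ : ℝ
  γ0 : ℝ
  G : ℝ
  x : ℤ → ℝ
  hm : 1 ≤ m
  hmk : m ≤ k
  hu : u ∈ Icc 1 k
  hj : j ∈ Icc 1 k
  cj : (m : ℤ) ∣ (j : ℤ) + u
  per : ∀ v w : ℤ, (m : ℤ) ∣ v - w → S v → S w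
  ne : ∃ r, S r
  two : ∀ n, S n → ¬ S (n - u - u)
  bm : b m = g
  b3 : b u = 1
  bo : ∀ d, d ≠ m → d ≠ u → 0 ≤ b d ∧ b d ≤ ε
  B3 : B u = 1
  Bj : B j = 1
  Bo : ∀ d, d ≠ u → d ≠ j → 0 ≤ B d ∧ B d ≤ κ
  Bfree : ∀ d ∈ Icc 1 k, ∀ n : ℤ, S n → S (n - d) → B d = 0
  ker : ∀ n : ℤ, ¬ S n → ∃ d ∈ Icc 1 k, κ ≤ B d ∧ S (n - d)
  fb : ∀ r r' : ℤ, S r → S r' → ¬ (m : ℤ) ∣ r - r' →
    ∃ d ∈ Icc 1 k, κ ≤ B d ∧ (m : ℤ) ∣ (d : ℤ) - (r + u - r')
  pastS : ∀ n < 0, S n → x n = M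
  pastC : ∀ n < 0, S (n - u) → x n = 1
  pastO : ∀ n < 0, ¬ S n → ¬ S (n - u) → x n = 0
  hrec : ∀ n, 0 ≤ n → x n = lf k b x n / lf k B x n
  κ0 : 0 < κ
  κ1 : κ ≤ 1
  ε0 : 0 ≤ ε
  ε1 : ε ≤ 1
  g1 : 1 ≤ g
  g2 : g ≤ 2
  R16 : 16 ≤ R
  κR : κ * R ≤ 8
  hM : 7 ≤ κ ^ 2 / 2 * M
  hε : k * (2 * R * ε) ≤ κ ^ 2 / 2
  γ1 : 1 ≤ γ
  γ2 : γ ≤ 2
  γp : γ ^ (4 * k) ≤ 2
  nδ : κ + k * (2 * R * κ) < 1
  nγ : g + κ ≤ γ * (1 - (κ + k * (2 * R * κ)))
  γ01 : 1 < γ0
  nγ0 : γ0 * (1 + κ * (3 + 2 * k)) ≤ g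
  G1 : 1 ≤ G
  nG1 : g + κ ≤ G * (1 - (κ + k * (16 * κ)))
  nG2 : G * (1 + κ - κ * R / 16 + κ * (2 + 2 * k)) ≤ g

namespace St
variable (s : St)

/-- the classes of size about one -/
def T (n : ℤ) : Prop := s.S (n - s.u)

/-- the invariant -/
def Inv (n : ℤ) : Prop :=
  0 ≤ s.x n ∧
  (s.S n → s.M ≤ s.x n ∧ s.x (n - s.m) ≤ s.x n ∧ s.x n ≤ s.γ * s.x (n - s.m) ∧
    ∀ v, n - s.m < v → v < n → s.S v → s.x n ≤ s.R * s.x v ∧ s.x v ≤ s.R * s.x n) ∧
  (s.T n → 1 - (s.κ + s.k * (2 * s.R * s.κ)) ≤ s.x n ∧ s.x n ≤ 1 + s.κ) ∧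
  (¬ s.S n → ¬ s.T n → s.x n ≤ s.κ)

/-- the invariant holds before `N` -/
def Upto (N : ℤ) : Prop := ∀ v < N, s.Inv v

/-- class `c` dominates class `c'` by the factor `r` on `[lo, hi)` -/
def Dom (c c' : ℤ) (r : ℝ) (lo hi : ℤ) : Prop :=
  ∀ v w, lo ≤ v → v < hi → lo ≤ w → w < hi → (s.m : ℤ) ∣ v - c → (s.m : ℤ) ∣ w - c' →
    r * s.x w ≤ s.x v

variable {s}

lemma M14 : 14 ≤ s.M := by
  have := s.hM; have := s.κ0; have := s.κ1
  have h : s.κ ^ 2 ≤ 1 := by nlinarith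
  have hM0 : 0 < s.M := by
    by_contra hc
    have : s.κ ^ 2 / 2 * s.M ≤ 0 := mul_nonpos_of_nonneg_of_nonpos (by positivity) (by linarith)
    linarith
  nlinarith

lemma S_sub_m {n : ℤ} (h : s.S n) : s.S (n - s.m) := s.per n _ (by simp) h

lemma S_of_sub_m {n : ℤ} (h : s.S (n - s.m)) : s.S n := s.per _ n (by simp) h

lemma S_of {c n : ℤ} (hc : s.S c) (h : (s.m : ℤ) ∣ n - c) : s.S n :=
  s.per c n (by simpa using h.neg_right) hc

lemma one {n : ℤ} (h : s.S n) : ¬ s.S (n - s.u) := by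
  intro h'
  have := s.Bfree s.u s.hu n h h'
  rw [s.B3] at this
  norm_num at this

lemma T_not_S {n : ℤ} (h : s.T n) : ¬ s.S n := fun h' => one h' h

lemma chain {N : ℤ} (H : s.Upto N) {w : ℤ} (hw : s.S w) (t : ℕ) (ht : w + t * s.m < N) :
    s.S (w + t * s.m) ∧ s.x w ≤ s.x (w + t * s.m) ∧ s.x (w + t * s.m) ≤ s.γ ^ t * s.x w := by
  induction t with
  | zero => simpa using hw
  | succ t ih =>
    have hm : (0 : ℤ) ≤ s.m := by positivity
    have e : w + ((t + 1 : ℕ) : ℤ) * s.m - s.m = w + t * s.m := by push_cast; ring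
    have ih := ih (by rw [← e]; omega)
    have hS : s.S (w + ((t + 1 : ℕ) : ℤ) * s.m) := S_of_sub_m (by rw [e]; exact ih.1)
    obtain ⟨-, h1, h2, -⟩ := (H _ ht).2.1 hS
    rw [e] at h1 h2
    refine ⟨hS, ih.2.1.trans h1, h2.trans ?_⟩
    rw [pow_succ, mul_comm (s.γ ^ t), mul_assoc]
    exact mul_le_mul_of_nonneg_left ih.2.2 (by linarith [s.γ1])

lemma same {N : ℤ} (H : s.Upto N) {v w : ℤ} (hw : s.S w) (hd : (s.m : ℤ) ∣ v - w)
    (huN : v < N) (hwN : w < N) (h1 : v - w ≤ 4 * s.k) :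
    s.x v ≤ 2 * s.x w := by
  have hv : s.S v := S_of hw hd
  obtain ⟨t, ht⟩ := hd
  have hm : (1 : ℤ) ≤ s.m := by have := s.hm; omega
  have hw0 := (H w hwN).1
  rcases le_or_gt 0 t with h | h
  · obtain ⟨t, rfl⟩ := Int.eq_ofNat_of_zero_le h
    have e : v = w + t * s.m := by linarith
    have := (chain H hw t (by rw [← e]; exact huN)).2.2
    rw [← e] at this
    have ht4 : t ≤ 4 * s.k := by
      have : (t : ℤ) ≤ 4 * s.k := by nlinarith
      exact_mod_cast this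
    have h2 : s.γ ^ t ≤ 2 := (pow_le_pow_right₀ s.γ1 ht4).trans s.γp
    nlinarith
  · obtain ⟨t', ht'⟩ := Int.eq_ofNat_of_zero_le (by omega : 0 ≤ -t)
    have e : w = v + t' * s.m := by rw [← ht']; linarith
    have := (chain H hv t' (by rw [← e]; exact hwN)).2.1
    rw [← e] at this
    linarith

lemma exists_cls (c lo : ℤ) : ∃ v, lo ≤ v ∧ v < lo + s.m ∧ (s.m : ℤ) ∣ v - c := by
  have hm : (0 : ℤ) < s.m := by have := s.hm; omega
  refine ⟨lo + (c - lo) % s.m, ?_, ?_, ?_⟩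
  · have := Int.emod_nonneg (c - lo) hm.ne'; omega
  · have := Int.emod_lt_of_pos (c - lo) hm; omega
  · refine ⟨-((c - lo) / s.m), ?_⟩
    have := Int.emod_add_mul_ediv (c - lo) s.m
    linarith

lemma nonS_le {N : ℤ} (H : s.Upto N) {v : ℤ} (hu : v < N) (h : ¬ s.S v) : s.x v ≤ 2 := by
  have := s.κ1
  by_cases hT : s.T v
  · linarith [((H v hu).2.2.1 hT).2]
  · linarith [(H v hu).2.2.2 h hT]

lemma win_le {n : ℤ} (H : s.Upto n) {v w : ℤ} (hu1 : n - s.k ≤ v) (hu2 : v < n)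
    (hw1 : n - s.k ≤ w) (hw2 : w < n) (hw : s.S w) : s.x v ≤ 2 * s.R * s.x w := by
  have hM := ((H w hw2).2.1 hw).1
  have := M14 (s := s); have := s.R16
  by_cases hu : s.S v
  · by_cases e : (s.m : ℤ) ∣ v - w
    · have := same H hw e hu2 hw2 (by omega)
      nlinarith
    · obtain ⟨w', h1, h2, h3⟩ := exists_cls (s := s) v (w - s.m + 1)
      have hne : w' ≠ w := by
        rintro rfl
        exact e (by simpa using h3.neg_right)
      have hmk := s.hmk
      have hw' : s.S w' := S_of hu h3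
      have a1 := same H hw' (by simpa using h3.neg_right) hu2 (by omega) (by omega)
      have a2 := (((H w hw2).2.1 hw).2.2.2 w' (by omega) (by omega) hw').2
      nlinarith
  · have := nonS_le H hu2 hu
    nlinarith

lemma b_nonneg (d : ℕ) : 0 ≤ s.b d := by
  by_cases h1 : d = s.m
  · rw [h1, s.bm]; linarith [s.g1]
  by_cases h2 : d = s.u
  · rw [h2, s.b3]; norm_num
  exact (s.bo d h1 h2).1

lemma B_nonneg (d : ℕ) : 0 ≤ s.B d := by
  by_cases h1 : d = s.u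
  · rw [h1, s.B3]; norm_num
  by_cases h2 : d = s.j
  · rw [h2, s.Bj]; norm_num
  exact (s.Bo d h1 h2).1

lemma term_nonneg {n : ℤ} (H : s.Upto n) {c : ℕ → ℝ} (hc : ∀ d, 0 ≤ c d) :
    ∀ d ∈ Icc 1 s.k, 0 ≤ c d * s.x (n - d) := fun d hd =>
  mul_nonneg (hc d) (H _ (by have := (mem_Icc.mp hd).1; omega)).1

lemma m_mem : s.m ∈ Icc 1 s.k := mem_Icc.mpr ⟨s.hm, s.hmk⟩

lemma N_nonneg {n : ℤ} (H : s.Upto n) : 0 ≤ lf s.k s.b s.x n :=
  (term_nonneg H b_nonneg _ m_mem).trans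
    (le_lf_one _ _ _ _ _ m_mem (b_nonneg 0) (term_nonneg H b_nonneg))

/-- upper bound for the numerator in terms of a big element of the window -/
lemma N_le {n w : ℤ} (H : s.Upto n) (hw1 : n - s.k ≤ w) (hw2 : w < n) (hw : s.S w) :
    lf s.k s.b s.x n ≤ 1 + s.g * s.x (n - s.m) + s.x (n - s.u)
      + s.κ ^ 2 / 2 * s.x w := by
  have hu := mem_Icc.mp s.hu
  have h0 : s.b 0 ≤ 1 := ((s.bo 0 (by have := s.hm; omega) (by omega)).2).trans s.ε1
  have hw0 := (H w hw2).1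
  have hR := s.R16
  have := lf_le s.k s.b s.x n s.m s.u 1 (2 * s.R * s.ε * s.x w) h0
    (by have := s.ε0; positivity) (term_nonneg H b_nonneg _ m_mem)
    (term_nonneg H b_nonneg _ s.hu) (fun d hd h1 h2 => by
      have hd' := mem_Icc.mp hd
      have a1 := win_le H (v := n - d) (by omega) (by omega) hw1 hw2 hw
      have a2 := s.bo d h1 h2
      have a3 := (H (n - d) (by omega)).1
      calc s.b d * s.x (n - d) ≤ s.ε * (2 * s.R * s.x w) := mul_le_mul a2.2 a1 a3 s.ε0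
        _ = _ := by ring)
  rw [s.bm, s.b3] at this
  have h2 : (s.k : ℝ) * (2 * s.R * s.ε * s.x w) ≤ s.κ ^ 2 / 2 * s.x w := by
    rw [← mul_assoc]; exact mul_le_mul_of_nonneg_right s.hε hw0
  linarith

lemma seven {n w : ℤ} (H : s.Upto n) (hw2 : w < n) (hw : s.S w) :
    7 ≤ s.κ ^ 2 / 2 * s.x w :=
  s.hM.trans (mul_le_mul_of_nonneg_left ((H w hw2).2.1 hw).1 (by positivity))

lemma small_step {n : ℤ} (H : s.Upto n) (hn : 0 ≤ n) (hS : ¬ s.S n) (hT : ¬ s.T n) :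
    0 < lf s.k s.B s.x n ∧ s.x n ≤ s.κ := by
  obtain ⟨d, hd, hκ, hw'⟩ := s.ker n hS
  have hd' := mem_Icc.mp hd
  have hu := mem_Icc.mp s.hu
  have hM := ((H (n - d) (by omega)).2.1 hw').1
  have := M14 (s := s); have := s.κ0
  have hD := le_lf_one s.k s.B s.x n d hd (B_nonneg 0) (term_nonneg H B_nonneg)
  have hD2 : s.κ * s.x (n - d) ≤ lf s.k s.B s.x n :=
    (mul_le_mul_of_nonneg_right hκ (by linarith)).trans hD
  have hD0 : 0 < lf s.k s.B s.x n := lt_of_lt_of_le (mul_pos s.κ0 (by linarith)) hD2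
  refine ⟨hD0, ?_⟩
  rw [s.hrec n hn, div_le_iff₀ hD0]
  have hN := N_le H (w := n - d) (by omega) (by omega) hw'
  have a1 : s.x (n - s.m) ≤ 2 := nonS_le H (by have := s.hm; omega)
    (fun h => hS (S_of_sub_m h))
  have a2 : s.x (n - s.u) ≤ 2 := nonS_le H (by omega) hT
  have a3 := seven H (w := n - d) (by omega) hw'
  have a4 : s.g * s.x (n - s.m) ≤ 4 := by
    have := s.g1; have := s.g2; nlinarith
  nlinarith

/-- basic inequalities at a position of the middle classes -/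
lemma cls_aux {n : ℤ} (H : s.Upto n) (h : s.T n) :
    14 ≤ s.x (n - s.u) ∧
    s.x (n - s.u) ≤ lf s.k s.b s.x n ∧
    lf s.k s.b s.x n ≤ (1 + s.κ) * s.x (n - s.u) ∧
    s.x (n - s.u) ≤ lf s.k s.B s.x n ∧
    ∀ Y : ℝ, 0 ≤ Y → (∀ v, n - s.k ≤ v → v < n → s.x v ≤ Y * s.x (n - s.u)) →
      lf s.k s.B s.x n ≤ (1 + (s.κ + s.k * (Y * s.κ))) * s.x (n - s.u) := by
  have hS : s.S (n - s.u) := h
  have ha3 := mem_Icc.mp s.hu
  have hlt : n - (s.u : ℤ) < n := by omega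
  have hM := ((H _ hlt).2.1 hS).1
  have h14 := M14 (s := s)
  have κ0 := s.κ0; have κ1 := s.κ1
  have h7 := seven H hlt hS
  have hκ2 : s.κ ^ 2 ≤ s.κ := by nlinarith
  refine ⟨by linarith, ?_, ?_, ?_, ?_⟩
  · have := le_lf_one s.k s.b s.x n _ s.hu (b_nonneg 0) (term_nonneg H b_nonneg)
    rwa [s.b3, one_mul] at this
  · have hN := N_le H (by omega) hlt hS
    have a1 : s.x (n - s.m) ≤ 2 := nonS_le H (by have := s.hm; omega)
      (fun h' => T_not_S h (S_of_sub_m h'))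
    have a4 : s.g * s.x (n - s.m) ≤ 4 := by
      have := s.g1; have := s.g2; nlinarith
    nlinarith
  · have := le_lf_one s.k s.B s.x n _ s.hu (B_nonneg 0) (term_nonneg H B_nonneg)
    rwa [s.B3, one_mul] at this
  · intro Y hY hwin
    have hj := mem_Icc.mp s.hj
    have h0 : s.B 0 ≤ 1 := ((s.Bo 0 (by omega) (by omega)).2).trans s.κ1
    have hX0 : 0 ≤ s.x (n - s.u) := by linarith
    have := lf_le s.k s.B s.x n s.u s.j 1 (Y * s.κ * s.x (n - s.u)) h0
      (by positivity) (term_nonneg H B_nonneg _ s.hu) (term_nonneg H B_nonneg _ s.hj)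
      (fun d hd h1 h2 => by
        have hd' := mem_Icc.mp hd
        have a1 := hwin (n - d) (by omega) (by omega)
        have a2 := s.Bo d h1 h2
        have a3 := (H (n - d) (by omega)).1
        calc s.B d * s.x (n - d) ≤ s.κ * (Y * s.x (n - s.u)) :=
              mul_le_mul a2.2 a1 a3 κ0.le
          _ = _ := by ring)
    rw [s.B3, s.Bj] at this
    have a1 : s.x (n - s.j) ≤ 2 := nonS_le H (by omega) (fun h' => by
      refine s.two _ h' (S_of hS ?_)
      have e : n - s.j - s.u - s.u - (n - s.u) = -((s.j : ℤ) + s.u) := by ring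
      rw [e]; exact s.cj.neg_right)
    nlinarith

lemma cls_low {n : ℤ} (H : s.Upto n) (hn : 0 ≤ n) (h : s.T n) (Y : ℝ) (hY : 0 ≤ Y)
    (hwin : ∀ v, n - s.k ≤ v → v < n → s.x v ≤ Y * s.x (n - s.u)) :
    1 - (s.κ + s.k * (Y * s.κ)) ≤ s.x n := by
  obtain ⟨h14, h1, -, h3, h4⟩ := cls_aux H h
  have h4 := h4 Y hY hwin
  have hD0 : 0 < lf s.k s.B s.x n := by linarith
  rw [s.hrec n hn, le_div_iff₀ hD0]
  have κ0 := s.κ0
  set δ := s.κ + s.k * (Y * s.κ) with hδ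
  have hδ0 : 0 ≤ δ := by positivity
  by_cases hδ1 : 1 - δ ≤ 0
  · nlinarith
  · have : (1 - δ) * lf s.k s.B s.x n ≤ (1 - δ) * ((1 + δ) * s.x (n - s.u)) :=
      mul_le_mul_of_nonneg_left h4 (by linarith)
    nlinarith [mul_nonneg (mul_nonneg hδ0 hδ0) (by linarith : 0 ≤ s.x (n - s.u))]

lemma cls_step {n : ℤ} (H : s.Upto n) (hn : 0 ≤ n) (hT : s.T n) :
    0 < lf s.k s.B s.x n ∧ 1 - (s.κ + s.k * (2 * s.R * s.κ)) ≤ s.x n ∧ s.x n ≤ 1 + s.κ := by
  obtain ⟨h14, h1, h2, h3, -⟩ := cls_aux H hT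
  have hD0 : 0 < lf s.k s.B s.x n := by linarith
  have ha3 := mem_Icc.mp s.hu
  refine ⟨hD0, cls_low H hn hT (2 * s.R) (by linarith [s.R16]) fun v h1 h2 =>
    win_le H h1 h2 (by omega) (by omega) hT, ?_⟩
  rw [s.hrec n hn, div_le_iff₀ hD0]
  have := s.κ0
  nlinarith

lemma cls_up {n c c' : ℤ} (H : s.Upto n) (hc : s.S c) (hc' : s.S c')
    (h : (s.m : ℤ) ∣ n - s.u - c)
    (hD : s.Dom c c' (s.R / 8) (n - s.k) n) : 1 - (s.κ + s.k * (16 * s.κ)) ≤ s.x n := by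
  have hT : s.T n := S_of hc h
  rcases lt_or_ge n 0 with hn | hn
  · rw [s.pastC n hn hT]
    have := s.κ0
    have : 0 ≤ s.κ + s.k * (16 * s.κ) := by positivity
    linarith
  have ha3 := mem_Icc.mp s.hu
  obtain ⟨z, z1, z2, z3⟩ := exists_cls (s := s) c' (n - s.k)
  have hmk := s.hmk
  refine cls_low H hn hT 16 (by norm_num) fun v h1 h2 => ?_
  have a1 := win_le H h1 h2 z1 (by omega) (S_of hc' z3)
  have a2 := hD (n - s.u) z (by omega) (by omega) z1 (by omega) h z3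
  linarith

lemma not_dom_past {c c' lo hi : ℤ} (hc : s.S c) (hc' : s.S c') (h1 : lo + s.m ≤ hi)
    (h2 : hi ≤ 0) : ¬ s.Dom c c' (s.R / 8) lo hi := by
  intro hD
  obtain ⟨v, u1, u2, u3⟩ := exists_cls (s := s) c lo
  obtain ⟨w, w1, w2, w3⟩ := exists_cls (s := s) c' lo
  have := hD v w u1 (by omega) w1 (by omega) u3 w3
  rw [s.pastS v (by omega) (S_of hc u3), s.pastS w (by omega) (S_of hc' w3)] at this
  have := M14 (s := s); have := s.R16
  nlinarith

lemma cls_down {n c c' : ℤ} (H : s.Upto n) (hc : s.S c) (hc' : s.S c')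
    (hcc : ¬ (s.m : ℤ) ∣ c' - c) (h : (s.m : ℤ) ∣ n - s.u - c')
    (hD : s.Dom c c' (s.R / 8) (n - s.k) n) : s.x n ≤ 1 + s.κ - s.κ * s.R / 16 := by
  have hT : s.T n := S_of hc' h
  rcases lt_or_ge n 0 with hn | hn
  · exact absurd hD (not_dom_past hc hc' (by have := s.hmk; omega) hn.le)
  obtain ⟨h14, h1, h2, h3, -⟩ := cls_aux H hT
  have ha3 := mem_Icc.mp s.hu
  obtain ⟨d, hd, hκ, hcd0⟩ := s.fb c' c hc' hc hcc
  have hcd : (s.m : ℤ) ∣ n - d - c := by
    have := dvd_sub h hcd0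
    have e : n - s.u - c' - ((d : ℤ) - (c' + s.u - c)) = n - d - c := by ring
    rwa [e] at this
  have hne : s.u ≠ d := by
    intro e
    apply hcc
    rw [← e] at hcd0
    have e2 : ((s.u : ℕ) : ℤ) - (c' + s.u - c) = -(c' - c) := by ring
    rw [e2] at hcd0
    simpa using hcd0.neg_right
  have hd' := mem_Icc.mp hd
  have hlow := le_lf_two s.k s.B s.x n _ _ hne s.hu hd (B_nonneg 0) (term_nonneg H B_nonneg)
  rw [s.B3, one_mul] at hlow
  have hdom := hD (n - d) (n - s.u) (by omega) (by omega) (by omega) (by omega) hcd h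
  have hx0 := (H (n - d) (by omega)).1
  have κ0 := s.κ0; have κ1 := s.κ1; have := s.R16; have κR := s.κR
  set X := s.x (n - s.u)
  set y := s.κ * s.R / 8 with hy
  have hy0 : 0 ≤ y := by positivity
  have hy1 : y ≤ 1 := by linarith
  have hD1 : (1 + y) * X ≤ lf s.k s.B s.x n := by
    have : s.κ * (s.R / 8 * X) ≤ s.B d * s.x (n - d) :=
      mul_le_mul hκ hdom (by positivity) (B_nonneg d)
    have e : (1 + y) * X = X + s.κ * (s.R / 8 * X) := by rw [hy]; ring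
    linarith
  have hD0 : 0 < lf s.k s.B s.x n := by linarith
  rw [s.hrec n hn, div_le_iff₀ hD0]
  have e : 1 + s.κ - s.κ * s.R / 16 = 1 + s.κ - y / 2 := by rw [hy]; ring
  rw [e]
  have a1 : (1 + s.κ - y / 2) * ((1 + y) * X) ≤ (1 + s.κ - y / 2) * lf s.k s.B s.x n :=
    mul_le_mul_of_nonneg_left hD1 (by linarith)
  have a2 : 1 + s.κ ≤ (1 + s.κ - y / 2) * (1 + y) := by nlinarith
  nlinarith

lemma sub_j {n c : ℤ} (h : (s.m : ℤ) ∣ n - c) : (s.m : ℤ) ∣ n - s.j - s.u - c := by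
  have := dvd_sub h s.cj
  have e : n - c - ((s.j : ℤ) + s.u) = n - s.j - s.u - c := by ring
  rwa [e] at this

/-- basic inequalities at a big position -/
lemma big_aux {n : ℤ} (H : s.Upto n) (h : s.S n) :
    14 ≤ s.x (n - s.m) ∧
    s.g * s.x (n - s.m) ≤ lf s.k s.b s.x n ∧
    lf s.k s.b s.x n ≤ (s.g + s.κ) * s.x (n - s.m) ∧
    s.x (n - s.j) ≤ lf s.k s.B s.x n ∧
    lf s.k s.B s.x n ≤ s.x (n - s.j) + s.κ * (2 + 2 * s.k) := by
  have hS := S_sub_m h
  have hm := mem_Icc.mp (m_mem (s := s))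
  have ha3 := mem_Icc.mp s.hu
  have hj := mem_Icc.mp s.hj
  have hlt : n - (s.m : ℤ) < n := by omega
  have hM := ((H _ hlt).2.1 hS).1
  have h14 := M14 (s := s)
  have κ0 := s.κ0; have κ1 := s.κ1
  have h7 := seven H hlt hS
  have hκ2 : s.κ ^ 2 ≤ s.κ := by nlinarith
  have hnS : ¬ s.S (n - s.u) := one h
  have hnT : ¬ s.T (n - s.u) := s.two n h
  have hsm := (H (n - s.u) (by omega)).2.2.2 hnS hnT
  refine ⟨by linarith, ?_, ?_, ?_, ?_⟩
  · have := le_lf_one s.k s.b s.x n _ m_mem (b_nonneg 0) (term_nonneg H b_nonneg)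
    rwa [s.bm] at this
  · have hN := N_le H (by omega) hlt hS
    nlinarith
  · have := le_lf_one s.k s.B s.x n _ s.hj (B_nonneg 0) (term_nonneg H B_nonneg)
    rwa [s.Bj, one_mul] at this
  · have h0 : s.B 0 ≤ s.κ := (s.Bo 0 (by omega) (by omega)).2
    have := lf_le s.k s.B s.x n s.u s.j s.κ (s.κ * 2) h0
      (by positivity) (term_nonneg H B_nonneg _ s.hu) (term_nonneg H B_nonneg _ s.hj)
      (fun d hd h1 h2 => by
        have hd' := mem_Icc.mp hd
        by_cases hu : s.S (n - d)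
        · rw [s.Bfree d hd n h hu, zero_mul]; positivity
        · exact mul_le_mul (s.Bo d h1 h2).2 (nonS_le H (by omega) hu) (H _ (by omega)).1 κ0.le)
    rw [s.B3, s.Bj] at this
    linarith

lemma big_step {n : ℤ} (H : s.Upto n) (hn : 0 ≤ n) (hS : s.S n) :
    0 < lf s.k s.B s.x n ∧ s.γ0 * s.x (n - s.m) ≤ s.x n ∧ s.x n ≤ s.γ * s.x (n - s.m) := by
  obtain ⟨h14, h1, h2, h3, h4⟩ := big_aux H hS
  have hj := mem_Icc.mp s.hj
  have hT : s.T (n - s.j) := S_of hS (sub_j (by simp))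
  obtain ⟨t1, t2⟩ := (H (n - s.j) (by omega)).2.2.1 hT
  have nδ := s.nδ
  have hD0 : 0 < lf s.k s.B s.x n := by linarith
  refine ⟨hD0, ?_, ?_⟩
  · rw [s.hrec n hn, le_div_iff₀ hD0]
    have a1 : lf s.k s.B s.x n ≤ 1 + s.κ * (3 + 2 * s.k) := by linarith
    have := s.γ01
    calc s.γ0 * s.x (n - s.m) * lf s.k s.B s.x n
        ≤ s.γ0 * s.x (n - s.m) * (1 + s.κ * (3 + 2 * s.k)) :=
          mul_le_mul_of_nonneg_left a1 (by positivity)
      _ = s.γ0 * (1 + s.κ * (3 + 2 * s.k)) * s.x (n - s.m) := by ring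
      _ ≤ s.g * s.x (n - s.m) := mul_le_mul_of_nonneg_right s.nγ0 (by linarith)
      _ ≤ _ := h1
  · rw [s.hrec n hn, div_le_iff₀ hD0]
    have := s.γ1
    calc lf s.k s.b s.x n ≤ (s.g + s.κ) * s.x (n - s.m) := h2
      _ ≤ s.γ * (1 - (s.κ + s.k * (2 * s.R * s.κ))) * s.x (n - s.m) :=
          mul_le_mul_of_nonneg_right s.nγ (by linarith)
      _ = s.γ * s.x (n - s.m) * (1 - (s.κ + s.k * (2 * s.R * s.κ))) := by ring
      _ ≤ _ := mul_le_mul_of_nonneg_left (by linarith) (by positivity)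

lemma Dom.mono {c c' : ℤ} {r : ℝ} {lo hi lo' hi' : ℤ} (h : s.Dom c c' r lo hi) (h1 : lo ≤ lo')
    (h2 : hi' ≤ hi) : s.Dom c c' r lo' hi' := fun v w a1 a2 a3 a4 =>
  h v w (by omega) (by omega) (by omega) (by omega)

lemma big_up {n c c' : ℤ} (H : s.Upto n) (hc : s.S c) (hc' : s.S c') (h : (s.m : ℤ) ∣ n - c)
    (hD : s.Dom c c' (s.R / 8) (n - 2 * s.k) n) : s.x n ≤ s.G * s.x (n - s.m) := by
  have hm := mem_Icc.mp (m_mem (s := s))
  have hS : s.S n := S_of hc h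
  rcases lt_or_ge n 0 with hn | hn
  · rw [s.pastS n hn hS, s.pastS _ (by omega) (S_sub_m hS)]
    have := M14 (s := s); have := s.G1
    nlinarith
  obtain ⟨h14, h1, h2, h3, h4⟩ := big_aux H hS
  have hj := mem_Icc.mp s.hj
  have hD0 := (big_step H hn hS).1
  have t1 := cls_up (n := n - s.j) (fun v hv => H v (by omega)) hc hc' (sub_j h)
    (hD.mono (by omega) (by omega))
  rw [s.hrec n hn, div_le_iff₀ hD0]
  have := s.G1
  calc lf s.k s.b s.x n ≤ (s.g + s.κ) * s.x (n - s.m) := h2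
    _ ≤ s.G * (1 - (s.κ + s.k * (16 * s.κ))) * s.x (n - s.m) :=
        mul_le_mul_of_nonneg_right s.nG1 (by linarith)
    _ = s.G * s.x (n - s.m) * (1 - (s.κ + s.k * (16 * s.κ))) := by ring
    _ ≤ _ := mul_le_mul_of_nonneg_left (by linarith) (by positivity)

lemma big_down {n c c' : ℤ} (H : s.Upto n) (hc : s.S c) (hc' : s.S c')
    (hcc : ¬ (s.m : ℤ) ∣ c' - c) (h : (s.m : ℤ) ∣ n - c')
    (hD : s.Dom c c' (s.R / 8) (n - 2 * s.k) n) : s.G * s.x (n - s.m) ≤ s.x n := by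
  have hm := mem_Icc.mp (m_mem (s := s))
  have hS : s.S n := S_of hc' h
  rcases lt_or_ge n 0 with hn | hn
  · exact absurd hD (not_dom_past hc hc' (by omega) hn.le)
  obtain ⟨h14, h1, h2, h3, h4⟩ := big_aux H hS
  have hj := mem_Icc.mp s.hj
  have hD0 := (big_step H hn hS).1
  have t1 := cls_down (n := n - s.j) (fun v hv => H v (by omega)) hc hc' hcc (sub_j h)
    (hD.mono (by omega) (by omega))
  rw [s.hrec n hn, le_div_iff₀ hD0]
  have := s.G1
  calc s.G * s.x (n - s.m) * lf s.k s.B s.x n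
      ≤ s.G * s.x (n - s.m) * (1 + s.κ - s.κ * s.R / 16 + s.κ * (2 + 2 * s.k)) :=
        mul_le_mul_of_nonneg_left (by linarith) (by positivity)
    _ = s.G * (1 + s.κ - s.κ * s.R / 16 + s.κ * (2 + 2 * s.k)) * s.x (n - s.m) := by ring
    _ ≤ s.g * s.x (n - s.m) := mul_le_mul_of_nonneg_right s.nG2 (by linarith)
    _ ≤ _ := h1

lemma dom_of {N p p' lo : ℤ} (H : s.Upto N) (hp : s.S p)
    (hp' : s.S p') (h1 : p < N) (h2 : p' < N) (h3 : p - lo ≤ 4 * s.k)
    (h4 : N - p' ≤ 4 * s.k) (h : s.R / 2 * s.x p' ≤ s.x p) : s.Dom p p' (s.R / 8) lo N := by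
  intro v w u1 u2 w1 w2 hu hw
  have a1 := same H (S_of hp hu) (by simpa using hu.neg_right) h1 u2 (by omega)
  have a2 := same H hp' hw w2 h2 (by omega)
  have := s.R16
  nlinarith

lemma inv_step {n : ℤ} (H : s.Upto n) (hn : 0 ≤ n) : 0 < lf s.k s.B s.x n ∧ s.Inv n := by
  have hD0 : 0 < lf s.k s.B s.x n := by
    by_cases hS : s.S n
    · exact (big_step H hn hS).1
    by_cases hT : s.T n
    · exact (cls_step H hn hT).1
    exact (small_step H hn hS hT).1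
  refine ⟨hD0, ?_, fun hS => ?_, fun hT => (cls_step H hn hT).2,
    fun hS hT => (small_step H hn hS hT).2⟩
  · rw [s.hrec n hn]; exact div_nonneg (N_nonneg H) hD0.le
  obtain ⟨-, g1, g2⟩ := big_step H hn hS
  have hm := mem_Icc.mp (m_mem (s := s))
  have hI := (H (n - s.m) (by omega)).2.1 (S_sub_m hS)
  have h14 := M14 (s := s)
  have γ01 := s.γ01; have γ1 := s.γ1; have γ2 := s.γ2; have R16 := s.R16
  have hle : s.x (n - s.m) ≤ s.x n := by nlinarith [hI.1]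
  refine ⟨hI.1.trans hle, hle, g2, fun v u1 u2 hu => ?_⟩
  have e' : ¬ (s.m : ℤ) ∣ n - s.m - (v - s.m) := by
    intro hd
    have := Int.le_of_dvd (by omega) hd
    omega
  have e'' : ¬ (s.m : ℤ) ∣ v - s.m - (n - s.m) := fun hd => e' (by simpa using hd.neg_right)
  obtain ⟨r1, r2⟩ := hI.2.2.2 (v - s.m) (by omega) (by omega) (S_sub_m hu)
  obtain ⟨-, v1, v2, -⟩ := (H v u2).2.1 hu
  have v0 := (H (v - s.m) (by omega)).1
  have w0 := (H (n - s.m) (by omega)).1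
  have Hu : s.Upto v := fun z hz => H z (by omega)
  constructor
  · by_cases hcase : s.R / 2 * s.x (v - s.m) ≤ s.x (n - s.m)
    · have hD := dom_of (lo := v - 2 * s.k) H (S_sub_m hS) (S_sub_m hu) (by omega) (by omega)
        (by omega) (by omega) hcase
      have a1 := big_up H (S_sub_m hS) (S_sub_m hu) (by simp) (hD.mono (by omega) le_rfl)
      have a2 := big_down Hu (S_sub_m hS) (S_sub_m hu) e'' (by simp) (hD.mono le_rfl u2.le)
      have := s.G1
      calc s.x n ≤ s.G * s.x (n - s.m) := a1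
        _ ≤ s.G * (s.R * s.x (v - s.m)) := mul_le_mul_of_nonneg_left r1 (by linarith)
        _ = s.R * (s.G * s.x (v - s.m)) := by ring
        _ ≤ _ := mul_le_mul_of_nonneg_left a2 (by linarith)
    · nlinarith
  · by_cases hcase : s.R / 2 * s.x (n - s.m) ≤ s.x (v - s.m)
    · have hD := dom_of (lo := v - 2 * s.k) H (S_sub_m hu) (S_sub_m hS) (by omega)
        (by omega) (by omega) (by omega) hcase
      have a1 := big_up Hu (S_sub_m hu) (S_sub_m hS) (by simp) (hD.mono le_rfl u2.le)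
      have a2 := big_down H (S_sub_m hu) (S_sub_m hS) e' (by simp) (hD.mono (by omega) le_rfl)
      have := s.G1
      calc s.x v ≤ s.G * s.x (v - s.m) := a1
        _ ≤ s.G * (s.R * s.x (n - s.m)) := mul_le_mul_of_nonneg_left r2 (by linarith)
        _ = s.R * (s.G * s.x (n - s.m)) := by ring
        _ ≤ _ := mul_le_mul_of_nonneg_left a2 (by linarith)
    · nlinarith

lemma inv_past {n : ℤ} (hn : n < 0) : s.Inv n := by
  have h14 := M14 (s := s)
  have κ0 := s.κ0; have γ1 := s.γ1; have R16 := s.R16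
  have hm := mem_Icc.mp (m_mem (s := s))
  refine ⟨?_, fun hS => ?_, fun hT => ?_, fun hS hT => ?_⟩
  · by_cases hS : s.S n
    · rw [s.pastS n hn hS]; linarith
    by_cases hT : s.T n
    · rw [s.pastC n hn hT]; linarith
    rw [s.pastO n hn hS hT]
  · rw [s.pastS n hn hS, s.pastS _ (by omega) (S_sub_m hS)]
    refine ⟨le_rfl, le_rfl, by nlinarith, fun v u1 u2 hu => ?_⟩
    rw [s.pastS v (by omega) hu]
    constructor <;> nlinarith
  · rw [s.pastC n hn hT]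
    have : 0 ≤ s.κ + s.k * (2 * s.R * s.κ) := by positivity
    constructor <;> linarith
  · rw [s.pastO n hn hS hT]; exact κ0.le

lemma upto_all (N : ℕ) : s.Upto N := by
  induction N with
  | zero => exact fun v hu => inv_past (by simpa using hu)
  | succ N ih =>
    intro v hu
    rcases lt_or_ge v N with h | h
    · exact ih v h
    · have : v = N := by omega
      subst this
      exact (inv_step ih (by omega)).2

lemma D_pos {n : ℤ} (hn : 0 ≤ n) : 0 < lf s.k s.B s.x n := by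
  obtain ⟨N, rfl⟩ := Int.eq_ofNat_of_zero_le hn
  exact (inv_step (upto_all N) hn).1

lemma grow {r : ℤ} (hr : s.S r) (h1 : -(s.m : ℤ) ≤ r) (h2 : r < 0) (t : ℕ) :
    s.γ0 ^ t ≤ s.x (r + t * s.m) := by
  have hm := mem_Icc.mp (m_mem (s := s))
  induction t with
  | zero =>
    rw [s.pastS _ (by simpa using h2) (by simpa using hr)]
    simp; linarith [M14 (s := s)]
  | succ t ih =>
    have h0 : 0 ≤ r + ((t + 1 : ℕ) : ℤ) * s.m := by push_cast; nlinarith
    obtain ⟨N, hN⟩ := Int.eq_ofNat_of_zero_le h0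
    have hS : s.S N := by
      rw [← hN]; exact S_of hr (by simp)
    have := (big_step (upto_all (s := s) N) (by positivity) hS).2.1
    have e : (N : ℤ) - s.m = r + t * s.m := by rw [← hN]; push_cast; ring
    rw [e] at this
    rw [hN, pow_succ, mul_comm]
    exact le_trans (mul_le_mul_of_nonneg_left ih (by linarith [s.γ01])) this

lemma unbounded : ¬ ∃ C : ℝ, ∀ n : ℤ, 0 ≤ n → |s.x n| ≤ C := by
  rintro ⟨C, hC⟩
  obtain ⟨t, ht⟩ := pow_unbounded_of_one_lt C s.γ01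
  obtain ⟨r0, hr0⟩ := s.ne
  obtain ⟨r, r1, r2, r3⟩ := exists_cls (s := s) r0 (-(s.m : ℤ))
  have h1 := grow (s := s) (S_of hr0 r3) r1 (by omega) (t + 1)
  have hm := s.hm
  have h2 := hC (r + ((t + 1 : ℕ) : ℤ) * s.m) (by push_cast; nlinarith)
  have h3 : s.γ0 ^ t ≤ s.γ0 ^ (t + 1) := pow_le_pow_right₀ s.γ01.le (by omega)
  have := le_abs_self (s.x (r + ((t + 1 : ℕ) : ℤ) * s.m))
  linarith

end St

/-- a periodic kernel with any number of classes -/
structure Ker (k m u : ℕ) (S : ℤ → Prop) (p q : ℕ → Prop) : Prop where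
  hk : 9 ≤ k
  hm : 1 ≤ m
  hmk : m ≤ k
  hu : u ∈ Icc 1 k
  per : ∀ v w : ℤ, (m : ℤ) ∣ v - w → S v → S w
  ne : ∃ r, S r
  two : ∀ n, S n → ¬ S (n - u - u)
  pm : p m
  pu : p u
  qu : q u
  free : ∀ d ∈ Icc 1 k, ∀ n : ℤ, S n → S (n - d) → ¬ q d
  ker : ∀ n : ℤ, ¬ S n → ∃ d ∈ Icc 1 k, q d ∧ S (n - d)
  exj : ∃ d ∈ Icc 1 k, q d ∧ (m : ℤ) ∣ (d : ℤ) + u
  fb : ∀ r r' : ℤ, S r → S r' → ¬ (m : ℤ) ∣ r - r' →
    ∃ d ∈ Icc 1 k, q d ∧ (m : ℤ) ∣ (d : ℤ) - (r + u - r')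

theorem not_ESB {k m u : ℕ} {S : ℤ → Prop} {P Q : Finset (Fin (k + 1))}
    (h : Ker k m u S (mem k P) (mem k Q)) : ¬ ESB k P Q := by
  classical
  intro hE
  obtain ⟨j, hj, qj, cj⟩ := h.exj
  have hk : 9 ≤ k := h.hk
  have hK : (9 : ℝ) ≤ k := by exact_mod_cast hk
  obtain ⟨κ, hκ⟩ : ∃ κ : ℝ, κ = 1 / (40000 * (k : ℝ) ^ 3) := ⟨_, rfl⟩
  obtain ⟨t, ht⟩ : ∃ t : ℝ, t = 1 / (40000 * (k : ℝ)) := ⟨_, rfl⟩
  have κ0 : 0 < κ := by rw [hκ]; positivity
  have e1 : κ * k ^ 2 = t := by rw [hκ, ht]; field_simp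
  have e2 : 1 / (8 * (k : ℝ)) = 5000 * t := by rw [ht]; field_simp; norm_num
  have t0 : 0 < t := by rw [ht]; positivity
  have t1 : t * k = 1 / 40000 := by rw [ht]; field_simp
  have t2 : t ≤ 1 / 40000 := by nlinarith
  have k1 : κ * k ≤ t := by nlinarith
  have k2 : κ ≤ t := by nlinarith
  let ε : ℝ := κ ^ 2 / (1600 * (k : ℝ) ^ 2)
  have ε0 : 0 < ε := by positivity
  let g : ℝ := 1 + 2500 * t
  let b : ℕ → ℝ := fun d => if d = m then g else if d = u then 1 else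
    if mem k P d then ε else 0
  let B : ℕ → ℝ := fun d => if d = u ∨ d = j then 1 else if mem k Q d then κ else 0
  have hB : ∀ d, mem k Q d → κ ≤ B d := by
    intro d hd
    simp only [B, hd, if_true]
    split_ifs <;> linarith
  let init : ℤ → ℝ := fun n => if S n then 14 / κ ^ 2 else if S (n - u) then 1 else 0
  obtain ⟨x, hx0, hx1⟩ := exists_sol (fun x n => lf k b x n / lf k B x n)
    (fun x y n hxy => by simp only [lf_congr k _ x y n hxy]) init
  have hm3 : m ≠ u := by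
    intro e
    obtain ⟨r, hr⟩ := h.ne
    refine h.free u h.hu r hr (h.per r _ ?_ hr) h.qu
    rw [e]; simp
  have hden : 0 < 1 - (κ + k * (16 * κ)) := by nlinarith
  let s : St :=
    { k := k, m := m, u := u, j := j, S := S, b := b, B := B, κ := κ, ε := ε, M := 14 / κ ^ 2,
      R := 400 * k, g := g, γ := 1 + 5000 * t, γ0 := 1 + 1250 * t,
      G := (g + κ) / (1 - (κ + k * (16 * κ))), x := x,
      hm := h.hm, hmk := h.hmk, hu := h.hu, hj := hj, cj := cj, per := h.per, ne := h.ne,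
      two := h.two
      bm := by simp [b]
      b3 := by simp [b, hm3.symm]
      bo := by
        intro d h1 h2
        simp only [b, h1, h2, if_false]
        split_ifs <;> constructor <;> linarith
      B3 := by simp [B]
      Bj := by simp [B]
      Bo := by
        intro d h1 h2
        simp only [B, h1, h2, or_self, if_false]
        split_ifs <;> constructor <;> linarith
      Bfree := by
        intro d hd n hn hn'
        have hq := h.free d hd n hn hn'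
        have h1 : d ≠ u := by rintro rfl; exact hq h.qu
        have h2 : d ≠ j := by rintro rfl; exact hq qj
        simp [B, h1, h2, hq]
      ker := fun n hn => by
        obtain ⟨d, hd, hq, hc⟩ := h.ker n hn
        exact ⟨d, hd, hB d hq, hc⟩
      fb := fun r r' h1 h2 h3 => by
        obtain ⟨d, hd, hq, hc⟩ := h.fb r r' h1 h2 h3
        exact ⟨d, hd, hB d hq, hc⟩
      pastS := fun n hn hS => by rw [hx0 n hn]; simp only [init, hS, if_true]
      pastC := fun n hn hT => by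
        rw [hx0 n hn]
        have : ¬ S n := fun hS => h.free u h.hu n hS hT h.qu
        simp only [init, this, hT, if_true, if_false]
      pastO := fun n hn hS hT => by rw [hx0 n hn]; simp only [init, hS, hT, if_false]
      hrec := hx1
      κ0 := κ0
      κ1 := by linarith
      ε0 := ε0.le
      ε1 := by
        show κ ^ 2 / (1600 * (k : ℝ) ^ 2) ≤ 1
        rw [div_le_one (by positivity)]; nlinarith
      g1 := by show 1 ≤ 1 + 2500 * t; linarith
      g2 := by show 1 + 2500 * t ≤ 2; linarith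
      R16 := by linarith
      κR := by nlinarith
      hM := by rw [show κ ^ 2 / 2 * (14 / κ ^ 2) = 7 by field_simp; norm_num]
      hε := by
        rw [show (k : ℝ) * (2 * (400 * k) * ε) = κ ^ 2 / 2 by
          simp only [ε]; field_simp; norm_num]
      γ1 := by linarith
      γ2 := by linarith
      γp := by rw [← e2]; exact pow_le_two k (by omega)
      nδ := by nlinarith
      nγ := by
        show 1 + 2500 * t + κ ≤ _
        have : (k : ℝ) * (2 * (400 * k) * κ) = 800 * t := by rw [← e1]; ring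
        rw [this]; nlinarith
      γ01 := by linarith
      nγ0 := by
        show _ ≤ 1 + 2500 * t
        have : κ * (3 + 2 * k) ≤ 5 * t := by nlinarith
        nlinarith
      G1 := by
        rw [le_div_iff₀ hden]
        show _ ≤ 1 + 2500 * t + κ
        nlinarith
      nG1 := by rw [div_mul_cancel₀ _ hden.ne']
      nG2 := by
        rw [div_mul_eq_mul_div, div_le_iff₀ hden]
        have hg : 1 ≤ g := by show 1 ≤ 1 + 2500 * t; linarith
        have a1 : 0 ≤ κ * (g * k - 9 * g) := mul_nonneg κ0.le (by nlinarith)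
        have a2 : 0 ≤ κ * κ * (k - 9) := by positivity
        have a3 : 0 ≤ κ * (g - 1) := mul_nonneg κ0.le (by linarith)
        nlinarith }
  refine s.unbounded (hE (fun i => b i) (fun i => B i) ?_ ?_ x ?_ ?_)
  · intro i
    have hi : mem k P i ↔ i ∈ P := ⟨fun ⟨_, h⟩ => h, fun h => ⟨i.2, h⟩⟩
    constructor
    · intro hP
      simp only [b, hi.mpr hP, if_true]
      split_ifs
      · show 0 < 1 + 2500 * t; linarith
      · norm_num
      · exact ε0
    · intro hP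
      have h0 : ¬ mem k P i := fun h => hP (hi.mp h)
      have h1 : (i : ℕ) ≠ m := fun e => h0 (e ▸ h.pm)
      have h2 : (i : ℕ) ≠ u := fun e => h0 (e ▸ h.pu)
      simp [b, h0, h1, h2]
  · intro i
    have hi : mem k Q i ↔ i ∈ Q := ⟨fun ⟨_, h⟩ => h, fun h => ⟨i.2, h⟩⟩
    constructor
    · intro hQ
      exact κ0.trans_le (hB _ (hi.mpr hQ))
    · intro hQ
      have h0 : ¬ mem k Q i := fun h => hQ (hi.mp h)
      have h1 : (i : ℕ) ≠ j := fun e => h0 (e ▸ qj)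
      have h2 : (i : ℕ) ≠ u := fun e => h0 (e ▸ h.qu)
      simp [B, h0, h1, h2]
  · intro n _ hn
    exact (St.inv_past (s := s) hn).1
  · intro n hn
    rw [form_eq_lf, form_eq_lf]
    exact ⟨St.D_pos (s := s) hn, hx1 n hn⟩

end Pool.Agent.MP_01c7b3_an.SE
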