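import Mathlib

namespace Pool.Agent.MP_01c7b3_an.SE
open Finset

variable {ι : Type} [Fintype ι] [DecidableEq ι]

/-- the probability that a uniform random subset contains `N` -/
noncomputable def wt (N : Finset ι) : ℝ := (1 / 2) ^ N.card

omit [Fintype ι] [DecidableEq ι] in
lemma wt_pos (N : Finset ι) : 0 < wt N := by unfold wt; positivity

omit [Fintype ι] [DecidableEq ι] in
lemma wt_anti {N N' : Finset ι} (h : N.card ≤ N'.card) : wt N' ≤ wt N :=
  pow_le_pow_of_le_one (by norm_num) (by norm_num) h

/-- the subsets containing `N` -/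
def up (N : Finset ι) : Finset (Finset ι) := univ.filter fun G => N ⊆ G

lemma mem_up {N G : Finset ι} : G ∈ up N ↔ N ⊆ G := by simp [up]

lemma card_up (N : Finset ι) : ((up N).card : ℝ) = 2 ^ Fintype.card ι * wt N := by
  have e : up N = Icc N univ := by ext G; simp [mem_up]
  rw [e, Finset.card_Icc_finset (subset_univ N), card_univ]
  have h := Finset.card_le_univ N
  unfold wt
  push_cast
  rw [one_div, inv_pow, pow_sub₀ _ (by norm_num) h]

section Janson
variable {A : Type} [DecidableEq A]

open Classical in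
/-- no set of the family is contained in `G` -/
noncomputable def none' (F : Finset A) (N : A → Finset ι) : Finset (Finset ι) :=
  univ.filter fun G => ∀ a ∈ F, ¬ N a ⊆ G

omit [DecidableEq A] in
lemma mem_none' {F : Finset A} {N : A → Finset ι} {G : Finset ι} :
    G ∈ none' F N ↔ ∀ a ∈ F, ¬ N a ⊆ G := by simp [none']

omit [DecidableEq A] in
lemma none'_lower (F : Finset A) (N : A → Finset ι) :
    IsLowerSet (none' F N : Set (Finset ι)) := by
  intro G G' h hG
  simp only [mem_coe, mem_none'] at hG ⊢
  exact fun a ha h' => hG a ha (h'.trans h)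

lemma up_upper (N : Finset ι) : IsUpperSet (up N : Set (Finset ι)) := by
  intro G G' h hG
  simp only [mem_coe, mem_up] at hG ⊢
  exact hG.trans h

omit [DecidableEq A] in
lemma harris (F : Finset A) (N : A → Finset ι) (X : Finset ι) :
    ((up X ∩ none' F N).card : ℝ) ≤ wt X * (none' F N).card := by
  have h := (up_upper X).card_inter_le_finset (none'_lower F N)
  have h' : (2 : ℝ) ^ Fintype.card ι * (up X ∩ none' F N).card
      ≤ (up X).card * (none' F N).card := by exact_mod_cast h
  rw [card_up, mul_assoc] at h'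
  exact le_of_mul_le_mul_left h' (by positivity)

omit [DecidableEq A] in
lemma indep (F : Finset A) (N : A → Finset ι) (X : Finset ι)
    (hd : ∀ a ∈ F, Disjoint X (N a)) :
    wt X * (none' F N).card ≤ ((up X ∩ none' F N).card : ℝ) := by
  have h : (none' F N).card ≤ ((up X ∩ none' F N) ×ˢ X.powerset).card := by
    refine Finset.card_le_card_of_injOn (fun G => (G ∪ X, G ∩ X)) ?_ ?_
    · intro G hG
      simp only [mem_coe, mem_product, mem_inter, mem_up, mem_powerset, mem_none'] at hG ⊢
      refine ⟨⟨subset_union_right, fun a ha h' => hG a ha fun x hx => ?_⟩, inter_subset_right⟩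
      rcases mem_union.mp (h' hx) with h1 | h1
      · exact h1
      · exact absurd hx (disjoint_left.mp (hd a ha) h1)
    · intro G _ G' _ h
      simp only [Prod.mk.injEq] at h
      ext x
      have h1 := Finset.ext_iff.mp h.1 x
      have h2 := Finset.ext_iff.mp h.2 x
      simp only [mem_union, mem_inter] at h1 h2
      tauto
  rw [card_product, card_powerset] at h
  have h' : ((none' F N).card : ℝ) ≤ (up X ∩ none' F N).card * 2 ^ X.card := by exact_mod_cast h
  have e : wt X * 2 ^ X.card = 1 := by unfold wt; rw [← mul_pow]; norm_num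
  calc wt X * (none' F N).card ≤ wt X * ((up X ∩ none' F N).card * 2 ^ X.card) :=
        mul_le_mul_of_nonneg_left h' (wt_pos X).le
    _ = (wt X * 2 ^ X.card) * (up X ∩ none' F N).card := by ring
    _ = _ := by rw [e, one_mul]

omit [DecidableEq A] in
lemma janson_step (F : Finset A) (N : A → Finset ι) (X : Finset ι) :
    (wt X - ∑ b ∈ F.filter (fun b => ¬ Disjoint X (N b)), wt (X ∪ N b)) * (none' F N).card
      ≤ ((up X ∩ none' F N).card : ℝ) := by
  classical
  set F1 := F.filter (fun b => ¬ Disjoint X (N b))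
  set F2 := F.filter (fun b => Disjoint X (N b))
  set q := wt X - ∑ b ∈ F1, wt (X ∪ N b)
  rcases le_or_gt q 0 with hq | hq
  · exact (mul_nonpos_of_nonpos_of_nonneg hq (by positivity)).trans (by positivity)
  have hsub : none' F N ⊆ none' F2 N := by
    intro G hG
    rw [mem_none'] at hG ⊢
    exact fun a ha => hG a (mem_filter.mp ha).1
  have h1 := indep F2 N X fun a ha => (mem_filter.mp ha).2
  have h2 : up X ∩ none' F2 N ⊆ (up X ∩ none' F N) ∪ F1.biUnion fun b =>
      up (X ∪ N b) ∩ none' F2 N := by
    intro G hG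
    simp only [mem_inter, mem_up, mem_union, mem_biUnion] at hG ⊢
    by_cases h : G ∈ none' F N
    · exact Or.inl ⟨hG.1, h⟩
    · right
      rw [mem_none'] at h
      push Not at h
      obtain ⟨b, hb, hb'⟩ := h
      refine ⟨b, mem_filter.mpr ⟨hb, fun hd => ?_⟩, union_subset hG.1 hb', hG.2⟩
      exact mem_none'.mp hG.2 b (mem_filter.mpr ⟨hb, hd⟩) hb'
  have h3 : ((up X ∩ none' F2 N).card : ℝ) ≤ (up X ∩ none' F N).card
      + ∑ b ∈ F1, ((up (X ∪ N b) ∩ none' F2 N).card : ℝ) := by
    have := (card_le_card h2).trans ((card_union_le _ _).trans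
      (Nat.add_le_add_left card_biUnion_le _))
    exact_mod_cast this
  have h4 : ∑ b ∈ F1, ((up (X ∪ N b) ∩ none' F2 N).card : ℝ)
      ≤ (∑ b ∈ F1, wt (X ∪ N b)) * (none' F2 N).card := by
    rw [sum_mul]; exact sum_le_sum fun b _ => harris F2 N _
  have h5 : ((none' F N).card : ℝ) ≤ (none' F2 N).card := by exact_mod_cast card_le_card hsub
  calc q * (none' F N).card ≤ q * (none' F2 N).card := mul_le_mul_of_nonneg_left h5 hq.le
    _ ≤ _ := by simp only [q]; linarith

/-- the pair sum of Janson's inequality (ordered pairs) -/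
noncomputable def Del (F : Finset A) (N : A → Finset ι) : ℝ :=
  ∑ a ∈ F, ∑ b ∈ F.filter (fun b => b ≠ a ∧ ¬ Disjoint (N a) (N b)), wt (N a ∪ N b)

omit [Fintype ι] in
lemma Del_mono {F F' : Finset A} (h : F ⊆ F') (N : A → Finset ι) : Del F N ≤ Del F' N := by
  unfold Del
  refine le_trans (sum_le_sum fun a _ => ?_) (sum_le_sum_of_subset_of_nonneg h fun a _ _ =>
    sum_nonneg fun b _ => (wt_pos _).le)
  exact sum_le_sum_of_subset_of_nonneg (filter_subset_filter _ h) fun b _ _ => (wt_pos _).le

theorem janson (F : Finset A) (N : A → Finset ι) :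
    ((none' F N).card : ℝ)
      ≤ 2 ^ Fintype.card ι * Real.exp (-(∑ a ∈ F, wt (N a)) + Del F N) := by
  induction F using Finset.induction_on with
  | empty =>
    have : (none' (∅ : Finset A) N).card ≤ 2 ^ Fintype.card ι := by
      simpa using Finset.card_le_univ (none' (∅ : Finset A) N)
    simp only [sum_empty, Del, neg_zero, add_zero, Real.exp_zero, mul_one]
    exact_mod_cast this
  | insert a F ha ih =>
    set q := wt (N a) - ∑ b ∈ F.filter (fun b => ¬ Disjoint (N a) (N b)), wt (N a ∪ N b)
    have h1 := janson_step F N (N a)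
    have h2 : (none' (insert a F) N).card + (up (N a) ∩ none' F N).card = (none' F N).card := by
      rw [← card_union_of_disjoint]
      · congr 1
        ext G
        simp only [mem_union, mem_inter, mem_up, mem_none', forall_mem_insert]
        tauto
      · rw [disjoint_left]
        intro G h h'
        exact mem_none'.mp h a (mem_insert_self _ _) (mem_up.mp (mem_inter.mp h').1)
    have h3 : ((none' (insert a F) N).card : ℝ) ≤ (1 - q) * (none' F N).card := by
      have : ((none' (insert a F) N).card : ℝ) + (up (N a) ∩ none' F N).card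
          = (none' F N).card := by exact_mod_cast h2
      linarith
    have h4 : 1 - q ≤ Real.exp (-q) := by linarith [Real.add_one_le_exp (-q)]
    have h5 : ∑ b ∈ F.filter (fun b => ¬ Disjoint (N a) (N b)), wt (N a ∪ N b) + Del F N
        ≤ Del (insert a F) N := by
      unfold Del
      rw [sum_insert ha]
      refine add_le_add (sum_le_sum_of_subset_of_nonneg ?_ fun b _ _ => (wt_pos _).le)
        (sum_le_sum fun a' _ => sum_le_sum_of_subset_of_nonneg
          (filter_subset_filter _ (subset_insert _ _)) fun b _ _ => (wt_pos _).le)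
      intro b hb
      rw [mem_filter] at hb ⊢
      exact ⟨mem_insert_of_mem hb.1, fun e => ha (e ▸ hb.1), hb.2⟩
    calc ((none' (insert a F) N).card : ℝ) ≤ Real.exp (-q) * (none' F N).card :=
          h3.trans (mul_le_mul_of_nonneg_right h4 (by positivity))
      _ ≤ Real.exp (-q) * (2 ^ Fintype.card ι * Real.exp (-(∑ a ∈ F, wt (N a)) + Del F N)) :=
          mul_le_mul_of_nonneg_left ih (Real.exp_pos _).le
      _ = 2 ^ Fintype.card ι * Real.exp (-q + (-(∑ a ∈ F, wt (N a)) + Del F N)) := by
          rw [Real.exp_add (-q)]; ring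
      _ ≤ _ := by
          refine mul_le_mul_of_nonneg_left (Real.exp_le_exp.mpr ?_) (by positivity)
          rw [sum_insert ha]
          simp only [q]
          linarith

end Janson

lemma card_small (r : ℕ) :
    ((univ : Finset (Finset ι)).filter fun H => H.card ≤ r).card ≤ (Fintype.card ι + 1) ^ r := by
  induction r with
  | zero =>
    rw [pow_zero, card_le_one]
    intro a ha b hb
    simp only [mem_filter, mem_univ, true_and, nonpos_iff_eq_zero, card_eq_zero] at ha hb
    rw [ha, hb]
  | succ r ih =>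
    set Sm := (univ : Finset (Finset ι)).filter fun H => H.card ≤ r
    have h : ((univ : Finset (Finset ι)).filter fun H => H.card ≤ r + 1)
        ⊆ Sm ∪ image₂ insert (univ : Finset ι) Sm := by
      intro H hH
      simp only [mem_filter, mem_univ, true_and] at hH
      rcases H.eq_empty_or_nonempty with rfl | ⟨x, hx⟩
      · exact mem_union_left _ (by simp [Sm])
      · refine mem_union_right _ (mem_image₂.mpr ⟨x, mem_univ _, H.erase x, ?_, insert_erase hx⟩)
        simp only [Sm, mem_filter, mem_univ, true_and, card_erase_of_mem hx]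
        omega
    have h2 := (card_le_card h).trans (card_union_le _ _)
    have h3 := card_image₂_le insert (univ : Finset ι) Sm
    rw [card_univ] at h3
    rw [pow_succ]
    nlinarith

section LD
variable {A K : Type} [DecidableEq A]

open Classical in
/-- the indices not compromised by `H` -/
noncomputable def good (F : Finset A) (N : A → Finset ι) (Cs : A → Finset K)
    (cell : A → K → Finset ι) (η : ℝ) (H : Finset ι) : Finset A :=
  F.filter fun a => Disjoint (N a) H ∧ ∑ c ∈ Cs a, wt (cell a c \ (H ∪ N a)) ≤ η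

omit [Fintype ι] [DecidableEq A] in
lemma mem_good {F : Finset A} {N : A → Finset ι} {Cs : A → Finset K}
    {cell : A → K → Finset ι} {η : ℝ} {H : Finset ι} {a : A} :
    a ∈ good F N Cs cell η H ↔
      a ∈ F ∧ Disjoint (N a) H ∧ ∑ c ∈ Cs a, wt (cell a c \ (H ∪ N a)) ≤ η := by
  simp [good]

omit [Fintype ι] [DecidableEq A] in
lemma good_anti {F : Finset A} {N : A → Finset ι} {Cs : A → Finset K}
    {cell : A → K → Finset ι} {η : ℝ} {H H' : Finset ι} (h : H ⊆ H') :
    good F N Cs cell η H' ⊆ good F N Cs cell η H := by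
  intro a ha
  rw [mem_good] at ha ⊢
  refine ⟨ha.1, ha.2.1.mono_right h, le_trans (sum_le_sum fun c _ => wt_anti ?_) ha.2.2⟩
  exact card_le_card (sdiff_subset_sdiff subset_rfl (union_subset_union h subset_rfl))

open Classical in
/-- every occurring index has an occurring cell -/
noncomputable def bad (F : Finset A) (N : A → Finset ι) (Cs : A → Finset K)
    (cell : A → K → Finset ι) : Finset (Finset ι) :=
  univ.filter fun G => ∀ a ∈ F, N a ⊆ G → ∃ c ∈ Cs a, cell a c ⊆ G

omit [DecidableEq A] in
lemma mem_bad {F : Finset A} {N : A → Finset ι} {Cs : A → Finset K}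
    {cell : A → K → Finset ι} {G : Finset ι} :
    G ∈ bad F N Cs cell ↔ ∀ a ∈ F, N a ⊆ G → ∃ c ∈ Cs a, cell a c ⊆ G := by simp [bad]

theorem ld [Nonempty ι] (F : Finset A) (N : A → Finset ι) (Cs : A → Finset K) (cell : A → K → Finset ι)
    (a0 h L j : ℕ) (μ μ1 η : ℝ) (hη : 0 ≤ η)
    (hN : ∀ a ∈ F, (N a).Nonempty ∧ (N a).card ≤ a0)
    (hC : ∀ a ∈ F, ∀ c ∈ Cs a, (cell a c).card ≤ a0)
    (hμ : ∑ a ∈ F, wt (N a) ≤ μ)
    (h1 : ∀ H : Finset ι, H.card ≤ h + L → μ1 ≤ ∑ a ∈ good F N Cs cell η H, wt (N a))
    (hΔ : Del F N ≤ μ1 / 2) (hj : 2 * a0 * j ≤ h) (hL : 0 < L) :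
    ((bad F N Cs cell).card : ℝ) ≤ 2 ^ Fintype.card ι *
      ((Fintype.card ι + 1) ^ (h + L) * Real.exp (-(μ1 / 2)) + (μ * η / L) ^ j) := by
  classical
  set n := Fintype.card ι
  set Sm := (univ : Finset (Finset ι)).filter fun H => H.card ≤ h + L
  set E := Sm.biUnion fun H => none' (good F N Cs cell η H) N
  have hμ0 : 0 ≤ μ := le_trans (sum_nonneg fun a _ => (wt_pos _).le) hμ
  have hE : (E.card : ℝ) ≤ 2 ^ n * ((n + 1) ^ (h + L) * Real.exp (-(μ1 / 2))) := by
    have a1 : (E.card : ℝ) ≤ ∑ H ∈ Sm, ((none' (good F N Cs cell η H) N).card : ℝ) := by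
      exact_mod_cast card_biUnion_le
    have a2 : ∑ H ∈ Sm, ((none' (good F N Cs cell η H) N).card : ℝ)
        ≤ ∑ H ∈ Sm, 2 ^ n * Real.exp (-(μ1 / 2)) := by
      refine sum_le_sum fun H hH => (janson _ N).trans ?_
      refine mul_le_mul_of_nonneg_left (Real.exp_le_exp.mpr ?_) (by positivity)
      have b1 := h1 H (mem_filter.mp hH).2
      have b2 : Del (good F N Cs cell η H) N ≤ Del F N :=
        Del_mono (fun a ha => (mem_good.mp ha).1) N
      linarith
    rw [sum_const, nsmul_eq_mul] at a2
    have a3 : (Sm.card : ℝ) ≤ (n + 1) ^ (h + L) := by exact_mod_cast card_small (ι := ι) (h + L)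
    calc (E.card : ℝ) ≤ Sm.card * (2 ^ n * Real.exp (-(μ1 / 2))) := a1.trans a2
      _ ≤ (n + 1) ^ (h + L) * (2 ^ n * Real.exp (-(μ1 / 2))) :=
          mul_le_mul_of_nonneg_right a3 (by positivity)
      _ = _ := by ring
  set B := bad F N Cs cell \ E
  -- many occurring good indices
  have many : ∀ G ∈ B, ∀ H : Finset ι, H.card ≤ h →
      L ≤ ((good F N Cs cell η H).filter fun a => N a ⊆ G).card := by
    intro G hG H hH
    by_contra hlt
    push Not at hlt
    set O := (good F N Cs cell η H).filter fun a => N a ⊆ G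
    have hne : ∀ a ∈ O, ∃ x, x ∈ N a := fun a ha =>
      (hN a (mem_good.mp (mem_filter.mp ha).1).1).1
    choose! pt hpt using hne
    have hc : (H ∪ O.image pt).card ≤ h + L :=
      (card_union_le _ _).trans (add_le_add hH (card_image_le.trans hlt.le))
    have hG2 := (mem_sdiff.mp hG).2
    simp only [E, mem_biUnion, not_exists, not_and] at hG2
    have := hG2 (H ∪ O.image pt) (mem_filter.mpr ⟨mem_univ _, hc⟩)
    rw [mem_none'] at this
    push Not at this
    obtain ⟨a, ha, haG⟩ := this
    have haO : a ∈ O := mem_filter.mpr ⟨good_anti subset_union_left ha, haG⟩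
    exact disjoint_left.mp (mem_good.mp ha).2.1 (hpt a haO)
      (mem_union_right _ (mem_image_of_mem _ haO))
  have key : ∀ i : ℕ, ∀ H : Finset ι, H.card + 2 * a0 * i ≤ h →
      ((B ∩ up H).card : ℝ) ≤ 2 ^ n * wt H * (μ * η / L) ^ i := by
    intro i
    induction i with
    | zero =>
      intro H _
      rw [pow_zero, mul_one, ← card_up]
      exact_mod_cast card_le_card inter_subset_right
    | succ i ih =>
      intro H hH
      have hH' : H.card ≤ h := by omega
      set Gd := good F N Cs cell η H
      have a1 : (L : ℝ) * (B ∩ up H).card ≤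
          ∑ a ∈ Gd, ∑ c ∈ Cs a, ((B ∩ up (H ∪ N a ∪ cell a c)).card : ℝ) := by
        have b1 : ∀ a ∈ Gd, (((B ∩ up H).filter fun G => N a ⊆ G).card : ℝ)
            ≤ ∑ c ∈ Cs a, ((B ∩ up (H ∪ N a ∪ cell a c)).card : ℝ) := by
          intro a ha
          have : (B ∩ up H).filter (fun G => N a ⊆ G)
              ⊆ (Cs a).biUnion fun c => B ∩ up (H ∪ N a ∪ cell a c) := by
            intro G hG
            simp only [mem_filter, mem_inter, mem_up, mem_biUnion] at hG ⊢
            obtain ⟨c, hc, hc'⟩ := mem_bad.mp (mem_sdiff.mp hG.1.1).1 a (mem_good.mp ha).1 hG.2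
            exact ⟨c, hc, hG.1.1, union_subset (union_subset hG.1.2 hG.2) hc'⟩
          exact_mod_cast (card_le_card this).trans card_biUnion_le
        refine le_trans ?_ (sum_le_sum b1)
        have b2 : ∑ a ∈ Gd, ((B ∩ up H).filter fun G => N a ⊆ G).card
            = ∑ G ∈ B ∩ up H, (Gd.filter fun a => N a ⊆ G).card := by
          simp only [card_filter]
          exact sum_comm
        have b3 : L * (B ∩ up H).card ≤ ∑ G ∈ B ∩ up H, (Gd.filter fun a => N a ⊆ G).card := by
          rw [mul_comm, ← smul_eq_mul]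
          exact card_nsmul_le_sum _ _ _ fun G hG => many G (mem_inter.mp hG).1 H hH'
        rw [← b2] at b3
        exact_mod_cast b3
      have a2 : ∑ a ∈ Gd, ∑ c ∈ Cs a, ((B ∩ up (H ∪ N a ∪ cell a c)).card : ℝ)
          ≤ ∑ a ∈ Gd, 2 ^ n * wt H * (μ * η / L) ^ i * η * wt (N a) := by
        refine sum_le_sum fun a ha => ?_
        obtain ⟨haF, hd, hs⟩ := mem_good.mp ha
        have b1 : ∀ c ∈ Cs a, ((B ∩ up (H ∪ N a ∪ cell a c)).card : ℝ)
            ≤ 2 ^ n * wt H * (μ * η / L) ^ i * wt (N a) * wt (cell a c \ (H ∪ N a)) := by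
          intro c hc
          have c1 : (H ∪ N a ∪ cell a c).card
              = H.card + (N a).card + (cell a c \ (H ∪ N a)).card := by
            rw [← card_union_of_disjoint hd.symm, ← card_union_of_disjoint disjoint_sdiff,
              union_sdiff_self_eq_union]
          have c2 : (cell a c \ (H ∪ N a)).card ≤ a0 :=
            (card_le_card sdiff_subset).trans (hC a haF c hc)
          have c3 := (hN a haF).2
          refine (ih _ (by rw [c1]; nlinarith)).trans (le_of_eq ?_)
          unfold wt
          rw [c1, pow_add, pow_add]; ring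
        refine (sum_le_sum b1).trans ?_
        rw [← mul_sum]
        have : 0 ≤ 2 ^ n * wt H * (μ * η / L) ^ i * wt (N a) := by
          have := wt_pos H; have := wt_pos (N a); positivity
        calc _ ≤ 2 ^ n * wt H * (μ * η / L) ^ i * wt (N a) * η :=
              mul_le_mul_of_nonneg_left hs this
          _ = _ := by ring
      rw [← mul_sum] at a2
      have a3 : ∑ a ∈ Gd, wt (N a) ≤ μ :=
        (sum_le_sum_of_subset_of_nonneg (filter_subset _ F) fun a _ _ => (wt_pos _).le).trans hμ
      have a4 : 0 ≤ 2 ^ n * wt H * (μ * η / L) ^ i * η := by have := wt_pos H; positivity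
      have hL' : (0 : ℝ) < L := by exact_mod_cast hL
      have a5 := a1.trans (a2.trans (mul_le_mul_of_nonneg_left a3 a4))
      refine le_of_mul_le_mul_left (a5.trans (le_of_eq ?_)) hL'
      rw [pow_succ]; field_simp
  have hB := key j ∅ (by simpa using hj)
  have e1 : B ∩ up ∅ = B := by
    refine inter_eq_left.mpr fun G _ => mem_up.mpr (empty_subset _)
  have e2 : wt (∅ : Finset ι) = 1 := by simp [wt]
  rw [e1, e2, mul_one] at hB
  have h2 : (bad F N Cs cell).card ≤ B.card + E.card := card_le_card_sdiff_add_card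
  have h3 : ((bad F N Cs cell).card : ℝ) ≤ B.card + E.card := by exact_mod_cast h2
  rw [mul_add]
  linarith

end LD

end Pool.Agent.MP_01c7b3_an.SE
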