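import Mathlib
import Pool.Agent.MP_01c7b3_an.Upper
import Pool.Agent.MP_01c7b3_an.SE.LD

namespace Pool.Agent.MP_01c7b3_an.SE
open Finset

/-- the denominator positions congruent to `r` modulo `m` -/
def cl (k m : ℕ) (r : ℤ) : Finset (Bool × Fin (k + 1)) := NN k ∅ (col k m r)

lemma mem_cl {k m : ℕ} {r : ℤ} {x : Bool × Fin (k + 1)} :
    x ∈ cl k m r ↔ x.1 = true ∧ 1 ≤ (x.2 : ℕ) ∧ (m : ℤ) ∣ ((x.2 : ℕ) : ℤ) - r := by
  obtain ⟨b, i⟩ := x
  have := i.2
  cases b
  · simp [cl, mem_NN_false]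
  · simp only [cl, mem_NN_true, mem_col, mem_Icc, true_and]
    constructor
    · rintro ⟨⟨h1, -⟩, h2⟩; exact ⟨h1, h2⟩
    · rintro ⟨h1, h2⟩; exact ⟨⟨h1, by omega⟩, h2⟩

lemma le_card_cl {k J m : ℕ} (hm : 1 ≤ m) (hW : Win k J m) (r : ℤ) : J ≤ (cl k m r).card :=
  (le_card_col hm hW.1 r).trans (le_card_NN k _ (col_sub k m r))

lemma card_cl_le {k J m : ℕ} (hm : 1 ≤ m) (hW : Win k J m) (r : ℤ) :
    (cl k m r).card ≤ J + 1 := by
  have := card_NN_le k ∅ (col k m r)
  have h2 := card_col_le hm hW.2 r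
  simp only [card_empty, zero_add] at this
  exact this.trans h2

lemma cl_disj {k m : ℕ} {r r' : ℤ} (h : ¬ (m : ℤ) ∣ r - r') : Disjoint (cl k m r) (cl k m r') := by
  rw [disjoint_left]
  intro x hx hx'
  apply h
  have := dvd_sub (mem_cl.mp hx').2.2 (mem_cl.mp hx).2.2
  simpa using this

lemma cl_congr {k m : ℕ} {r r' : ℤ} (h : (m : ℤ) ∣ r - r') : cl k m r = cl k m r' := by
  ext x
  simp only [mem_cl]
  refine and_congr_right fun _ => and_congr_right fun _ => ⟨fun h1 => ?_, fun h1 => ?_⟩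
  · simpa using dvd_add h1 h
  · simpa using dvd_sub h1 h

lemma card_cl_inter {k J m m' : ℕ} (h1 : Win k J m) (h2 : Win k J m') (hne : m ≠ m')
    (r r' : ℤ) : (cl k m r ∩ cl k m' r').card ≤ 1 := by
  unfold cl
  rw [NN_inter]
  have := card_NN_le k (∅ ∩ ∅) (col k m r ∩ col k m' r')
  simp only [inter_self, card_empty, zero_add] at this ⊢
  exact this.trans (card_col_inter h1 h2 hne r r')

/-- incongruent columns outside `Z` -/
lemma low {k J m : ℕ} (hm : 1 ≤ m) (hW : Win k J m) {Y : Type} [DecidableEq Y] (Y' : Finset Y)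
    (r : Y → ℤ) (hinc : ∀ y ∈ Y', ∀ y' ∈ Y', y ≠ y' → ¬ (m : ℤ) ∣ r y - r y')
    (W Z : Finset (Bool × Fin (k + 1))) (hd : ∀ y ∈ Y', Disjoint (cl k m (r y)) Z)
    (hs : ∀ y ∈ Y', cl k m (r y) ⊆ W) : J * Y'.card ≤ (W \ Z).card := by
  have h1 : (Y'.biUnion fun y => cl k m (r y)) ⊆ W \ Z := by
    intro x hx
    obtain ⟨y, hy, hx⟩ := mem_biUnion.mp hx
    exact mem_sdiff.mpr ⟨hs y hy hx, disjoint_left.mp (hd y hy) hx⟩
  refine le_trans ?_ (card_le_card h1)
  rw [card_biUnion fun y hy y' hy' hne => cl_disj (hinc y hy y' hy' hne), mul_comm, ← smul_eq_mul]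
  exact card_nsmul_le_sum _ _ _ fun y _ => le_card_cl hm hW _

/-- the column of `r` meets `H` -/
def Tch (k m : ℕ) (H : Finset (Bool × Fin (k + 1))) (r : ℤ) : Prop := ¬ Disjoint (cl k m r) H

instance (k m : ℕ) (H : Finset (Bool × Fin (k + 1))) : DecidablePred (Tch k m H) :=
  fun _ => by unfold Tch; infer_instance

lemma card_tch {k m : ℕ} (H : Finset (Bool × Fin (k + 1))) {Y : Type} [DecidableEq Y]
    (Y' : Finset Y) (r : Y → ℤ)
    (hinc : ∀ y ∈ Y', ∀ y' ∈ Y', y ≠ y' → ¬ (m : ℤ) ∣ r y - r y') :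
    (Y'.filter fun y => Tch k m H (r y)).card ≤ H.card := by
  have hne : ∀ y ∈ Y'.filter (fun y => Tch k m H (r y)), ∃ x, x ∈ cl k m (r y) ∧ x ∈ H :=
    fun y hy => not_disjoint_iff.mp (mem_filter.mp hy).2
  choose! pt hpt using hne
  refine card_le_card_of_injOn pt (fun y hy => (hpt y hy).2) fun y hy y' hy' e => ?_
  by_contra hne
  have := cl_disj (k := k) (hinc y (mem_filter.mp hy).1 y' (mem_filter.mp hy').1 hne)
  exact disjoint_left.mp this (hpt y hy).1 (e ▸ (hpt y' hy').1)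

lemma digits_zero (n : ℕ) (c : ℕ → ℤ) (hc : ∀ i, |c i| ≤ 3)
    (h : ∑ i ∈ range n, c i * 4 ^ i = 0) : ∀ i < n, c i = 0 := by
  induction n generalizing c with
  | zero => intro i hi; omega
  | succ n ih =>
    rw [sum_range_succ'] at h
    have e : ∑ i ∈ range n, c (i + 1) * 4 ^ (i + 1) = 4 * ∑ i ∈ range n, c (i + 1) * 4 ^ i := by
      rw [mul_sum]; exact sum_congr rfl fun i _ => by ring
    rw [e] at h
    have h0 := abs_le.mp (hc 0)
    have h1 : c 0 = 0 := by omega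
    have h2 : ∑ i ∈ range n, c (i + 1) * 4 ^ i = 0 := by omega
    intro i hi
    rcases i with _ | i
    · exact h1
    · exact ih (fun i => c (i + 1)) (fun i => hc _) h2 i (by omega)

/-- the base point of the `i`-th class -/
def base (w : ℕ) (i : ℕ) : ℤ := 4 * 4 ^ i * w

/-- indicator -/
def ind (i q : ℕ) : ℤ := if i = q then 1 else 0

lemma sep {t w m : ℕ} (hm : 16 * 4 ^ t * w ≤ m) {i1 i2 i3 j1 j2 j3 : ℕ} (a1 : i1 < t)
    (a2 : i2 < t) (a3 : i3 < t) (b1 : j1 < t) (b2 : j2 < t) (b3 : j3 < t) {e : ℤ}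
    (he : |e| < 4 * w)
    (h : (m : ℤ) ∣ base w i1 + base w i2 + base w i3 - base w j1 - base w j2 - base w j3 + e) :
    e = 0 ∧ ∀ q, ind i1 q + ind i2 q + ind i3 q = ind j1 q + ind j2 q + ind j3 q := by
  have hb : ∀ i < t, 0 ≤ base w i ∧ base w i ≤ 4 ^ t * w := by
    intro i hi
    have : (4 : ℤ) * 4 ^ i ≤ 4 ^ t := by
      rw [← pow_succ']; exact pow_le_pow_right₀ (by norm_num) hi
    exact ⟨by unfold base; positivity, mul_le_mul_of_nonneg_right this (by positivity)⟩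
  have hm' : (16 : ℤ) * (4 ^ t * w) ≤ m := by rw [← mul_assoc]; exact_mod_cast hm
  have he' := abs_lt.mp he
  have hw : (w : ℤ) ≤ 4 ^ t * w := le_mul_of_one_le_left (by positivity) (one_le_pow₀ (by norm_num))
  have c1 := hb _ a1; have c2 := hb _ a2; have c3 := hb _ a3
  have d1 := hb _ b1; have d2 := hb _ b2; have d3 := hb _ b3
  have h0 := Int.eq_zero_of_abs_lt_dvd h (abs_lt.mpr ⟨by linarith, by linarith⟩)
  obtain ⟨ρ, hρ⟩ : ∃ ρ : ℤ, ρ = 4 ^ i1 + 4 ^ i2 + 4 ^ i3 - 4 ^ j1 - 4 ^ j2 - 4 ^ j3 := ⟨_, rfl⟩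
  have h1 : 4 * w * ρ + e = 0 := by rw [← h0, hρ]; unfold base; ring
  have h2 : ρ = 0 := by
    by_contra hne
    rcases lt_or_gt_of_ne hne with h3 | h3 <;> nlinarith
  refine ⟨by rw [h2] at h1; linarith, fun q => ?_⟩
  by_cases hq : q < t
  · have := digits_zero t (fun q => ind i1 q + ind i2 q + ind i3 q - ind j1 q - ind j2 q
      - ind j3 q) (fun q => by unfold ind; split_ifs <;> norm_num) (by
        rw [← h2, hρ]
        simp only [ind, add_mul, sub_mul, sum_add_distrib, sum_sub_distrib, ite_mul, one_mul,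
          zero_mul, sum_ite_eq, mem_range, a1, a2, a3, b1, b2, b3, if_true]) q hq
    linarith
  · unfold ind
    rw [if_neg (by omega), if_neg (by omega), if_neg (by omega), if_neg (by omega),
      if_neg (by omega), if_neg (by omega)]

lemma sep4 {t w m : ℕ} (hm : 16 * 4 ^ t * w ≤ m) {i1 i2 j1 j2 : ℕ} (a1 : i1 < t)
    (a2 : i2 < t) (b1 : j1 < t) (b2 : j2 < t) {e : ℤ} (he : |e| < 4 * w)
    (h : (m : ℤ) ∣ base w i1 + base w i2 - base w j1 - base w j2 + e) :
    e = 0 ∧ ((i1 = j1 ∧ i2 = j2) ∨ (i1 = j2 ∧ i2 = j1)) := by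
  obtain ⟨h1, h2⟩ := sep hm a1 a2 a1 b1 b2 a1 he (by
    have e1 : base w i1 + base w i2 + base w i1 - base w j1 - base w j2 - base w i1 + e
      = base w i1 + base w i2 - base w j1 - base w j2 + e := by ring
    rwa [e1])
  refine ⟨h1, ?_⟩
  have key : ∀ {a b : ℕ}, 1 ≤ ind a b → a = b := by
    intro a b h; unfold ind at h; split_ifs at h with e
    · exact e
    · omega
  have nn : ∀ a b : ℕ, 0 ≤ ind a b := by intro a b; unfold ind; split_ifs <;> omega
  have self : ∀ a : ℕ, ind a a = 1 := by intro a; simp [ind]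
  by_cases e1 : i1 = j1
  · subst e1
    have := h2 i2
    rw [self] at this
    exact Or.inl ⟨rfl, (key (by linarith)).symm⟩
  · have q1 := h2 i1
    have z : ind j1 i1 = 0 := by unfold ind; rw [if_neg (Ne.symm e1)]
    rw [self, z] at q1
    have e2 : j2 = i1 := key (by linarith [nn i2 i1])
    subst e2
    have q2 := h2 i2
    rw [self] at q2
    exact Or.inr ⟨rfl, (key (by linarith)).symm⟩

/-- the parameter box: coordinate `0` is fixed -/
def Pi (s w : ℕ) : Finset (Fin (s + 1) → ℕ) :=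
  Fintype.piFinset fun i => if i = 0 then {0} else range w

lemma mem_Pi {s w : ℕ} {b : Fin (s + 1) → ℕ} :
    b ∈ Pi s w ↔ b 0 = 0 ∧ ∀ i, i ≠ 0 → b i < w := by
  simp only [Pi, Fintype.mem_piFinset]
  constructor
  · intro h
    refine ⟨by simpa using h 0, fun i hi => by simpa [hi] using h i⟩
  · rintro ⟨h0, h1⟩ i
    split_ifs with hi
    · simp [hi, h0]
    · simpa using h1 i hi

lemma lt_of_Pi {s w : ℕ} (hw : 1 ≤ w) {b : Fin (s + 1) → ℕ} (hb : b ∈ Pi s w) (i : Fin (s + 1)) :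
    b i < w := by
  by_cases hi : i = 0
  · rw [hi, (mem_Pi.mp hb).1]; omega
  · exact (mem_Pi.mp hb).2 i hi

lemma card_Pi (s w : ℕ) : (Pi s w).card = w ^ s := by
  simp [Pi, Fintype.card_piFinset, Fin.prod_univ_succ, Fin.succ_ne_zero]

/-- counting along one coordinate -/
lemma card_coord {s w h : ℕ} (P : (Fin (s + 1) → ℕ) → Prop) [DecidablePred P] {q : Fin (s + 1)}
    (hq : q ≠ 0)
    (hP : ∀ b ∈ Pi s w, ((range w).filter fun x => P (Function.update b q x)).card ≤ h) :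
    ((Pi s w).filter P).card * w ≤ h * w ^ s := by
  have h1 : (((Pi s w).filter P) ×ˢ range w).card
      ≤ ((Pi s w ×ˢ range w).filter fun z => P (Function.update z.1 q z.2)).card := by
    refine card_le_card_of_injOn (fun z => (Function.update z.1 q z.2, z.1 q)) ?_ ?_
    · rintro ⟨b, x⟩ hz
      simp only [coe_product, coe_filter, Set.mem_prod, Set.mem_ofPred_eq, mem_coe, mem_range,
        mem_product] at hz ⊢
      refine ⟨⟨mem_Pi.mpr ⟨?_, fun i hi => ?_⟩, (mem_Pi.mp hz.1.1).2 q hq⟩, ?_⟩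
      · rw [Function.update_of_ne hq.symm]; exact (mem_Pi.mp hz.1.1).1
      · by_cases e : i = q
        · rw [e, Function.update_self]; exact hz.2
        · rw [Function.update_of_ne e]; exact (mem_Pi.mp hz.1.1).2 i hi
      · simpa using hz.1.2
    · rintro ⟨b, x⟩ - ⟨b', x'⟩ - e
      simp only [Prod.mk.injEq] at e ⊢
      have e1 : x = x' := by simpa using congrFun e.1 q
      refine ⟨funext fun i => ?_, e1⟩
      by_cases hi : i = q
      · rw [hi]; exact e.2
      · simpa [Function.update_of_ne hi] using congrFun e.1 i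
  rw [card_product, card_range] at h1
  refine h1.trans ?_
  rw [card_filter, sum_product, ← card_Pi, mul_comm, ← smul_eq_mul]
  refine sum_le_card_nsmul _ _ _ fun b hb => ?_
  rw [← card_filter]
  exact hP b hb

end Pool.Agent.MP_01c7b3_an.SE
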