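import Mathlib
import Pool.Agent.MP_01c7b3_an.SE.Fam1

namespace Pool.Agent.MP_01c7b3_an.SE
open Finset

variable {s : ℕ}

/-- the points of the kernel -/
def aa (w : ℕ) (b : Fin (s + 1) → ℕ) (i : Fin (s + 1)) : ℤ := base w i + b i

/-- index set of the difference classes -/
def XX (s : ℕ) : Finset (Option (Fin (s + 1) × Fin (s + 1))) := insertNone (univ.offDiag)

/-- shifted difference classes -/
def cls (w : ℕ) (b : Fin (s + 1) → ℕ) (σ : ℤ) : Option (Fin (s + 1) × Fin (s + 1)) → ℤ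
  | none => -σ
  | some z => aa w b z.1 - aa w b z.2 + σ

/-- the prescribed positions -/
def NS (k w : ℕ) (α : ℕ × (Fin (s + 1) → ℕ)) : Finset (Bool × Fin (k + 1)) :=
  NN k {α.1} ∅ ∪ (XX s).biUnion fun x => cl k α.1 (cls w α.2 0 x)

/-- the kernel -/
def inS (m w : ℕ) (b : Fin (s + 1) → ℕ) (n : ℤ) : Prop := ∃ i, (m : ℤ) ∣ n - aa w b i

/-- the difference set of the kernel -/
def inN (m w : ℕ) (b : Fin (s + 1) → ℕ) (r : ℤ) : Prop :=
  ∃ j j', (m : ℤ) ∣ r - (aa w b j - aa w b j')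

open Classical in
/-- indices of cells -/
noncomputable def Cs (w : ℕ) (α : ℕ × (Fin (s + 1) → ℕ)) :
    Finset (ℕ ⊕ Option (Fin (s + 1) × Fin (s + 1))) :=
  ((range α.1).filter fun n : ℕ => ¬ inS α.1 w α.2 n).disjSum (XX s)

/-- the cells -/
def cell (k w u : ℕ) (α : ℕ × (Fin (s + 1) → ℕ)) :
    ℕ ⊕ Option (Fin (s + 1) × Fin (s + 1)) → Finset (Bool × Fin (k + 1))
  | Sum.inl n => univ.biUnion fun i => cl k α.1 (n - aa w α.2 i)
  | Sum.inr x => cl k α.1 (cls w α.2 u x)

lemma some_mem_XX {z : Fin (s + 1) × Fin (s + 1)} : some z ∈ XX s ↔ z.1 ≠ z.2 := by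
  simp [XX, mem_offDiag]

lemma none_mem_XX : none ∈ XX s := by simp [XX]

lemma card_XX : (XX s).card = (s + 1) * s + 1 := by
  rw [XX, card_insertNone, offDiag_card, card_univ, Fintype.card_fin]
  have : (s + 1) * (s + 1) = (s + 1) * s + (s + 1) := by ring
  omega

/-- admissible data -/
structure Adm (k J w m : ℕ) (b : Fin (s + 1) → ℕ) : Prop where
  hw : 1 ≤ w
  win : Win k J m
  hm : 16 * 4 ^ (s + 1) * w ≤ m
  hb : b ∈ Pi s w

lemma Adm.m16 {k J w m : ℕ} {b : Fin (s + 1) → ℕ} (h : Adm k J w m b) : 16 * w ≤ m := by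
  have := h.hm
  have h1 : 1 ≤ 4 ^ (s + 1) := Nat.one_le_pow _ _ (by norm_num)
  nlinarith

lemma Adm.m1 {k J w m : ℕ} {b : Fin (s + 1) → ℕ} (h : Adm k J w m b) : 1 ≤ m := by
  have := h.m16; have := h.hw; omega

lemma diff_cong {k J w m : ℕ} {b b' : Fin (s + 1) → ℕ} (h : Adm k J w m b) (hb' : b' ∈ Pi s w)
    {i i' j j' : Fin (s + 1)} {σ : ℤ} (hσ : |σ| ≤ w)
    (hd : (m : ℤ) ∣ aa w b' i - aa w b' i' + σ - (aa w b j - aa w b j')) :
    ((b' i : ℤ) - b' i' + σ - b j + b j' = 0) ∧ ((i = i' ∧ j' = j) ∨ (i = j ∧ j' = i')) := by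
  have l1 := lt_of_Pi h.hw hb' i; have l2 := lt_of_Pi h.hw hb' i'
  have l3 := lt_of_Pi h.hw h.hb j; have l4 := lt_of_Pi h.hw h.hb j'
  have hσ' := abs_le.mp hσ
  obtain ⟨h1, h2⟩ := sep4 (e := (b' i : ℤ) - b' i' + σ - b j + b j') h.hm i.2 j'.2 i'.2 j.2
    (abs_lt.mpr ⟨by omega, by omega⟩) (by
      have e : base w i + base w j' - base w i' - base w j + ((b' i : ℤ) - b' i' + σ - b j + b j')
        = aa w b' i - aa w b' i' + σ - (aa w b j - aa w b j') := by unfold aa; ring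
      rwa [e])
  refine ⟨h1, ?_⟩
  simpa only [Fin.ext_iff] using h2

lemma aa_inc {k J w m : ℕ} {b : Fin (s + 1) → ℕ} (h : Adm k J w m b) {i i' : Fin (s + 1)}
    (hd : (m : ℤ) ∣ aa w b i - aa w b i') : i = i' := by
  rcases (diff_cong (σ := 0) (j := i) (j' := i) h h.hb (by simp) (by simpa using hd)).2
    with h1 | h1
  · exact h1.1
  · exact h1.2

lemma cls_inc {k J w m : ℕ} {b : Fin (s + 1) → ℕ} (h : Adm k J w m b) :
    ∀ x ∈ XX s, ∀ y ∈ XX s, x ≠ y → ¬ (m : ℤ) ∣ cls w b 0 x - cls w b 0 y := by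
  intro x hx y hy hne hd
  rcases x with _ | ⟨i, i'⟩ <;> rcases y with _ | ⟨j, j'⟩
  · exact hne rfl
  · refine some_mem_XX.mp hy (aa_inc h ?_)
    simpa [cls] using hd.neg_right
  · refine some_mem_XX.mp hx (aa_inc h ?_)
    simpa [cls] using hd
  · rcases (diff_cong (σ := 0) (i := i) (i' := i') (j := j) (j' := j') h h.hb (by simp)
      (by simpa [cls] using hd)).2 with h1 | h1
    · exact some_mem_XX.mp hx h1.1
    · exact hne (by rw [h1.1, h1.2])

lemma disj_NS {k w m : ℕ} {b : Fin (s + 1) → ℕ} {r : ℤ} (h : ¬ inN m w b r) :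
    Disjoint (cl k m r) (NS k w (m, b)) := by
  rw [NS, disjoint_union_right, disjoint_biUnion_right]
  refine ⟨disjoint_left.mpr fun x hx hx' => ?_, fun x _ => cl_disj fun hd => h ?_⟩
  · obtain ⟨c, i⟩ := x
    have : c = true := (mem_cl.mp hx).1
    subst this
    simp [mem_NN_true] at hx'
  · rcases x with _ | ⟨j, j'⟩
    · exact ⟨0, 0, by simpa [cls] using hd⟩
    · exact ⟨j, j', by simpa [cls] using hd⟩

lemma cl_sub_NS {k w m : ℕ} {b : Fin (s + 1) → ℕ} {r : ℤ} (h : inN m w b r) :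
    cl k m r ⊆ NS k w (m, b) := by
  obtain ⟨j, j', hd⟩ := h
  refine subset_trans ?_ subset_union_right
  by_cases e : j = j'
  · rw [cl_congr (r' := cls w b 0 none) (by simpa [cls, e] using hd)]
    exact subset_biUnion_of_mem (fun x => cl k m (cls w b 0 x)) none_mem_XX
  · rw [cl_congr (r' := cls w b 0 (some (j, j'))) (by simpa [cls] using hd)]
    exact subset_biUnion_of_mem (fun x => cl k m (cls w b 0 x)) (some_mem_XX.mpr e)

lemma card_NS_le {k J w m : ℕ} {b : Fin (s + 1) → ℕ} (h : Adm k J w m b) :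
    (NS k w (m, b)).card ≤ 1 + (J + 1) * ((s + 1) * s + 1) := by
  refine (card_union_le _ _).trans (add_le_add ?_ ?_)
  · simpa using card_NN_le k {m} ∅
  · refine card_biUnion_le.trans ?_
    rw [← card_XX, mul_comm, ← smul_eq_mul]
    exact sum_le_card_nsmul _ _ _ fun x _ => card_cl_le h.m1 h.win _

lemma le_card_NS {k J w m : ℕ} {b : Fin (s + 1) → ℕ} (h : Adm k J w m b) :
    J * ((s + 1) * s + 1) ≤ (NS k w (m, b)).card := by
  have := low h.m1 h.win (XX s) (cls w b 0) (cls_inc h) (NS k w (m, b)) ∅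
    (fun _ _ => disjoint_empty_right _) fun x hx =>
      (subset_biUnion_of_mem (fun x => cl k m (cls w b 0 x)) hx).trans subset_union_right
  simpa [card_XX] using this

lemma card_cell_le {k J w m u : ℕ} {b : Fin (s + 1) → ℕ} (h : Adm k J w m b) (c) :
    (cell k w u (m, b) c).card ≤ 1 + (J + 1) * ((s + 1) * s + 1) := by
  rcases c with n | x
  · refine card_biUnion_le.trans ((sum_le_card_nsmul _ _ (J + 1) fun x _ =>
      card_cl_le h.m1 h.win _).trans ?_)
    simp only [card_univ, Fintype.card_fin, smul_eq_mul]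
    have : s + 1 ≤ (s + 1) * s + 1 := by nlinarith
    nlinarith
  · refine (card_cl_le h.m1 h.win _).trans ?_
    nlinarith [Nat.zero_le ((J + 1) * ((s + 1) * s))]

lemma not_inN_cls {k J w m u : ℕ} {b : Fin (s + 1) → ℕ} (h : Adm k J w m b) (hu : 1 ≤ u)
    (huw : u ≤ w) (x : Option (Fin (s + 1) × Fin (s + 1))) : ¬ inN m w b (cls w b u x) := by
  rintro ⟨j, j', hd⟩
  rcases x with _ | ⟨i, i'⟩
  · obtain ⟨h1, h2⟩ := diff_cong (σ := -(u : ℤ)) (i := 0) (i' := 0) (j := j) (j' := j') h h.hb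
      (by simpa using huw) (by simpa [cls] using hd)
    rcases h2 with ⟨-, e⟩ | ⟨e1, e2⟩
    · rw [e] at h1; omega
    · rw [← e1, e2] at h1; omega
  · obtain ⟨h1, h2⟩ := diff_cong (σ := (u : ℤ)) (i := i) (i' := i') (j := j) (j' := j') h h.hb
      (by simpa using huw) (by simpa [cls] using hd)
    rcases h2 with ⟨e1, e⟩ | ⟨e1, e2⟩
    · rw [e, e1] at h1; omega
    · rw [← e1, e2] at h1; omega

lemma exists_free {k J w m : ℕ} {b : Fin (s + 1) → ℕ} (h : Adm k J w m b) (hs : 2 ≤ s) {n : ℤ}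
    (hn : ¬ inS m w b n) : ∃ i, ¬ inN m w b (n - aa w b i) := by
  by_contra hc
  push Not at hc
  have key : ∀ x y j j' : Fin (s + 1), x ≠ y →
      (m : ℤ) ∣ n - aa w b x - (aa w b j - aa w b j') → j = y := by
    intro x y j j' hxy h1
    obtain ⟨p, p', h2⟩ := hc y
    have hp : p' ≠ y := by
      rintro rfl
      exact hn ⟨p, by simpa using h2⟩
    have l1 := lt_of_Pi h.hw h.hb y; have l2 := lt_of_Pi h.hw h.hb p
    have l3 := lt_of_Pi h.hw h.hb j'; have l4 := lt_of_Pi h.hw h.hb x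
    have l5 := lt_of_Pi h.hw h.hb j; have l6 := lt_of_Pi h.hw h.hb p'
    have h3 := (sep (e := (b y : ℤ) + b p + b j' - b x - b j - b p') h.hm y.2 p.2 j'.2 x.2 j.2 p'.2
      (abs_lt.mpr ⟨by omega, by omega⟩) (by
        have := dvd_sub h1 h2
        have e : base w y + base w p + base w j' - base w x - base w j - base w p'
            + ((b y : ℤ) + b p + b j' - b x - b j - b p')
          = n - aa w b x - (aa w b j - aa w b j') - (n - aa w b y - (aa w b p - aa w b p')) := by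
          unfold aa; ring
        rwa [e])).2 y
    unfold ind at h3
    rw [if_pos rfl, if_neg (fun e => hxy (Fin.ext e)), if_neg (fun e => hp (Fin.ext e))] at h3
    apply Fin.ext
    split_ifs at h3 <;> omega
  obtain ⟨j, j', h0⟩ := hc 0
  have e1 := key 0 ⟨1, by omega⟩ j j' (by simp [Fin.ext_iff]) h0
  have e2 := key 0 ⟨2, by omega⟩ j j' (by simp [Fin.ext_iff]) h0
  rw [e1] at e2
  simp [Fin.ext_iff] at e2

/-- four-term forms -/
def form4 (w : ℕ) (b : Fin (s + 1) → ℕ)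
    (τ : Fin (s + 1) × Fin (s + 1) × Fin (s + 1) × Fin (s + 1)) (σ : ℤ) : ℤ :=
  aa w b τ.1 - aa w b τ.2.1 + aa w b τ.2.2.1 - aa w b τ.2.2.2 + σ

/-- the form does not vanish identically -/
def nontriv (τ : Fin (s + 1) × Fin (s + 1) × Fin (s + 1) × Fin (s + 1)) : Prop :=
  ¬ ((τ.1 = τ.2.1 ∧ τ.2.2.1 = τ.2.2.2) ∨ (τ.1 = τ.2.2.2 ∧ τ.2.2.1 = τ.2.1))

/-- coefficient of a coordinate -/
def coef (τ : Fin (s + 1) × Fin (s + 1) × Fin (s + 1) × Fin (s + 1)) (q : Fin (s + 1)) : ℤ :=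
  (if τ.1 = q then 1 else 0) - (if τ.2.1 = q then 1 else 0) + (if τ.2.2.1 = q then 1 else 0)
    - (if τ.2.2.2 = q then 1 else 0)

lemma exists_coef {τ : Fin (s + 1) × Fin (s + 1) × Fin (s + 1) × Fin (s + 1)} (h : nontriv τ) :
    ∃ q, q ≠ 0 ∧ coef τ q ≠ 0 := by
  obtain ⟨j, j', i', i⟩ := τ
  by_contra hc
  push Not at hc
  apply h
  have h1 := hc j; have h2 := hc j'; have h3 := hc i'; have h4 := hc i
  simp only [coef] at h1 h2 h3 h4 ⊢
  grind

lemma form4_update (w : ℕ) (b : Fin (s + 1) → ℕ) (τ) (σ : ℤ) (q : Fin (s + 1)) (x y : ℕ) :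
    form4 w (Function.update b q x) τ σ - form4 w (Function.update b q y) τ σ
      = coef τ q * ((x : ℤ) - y) := by
  simp only [form4, aa, coef, Function.update_apply]
  split_ifs <;> ring

open Classical in
/-- parameters for which some form meets `H` -/
noncomputable def bad1 (s k m w u : ℕ) (H : Finset (Bool × Fin (k + 1))) :
    Finset (Fin (s + 1) → ℕ) :=
  (Pi s w).filter fun b => ∃ τ, nontriv τ ∧
    (Tch k m H (form4 w b τ 0) ∨ Tch k m H (form4 w b τ u))

lemma card_bad1 {k m w u : ℕ} (hm : 2 * w ≤ m) (H : Finset (Bool × Fin (k + 1))) :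
    (bad1 s k m w u H).card * w ≤ 2 * (s + 1) ^ 4 * H.card * w ^ s := by
  classical
  have one : ∀ τ, nontriv τ → ∀ σ : ℤ,
      ((Pi s w).filter fun b => Tch k m H (form4 w b τ σ)).card * w ≤ H.card * w ^ s := by
    intro τ hτ σ
    obtain ⟨q, hq, hc⟩ := exists_coef hτ
    refine card_coord _ hq fun b _ => card_tch H (range w)
      (fun x => form4 w (Function.update b q x) τ σ) fun x hx y hy hne hd => ?_
    rw [form4_update] at hd
    have hx' := mem_range.mp hx; have hy' := mem_range.mp hy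
    have hc2 : |coef τ q| ≤ 2 := by unfold coef; split_ifs <;> norm_num
    have hlt : |coef τ q * ((x : ℤ) - y)| < m := by
      rw [abs_mul]
      have a1 : |(x : ℤ) - y| < w := abs_lt.mpr ⟨by omega, by omega⟩
      have a2 : (2 : ℤ) * w ≤ m := by exact_mod_cast hm
      nlinarith [abs_nonneg (coef τ q), abs_nonneg ((x : ℤ) - y)]
    rcases mul_eq_zero.mp (Int.eq_zero_of_abs_lt_dvd hd hlt) with h0 | h0
    · exact hc h0
    · exact hne (by omega)
  set T := (univ : Finset (Fin (s + 1) × Fin (s + 1) × Fin (s + 1) × Fin (s + 1))).filter nontriv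
  have h1 : bad1 s k m w u H ⊆ T.biUnion fun τ =>
      ((Pi s w).filter fun b => Tch k m H (form4 w b τ 0)) ∪
        ((Pi s w).filter fun b => Tch k m H (form4 w b τ u)) := by
    intro b hb
    obtain ⟨hb1, τ, hτ, h⟩ := mem_filter.mp hb
    refine mem_biUnion.mpr ⟨τ, mem_filter.mpr ⟨mem_univ _, hτ⟩, ?_⟩
    rcases h with h | h
    · exact mem_union_left _ (mem_filter.mpr ⟨hb1, h⟩)
    · exact mem_union_right _ (mem_filter.mpr ⟨hb1, h⟩)
  have h2 := Nat.mul_le_mul_right w ((card_le_card h1).trans card_biUnion_le)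
  refine h2.trans ?_
  rw [sum_mul]
  refine (sum_le_card_nsmul _ _ (2 * (H.card * w ^ s)) fun τ hτ => ?_).trans ?_
  · have := one τ (mem_filter.mp hτ).2 0
    have := one τ (mem_filter.mp hτ).2 u
    have := Nat.mul_le_mul_right w (card_union_le
      ((Pi s w).filter fun b => Tch k m H (form4 w b τ 0))
      ((Pi s w).filter fun b => Tch k m H (form4 w b τ u)))
    nlinarith
  · have : T.card ≤ (s + 1) ^ 4 := by
      refine (card_le_univ _).trans (le_of_eq ?_)
      simp only [Fintype.card_prod, Fintype.card_fin]; ring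
    rw [smul_eq_mul]
    calc T.card * (2 * (H.card * w ^ s)) ≤ (s + 1) ^ 4 * (2 * (H.card * w ^ s)) :=
          Nat.mul_le_mul_right _ this
      _ = _ := by ring

/-- moduli for which a fixed class meets `H` -/
def badM (k u : ℕ) (Ms : Finset ℕ) (H : Finset (Bool × Fin (k + 1))) : Finset ℕ :=
  Ms.filter fun m => ¬ Disjoint (NN k {m} ∅) H ∨ Tch k m H 0 ∨ Tch k m H (-(u : ℤ))

lemma card_badM {k J u : ℕ} {Ms : Finset ℕ} (hM : ∀ m ∈ Ms, Win k J m) (hu : u ≤ k)
    (H : Finset (Bool × Fin (k + 1))) : (badM k u Ms H).card ≤ H.card * (4 * J + 5) := by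
  have one : ∀ σ : ℕ, σ ≤ k →
      (Ms.filter fun m => Tch k m H (-(σ : ℤ))).card ≤ H.card * (2 * J + 2) := by
    intro σ hσ
    have h1 : (Ms.filter fun m => Tch k m H (-(σ : ℤ))) ⊆ H.biUnion fun x =>
        Ms.filter fun m => 1 ≤ (x.2 : ℕ) ∧ m ∣ (x.2 : ℕ) + σ := by
      intro m hm
      obtain ⟨hm1, hm2⟩ := mem_filter.mp hm
      obtain ⟨x, hx, hx'⟩ := not_disjoint_iff.mp hm2
      refine mem_biUnion.mpr ⟨x, hx', mem_filter.mpr ⟨hm1, (mem_cl.mp hx).2.1, ?_⟩⟩
      have := (mem_cl.mp hx).2.2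
      rw [sub_neg_eq_add] at this
      exact_mod_cast this
    refine (card_le_card h1).trans (card_biUnion_le.trans ?_)
    rw [← smul_eq_mul]
    refine sum_le_card_nsmul _ _ _ fun x _ => ?_
    have hx := x.2.2
    rw [← card_range (2 * J + 2)]
    refine card_le_card_of_injOn (fun m => ((x.2 : ℕ) + σ) / m) ?_ ?_
    · intro m hm
      obtain ⟨hm1, h1, -⟩ := mem_filter.mp hm
      have := (hM m hm1).2
      have hm0 : 0 < m := by
        rcases Nat.eq_zero_or_pos m with rfl | h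
        · omega
        · exact h
      simp only [coe_range, Set.mem_Iio]
      rw [Nat.div_lt_iff_lt_mul hm0]
      nlinarith
    · intro m hm m' hm' e
      obtain ⟨-, h1, c, hc⟩ := mem_filter.mp hm
      obtain ⟨-, -, c', hc'⟩ := mem_filter.mp hm'
      have hm0 : 0 < m := by
        rcases Nat.eq_zero_or_pos m with rfl | h
        · omega
        · exact h
      have hm0' : 0 < m' := by
        rcases Nat.eq_zero_or_pos m' with rfl | h
        · omega
        · exact h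
      have e1 : ((x.2 : ℕ) + σ) / m = c := by rw [hc, Nat.mul_div_cancel_left _ hm0]
      have e2 : ((x.2 : ℕ) + σ) / m' = c' := by rw [hc', Nat.mul_div_cancel_left _ hm0']
      have e3 : c = c' := by rw [← e1, ← e2]; exact e
      subst e3
      have hc0 : 0 < c := by
        rcases Nat.eq_zero_or_pos c with rfl | h
        · omega
        · exact h
      exact Nat.eq_of_mul_eq_mul_right hc0 (hc.symm.trans hc')
  have two : (Ms.filter fun m => ¬ Disjoint (NN k {m} ∅) H).card ≤ H.card := by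
    have hne : ∀ m ∈ Ms.filter (fun m => ¬ Disjoint (NN k {m} ∅) H),
        ∃ x, x ∈ NN k {m} ∅ ∧ x ∈ H := fun m hm => not_disjoint_iff.mp (mem_filter.mp hm).2
    choose! pt hpt using hne
    have val : ∀ (x : Bool × Fin (k + 1)) (m : ℕ), x ∈ NN k {m} ∅ → (x.2 : ℕ) = m := by
      rintro ⟨c, i⟩ m h
      cases c
      · simpa [mem_NN_false] using h
      · simp [mem_NN_true] at h
    refine card_le_card_of_injOn pt (fun y hy => (hpt y hy).2) fun y hy y' hy' e => ?_
    rw [← val _ _ (hpt y hy).1, ← val _ _ (hpt y' hy').1, e]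
  have h0 := one 0 (by omega)
  have h1 := one u hu
  simp only [Nat.cast_zero, neg_zero] at h0
  rw [badM, filter_or, filter_or]
  have a1 := card_union_le (Ms.filter fun m => ¬ Disjoint (NN k {m} ∅) H)
    ((Ms.filter fun m => Tch k m H 0) ∪ Ms.filter fun m => Tch k m H (-(u : ℤ)))
  have a2 := card_union_le (Ms.filter fun m => Tch k m H 0)
    (Ms.filter fun m => Tch k m H (-(u : ℤ)))
  nlinarith

lemma not_tch_cls {k m w u : ℕ} {Ms : Finset ℕ} {H : Finset (Bool × Fin (k + 1))}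
    {b : Fin (s + 1) → ℕ} (hm : m ∈ Ms) (hb : b ∈ Pi s w) (h1 : m ∉ badM k u Ms H)
    (h2 : b ∉ bad1 s k m w u H) {x} (hx : x ∈ XX s) :
    ¬ Tch k m H (cls w b 0 x) ∧ ¬ Tch k m H (cls w b u x) := by
  simp only [badM, mem_filter, hm, true_and, not_or] at h1
  rcases x with _ | ⟨i, i'⟩
  · exact ⟨by simpa [cls] using h1.2.1, by simpa [cls] using h1.2.2⟩
  · have hne : i ≠ i' := some_mem_XX.mp hx
    have hτ : nontriv (i, i', (0 : Fin (s + 1)), (0 : Fin (s + 1))) := by
      rintro (⟨e, -⟩ | ⟨e1, e2⟩)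
      · exact hne e
      · exact hne (e1.trans e2)
    simp only [bad1, mem_filter, hb, true_and, not_exists, not_and, not_or] at h2
    have := h2 _ hτ
    simpa [form4, cls] using this

lemma disj_of_good {k m w u : ℕ} {Ms : Finset ℕ} {H : Finset (Bool × Fin (k + 1))}
    {b : Fin (s + 1) → ℕ} (hm : m ∈ Ms) (hb : b ∈ Pi s w) (h1 : m ∉ badM k u Ms H)
    (h2 : b ∉ bad1 s k m w u H) : Disjoint (NS k w (m, b)) H := by
  rw [NS, disjoint_union_left, disjoint_biUnion_left]
  refine ⟨?_, fun x hx => not_not.mp (not_tch_cls hm hb h1 h2 hx).1⟩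
  simp only [badM, mem_filter, hm, true_and, not_or, not_not] at h1
  exact h1.1

end Pool.Agent.MP_01c7b3_an.SE
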