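import Mathlib
import Pool.Agent.MP_01c7b3_an.SE.Fam2

namespace Pool.Agent.MP_01c7b3_an.SE
open Finset

variable {s : ℕ}

lemma wt_le_pow {ι : Type} {X : Finset ι} {J c : ℕ} (h : J * c ≤ X.card) :
    wt X ≤ ((1 / 2 : ℝ) ^ J) ^ c := by
  rw [← pow_mul]
  exact pow_le_pow_of_le_one (by norm_num) (by norm_num) h

/-- weight of one column -/
noncomputable def phi (k m : ℕ) (H : Finset (Bool × Fin (k + 1))) (p : ℝ) (r : ℤ) : ℝ :=
  p + if Tch k m H r then 1 else 0

lemma phi_nonneg {k m : ℕ} {H : Finset (Bool × Fin (k + 1))} {p : ℝ} (hp : 0 ≤ p) (r : ℤ) :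
    0 ≤ phi k m H p r := by unfold phi; split_ifs <;> linarith

/-- total weight of the generic cells -/
noncomputable def gen' (k m w : ℕ) (H : Finset (Bool × Fin (k + 1))) (p : ℝ)
    (b : Fin (s + 1) → ℕ) : ℝ :=
  ∑ n ∈ range m, ∏ i, phi k m H p ((n : ℤ) - aa w b i)

lemma sum_phi {k m c : ℕ} (hc : c ≤ m) (H : Finset (Bool × Fin (k + 1))) (p : ℝ) (r : ℕ → ℤ)
    (hr : ∀ x y, r x - r y = x - y ∨ r x - r y = y - x) :
    ∑ x ∈ range c, phi k m H p (r x) ≤ c * p + H.card := by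
  unfold phi
  rw [sum_add_distrib, sum_const, card_range, nsmul_eq_mul, sum_boole]
  have := card_tch (m := m) H (range c) r fun x hx y hy hne hd => by
    have hx' := mem_range.mp hx; have hy' := mem_range.mp hy
    rcases hr x y with e | e <;> rw [e] at hd <;>
      have := Int.eq_zero_of_abs_lt_dvd hd (abs_lt.mpr ⟨by omega, by omega⟩) <;> omega
  have h2 : (((range c).filter fun y => Tch k m H (r y)).card : ℝ) ≤ H.card := by
    exact_mod_cast this
  linarith

lemma sum_gen {k m w : ℕ} (hw : w ≤ m) (H : Finset (Bool × Fin (k + 1))) {p : ℝ} (hp : 0 ≤ p) :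
    ∑ b ∈ Pi s w, gen' k m w H p b ≤ (m * p + H.card) * (w * p + H.card) ^ s := by
  unfold gen'
  rw [sum_comm]
  have h1 : ∀ n ∈ range m, ∑ b ∈ Pi s w, ∏ i, phi k m H p ((n : ℤ) - aa w b i)
      ≤ phi k m H p ((n : ℤ) - base w 0) * (w * p + H.card) ^ s := by
    intro n _
    have e := Finset.prod_univ_sum (fun i : Fin (s + 1) => if i = 0 then ({0} : Finset ℕ)
      else range w) (fun i x => phi k m H p ((n : ℤ) - (base w i + x)))
    unfold Pi aa
    rw [← e, Fin.prod_univ_succ]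
    simp only [if_true, sum_singleton, Fin.succ_ne_zero, if_false, Fin.val_zero, Nat.cast_zero,
      add_zero]
    refine mul_le_mul_of_nonneg_left ?_ (phi_nonneg hp _)
    refine (prod_le_prod (fun i _ => sum_nonneg fun x _ => phi_nonneg hp _)
      fun i _ => sum_phi hw H p _ fun x y => Or.inr (by ring)).trans (le_of_eq ?_)
    simp
  refine (sum_le_sum h1).trans ?_
  rw [← sum_mul]
  exact mul_le_mul_of_nonneg_right (sum_phi le_rfl H p _ fun x y => Or.inl (by ring))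
    (by positivity)

lemma cell_weight {k J m w u : ℕ} {Ms : Finset ℕ} {H : Finset (Bool × Fin (k + 1))}
    {b : Fin (s + 1) → ℕ} (h : Adm k J w m b) (hs : 2 ≤ s) (hu : 1 ≤ u) (huw : u ≤ w)
    (hm : m ∈ Ms) (h1 : m ∉ badM k u Ms H) (h2 : b ∉ bad1 s k m w u H) :
    ∑ c ∈ Cs w (m, b), wt (cell k w u (m, b) c \ (H ∪ NS k w (m, b)))
      ≤ gen' k m w H ((1 / 2) ^ J) b + 2 * (s + 1) ^ 3 * (1 / 2) ^ J := by
  classical
  set p : ℝ := (1 / 2) ^ J with hp
  have p0 : 0 ≤ p := by positivity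
  rw [Cs, sum_disjSum]
  have single : ∀ (W : Finset (Bool × Fin (k + 1))) (r : ℤ), ¬ Tch k m H r → ¬ inN m w b r →
      cl k m r ⊆ W → wt (W \ (H ∪ NS k w (m, b))) ≤ p := by
    intro W r a1 a2 a3
    have := low h.m1 h.win ({()} : Finset Unit) (fun _ => r) (fun _ _ _ _ hne => absurd rfl hne)
      W (H ∪ NS k w (m, b)) (fun _ _ => disjoint_union_right.mpr ⟨not_not.mp a1, disj_NS a2⟩)
      fun _ _ => a3
    simpa [hp] using wt_le_pow this
  have A2 : ∑ x ∈ XX s, wt (cell k w u (m, b) (Sum.inr x) \ (H ∪ NS k w (m, b)))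
      ≤ (s + 1) ^ 3 * p := by
    refine (sum_le_card_nsmul _ _ p fun x hx => single _ _ (not_tch_cls hm h.hb h1 h2 hx).2
      (not_inN_cls h hu huw x) subset_rfl).trans ?_
    rw [nsmul_eq_mul, card_XX]
    refine mul_le_mul_of_nonneg_right ?_ p0
    have : (s + 1) * s + 1 ≤ (s + 1) ^ 3 := by nlinarith [Nat.zero_le (s ^ 3), Nat.zero_le (s ^ 2)]
    exact_mod_cast this
  set Sp := (range m).filter fun n : ℕ => ∃ i, inN m w b ((n : ℤ) - aa w b i)
  have hSp : Sp.card ≤ (s + 1) ^ 3 := by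
    have hex : ∀ n ∈ Sp, ∃ z : Fin (s + 1) × Fin (s + 1) × Fin (s + 1),
        (m : ℤ) ∣ (n : ℤ) - aa w b z.1 - (aa w b z.2.1 - aa w b z.2.2) := by
      intro n hn
      obtain ⟨i, j, j', hd⟩ := (mem_filter.mp hn).2
      exact ⟨(i, j, j'), hd⟩
    choose! z hz using hex
    have := card_le_card_of_injOn (s := Sp) (t := univ) z (fun _ _ => mem_univ _)
      fun n hn n' hn' e => by
        have a1 := hz n hn
        have a2 := hz n' hn'
        rw [← e] at a2
        have a3 : (m : ℤ) ∣ (n : ℤ) - n' := by simpa using dvd_sub a1 a2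
        have b1 := mem_range.mp (mem_filter.mp hn).1
        have b2 := mem_range.mp (mem_filter.mp hn').1
        have := Int.eq_zero_of_abs_lt_dvd a3 (abs_lt.mpr ⟨by omega, by omega⟩)
        omega
    refine this.trans (le_of_eq ?_)
    simp only [card_univ, Fintype.card_prod, Fintype.card_fin]; ring
  have A1 : ∀ n ∈ (range m).filter (fun n : ℕ => ¬ inS m w b n),
      wt (cell k w u (m, b) (Sum.inl n) \ (H ∪ NS k w (m, b)))
        ≤ ∏ i, phi k m H p ((n : ℤ) - aa w b i) + if n ∈ Sp then p else 0 := by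
    intro n hn
    obtain ⟨hn1, hn2⟩ := mem_filter.mp hn
    have pos : 0 ≤ ∏ i, phi k m H p ((n : ℤ) - aa w b i) :=
      prod_nonneg fun i _ => phi_nonneg p0 _
    split_ifs with hsp
    · obtain ⟨i0, j, j', hd⟩ := (mem_filter.mp hsp).2
      obtain ⟨i, hi⟩ := exists_free h hs hn2
      have hc : (m : ℤ) ∣ (n : ℤ) - aa w b i - form4 w b (j, j', i0, i) 0 := by
        have e : (n : ℤ) - aa w b i - form4 w b (j, j', i0, i) 0
          = (n : ℤ) - aa w b i0 - (aa w b j - aa w b j') := by simp only [form4]; ring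
        rwa [e]
      have hτ : nontriv (j, j', i0, i) := by
        rintro (⟨e1, e2⟩ | ⟨e1, e2⟩) <;> dsimp only at e1 e2 <;> subst e1 e2 <;>
          exact hi ⟨0, 0, by simpa [form4] using hc⟩
      have hT : ¬ Tch k m H ((n : ℤ) - aa w b i) := by
        intro hT
        apply h2
        refine mem_filter.mpr ⟨h.hb, _, hτ, Or.inl ?_⟩
        unfold Tch at hT ⊢
        rwa [← cl_congr hc]
      have := single (cell k w u (m, b) (Sum.inl n)) _ hT hi
        (subset_biUnion_of_mem (fun i => cl k m ((n : ℤ) - aa w b i)) (mem_univ i))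
      linarith
    · rw [add_zero]
      have hno : ∀ i, ¬ inN m w b ((n : ℤ) - aa w b i) := fun i hi =>
        hsp (mem_filter.mpr ⟨hn1, i, hi⟩)
      set Y := (univ : Finset (Fin (s + 1))).filter fun i => ¬ Tch k m H ((n : ℤ) - aa w b i)
      have := low h.m1 h.win Y (fun i => (n : ℤ) - aa w b i)
        (fun i _ i' _ hne hd => hne (aa_inc h (by simpa using hd.neg_right)))
        (cell k w u (m, b) (Sum.inl n)) (H ∪ NS k w (m, b))
        (fun i hi => disjoint_union_right.mpr ⟨not_not.mp (mem_filter.mp hi).2, disj_NS (hno i)⟩)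
        fun i _ => subset_biUnion_of_mem (fun i => cl k m ((n : ℤ) - aa w b i)) (mem_univ i)
      refine (wt_le_pow this).trans ?_
      rw [← hp, ← prod_const, prod_filter]
      refine prod_le_prod (fun i _ => by split_ifs <;> positivity) fun i _ => ?_
      unfold phi
      split_ifs <;> linarith
  have A3 := sum_le_sum A1
  rw [sum_add_distrib] at A3
  have A4 : ∑ n ∈ (range m).filter (fun n : ℕ => ¬ inS m w b n),
      ∏ i, phi k m H p ((n : ℤ) - aa w b i) ≤ gen' k m w H p b :=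
    sum_le_sum_of_subset_of_nonneg (filter_subset _ _) fun n _ _ =>
      prod_nonneg fun i _ => phi_nonneg p0 _
  have A5 : ∑ n ∈ (range m).filter (fun n : ℕ => ¬ inS m w b n), (if n ∈ Sp then p else 0)
      ≤ (s + 1) ^ 3 * p := by
    rw [sum_ite_mem, sum_const, nsmul_eq_mul]
    refine mul_le_mul_of_nonneg_right ?_ p0
    exact_mod_cast (card_le_card inter_subset_right).trans hSp
  linarith

/-- the standing hypotheses on the family -/
structure Par (s k J w u : ℕ) (Ms : Finset ℕ) : Prop where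
  hs : 2 ≤ s
  hJ : 1 ≤ J
  hu : 1 ≤ u
  huw : u ≤ w
  hM : ∀ m ∈ Ms, Win k J m ∧ 16 * 4 ^ (s + 1) * w ≤ m

lemma Par.adm {k J w u : ℕ} {Ms : Finset ℕ} (P : Par s k J w u Ms) {m : ℕ} (hm : m ∈ Ms)
    {b : Fin (s + 1) → ℕ} (hb : b ∈ Pi s w) : Adm k J w m b :=
  ⟨P.hu.trans P.huw, (P.hM m hm).1, (P.hM m hm).2, hb⟩

lemma Par.mk' {k J w u : ℕ} {Ms : Finset ℕ} (P : Par s k J w u Ms) {m : ℕ} (hm : m ∈ Ms) :
    16 * w ≤ m ∧ m ≤ k := by
  obtain ⟨h1, h2⟩ := P.hM m hm
  have h3 : 1 ≤ 4 ^ (s + 1) := Nat.one_le_pow _ _ (by norm_num)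
  have := h1.1; have := P.hJ
  constructor <;> nlinarith

lemma mu_le {k J w u : ℕ} {Ms : Finset ℕ} (P : Par s k J w u Ms) :
    ∑ α ∈ Ms ×ˢ Pi s w, wt (NS k w α)
      ≤ Ms.card * w ^ s * ((1 / 2 : ℝ) ^ J) ^ ((s + 1) * s + 1) := by
  refine (sum_le_card_nsmul _ _ _ fun α hα => wt_le_pow
    (le_card_NS (P.adm (mem_product.mp hα).1 (mem_product.mp hα).2))).trans (le_of_eq ?_)
  rw [card_product, card_Pi, nsmul_eq_mul]; push_cast; ring

lemma le_mu_good {k J w u : ℕ} {Ms : Finset ℕ} (P : Par s k J w u Ms)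
    (H : Finset (Bool × Fin (k + 1))) {h' : ℕ} (hH : H.card ≤ h')
    (c1 : (h' : ℝ) ≤ w * (1 / 2) ^ J) (c2 : 8 * (s + 1) ^ 4 * h' ≤ w)
    (c3 : 2 * (h' * (4 * J + 5)) ≤ Ms.card) :
    Ms.card * w ^ s * ((1 / 2 : ℝ) ^ J) ^ ((s + 1) * s + 1) / 2 ^ ((s + 1) * s + 4)
      ≤ ∑ α ∈ good (Ms ×ˢ Pi s w) (NS k w) (Cs w) (cell k w u)
        (2 ^ (s + 3) * (k * ((1 / 2 : ℝ) ^ J) ^ (s + 1)) + 2 * (s + 1) ^ 3 * (1 / 2) ^ J) H,
          wt (NS k w α) := by
  classical
  set p : ℝ := (1 / 2) ^ J with hp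
  have p0 : 0 < p := by positivity
  set η1 : ℝ := 2 ^ (s + 3) * (k * p ^ (s + 1)) with hη1
  have hw : 1 ≤ w := P.hu.trans P.huw
  let gb : ℕ → Finset (Fin (s + 1) → ℕ) := fun m =>
    (Pi s w \ bad1 s k m w u H).filter fun b => gen' k m w H p b ≤ η1
  have hgb : ∀ m ∈ Ms, (w : ℝ) ^ s / 2 ≤ (gb m).card := by
    intro m hm
    obtain ⟨m1, m2⟩ := P.mk' hm
    have a1 := card_bad1 (s := s) (k := k) (u := u) (by omega : 2 * w ≤ m) H
    have a2 : 4 * (bad1 s k m w u H).card ≤ w ^ s := by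
      have b1 : 2 * (s + 1) ^ 4 * H.card * w ^ s ≤ 2 * (s + 1) ^ 4 * h' * w ^ s :=
        Nat.mul_le_mul_right _ (Nat.mul_le_mul_left _ hH)
      have b2 : 8 * (s + 1) ^ 4 * h' * w ^ s ≤ w * w ^ s := Nat.mul_le_mul_right _ c2
      refine Nat.le_of_mul_le_mul_right (c := w) ?_ (by omega)
      nlinarith
    set B2 := (Pi s w).filter fun b => η1 < gen' k m w H p b
    have hk0 : (0 : ℝ) < k := by exact_mod_cast (by omega : 0 < k)
    have η0 : 0 < η1 := by positivity
    have a3 : (B2.card : ℝ) * η1 ≤ ∑ b ∈ Pi s w, gen' k m w H p b := by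
      rw [← nsmul_eq_mul]
      refine (card_nsmul_le_sum _ _ _ fun b hb => (mem_filter.mp hb).2.le).trans
        (sum_le_sum_of_subset_of_nonneg (filter_subset _ _) fun b _ _ => ?_)
      exact sum_nonneg fun n _ => prod_nonneg fun i _ => phi_nonneg p0.le _
    have a4 := sum_gen (s := s) (by omega : w ≤ m) H p0.le
    have hH' : (H.card : ℝ) ≤ w * p := le_trans (by exact_mod_cast hH) c1
    have hwm : (w : ℝ) ≤ k := by exact_mod_cast (by omega : w ≤ k)
    have hmk : (m : ℝ) ≤ k := by exact_mod_cast m2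
    have a5 : (m * p + H.card) * (w * p + H.card) ^ s ≤ (2 * (k * p)) * (2 * (w * p)) ^ s := by
      refine mul_le_mul (by nlinarith) (pow_le_pow_left₀ (by positivity) (by linarith) _)
        (by positivity) (by positivity)
    have a6 : (2 * (k * p)) * (2 * (w * p)) ^ s = (w : ℝ) ^ s / 4 * η1 := by
      rw [hη1, mul_pow, mul_pow]; ring
    have a7 : (B2.card : ℝ) ≤ (w : ℝ) ^ s / 4 :=
      le_of_mul_le_mul_right (by linarith) η0
    have a8 : Pi s w ⊆ gb m ∪ (bad1 s k m w u H ∪ B2) := by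
      intro b hb
      by_cases e1 : b ∈ bad1 s k m w u H
      · exact mem_union_right _ (mem_union_left _ e1)
      by_cases e2 : gen' k m w H p b ≤ η1
      · exact mem_union_left _ (mem_filter.mpr ⟨mem_sdiff.mpr ⟨hb, e1⟩, e2⟩)
      · exact mem_union_right _ (mem_union_right _ (mem_filter.mpr ⟨hb, not_le.mp e2⟩))
    have a9 := (card_le_card a8).trans ((card_union_le _ _).trans
      (Nat.add_le_add_left (card_union_le _ _) _))
    rw [card_Pi] at a9
    have b1 : (w : ℝ) ^ s ≤ (gb m).card + ((bad1 s k m w u H).card + B2.card) := by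
      exact_mod_cast a9
    have b2 : 4 * ((bad1 s k m w u H).card : ℝ) ≤ (w : ℝ) ^ s := by exact_mod_cast a2
    linarith
  set GM := Ms \ badM k u Ms H
  have hGM : (Ms.card : ℝ) / 2 ≤ GM.card := by
    rcases Ms.eq_empty_or_nonempty with e | ⟨m, hm⟩
    · simp [e]
    obtain ⟨m1, m2⟩ := P.mk' hm
    have a1 := card_badM (fun m hm => (P.hM m hm).1) (by have := P.huw; omega : u ≤ k) H
    have a2 : Ms.card ≤ GM.card + (badM k u Ms H).card := card_le_card_sdiff_add_card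
    have a3 : H.card * (4 * J + 5) ≤ h' * (4 * J + 5) := Nat.mul_le_mul_right _ hH
    have : Ms.card ≤ 2 * GM.card := by omega
    have : (Ms.card : ℝ) ≤ 2 * GM.card := by exact_mod_cast this
    linarith
  set Z := (Ms ×ˢ Pi s w).filter fun α => α.1 ∈ GM ∧ α.2 ∈ gb α.1
  have hZ : (GM.card : ℝ) * ((w : ℝ) ^ s / 2) ≤ Z.card := by
    have e : Z = GM.biUnion fun m => (gb m).image fun b => (m, b) := by
      ext ⟨m, b⟩
      simp only [Z, mem_filter, mem_product, mem_biUnion, mem_image, Prod.mk.injEq]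
      constructor
      · rintro ⟨-, h1, h2⟩; exact ⟨m, h1, b, h2, rfl, rfl⟩
      · rintro ⟨m', h1, b', h2, rfl, rfl⟩
        exact ⟨⟨(mem_sdiff.mp h1).1, (mem_sdiff.mp (mem_filter.mp h2).1).1⟩, h1, h2⟩
    rw [e, card_biUnion]
    · push_cast
      rw [← nsmul_eq_mul]
      refine card_nsmul_le_sum _ _ _ fun m hm => ?_
      rw [card_image_of_injective _ fun b b' e => (Prod.mk.inj e).2]
      exact hgb m (mem_sdiff.mp hm).1
    · intro m _ m' _ hne
      simp only [Function.onFun, disjoint_left, mem_image]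
      rintro _ ⟨b, -, rfl⟩ ⟨b', -, e⟩
      exact hne (Prod.mk.inj e).1.symm
  have hsub : Z ⊆ good (Ms ×ˢ Pi s w) (NS k w) (Cs w) (cell k w u)
      (η1 + 2 * (s + 1) ^ 3 * p) H := by
    rintro ⟨m, b⟩ hα
    obtain ⟨h0, h1, h2⟩ := mem_filter.mp hα
    obtain ⟨hm, hb⟩ := mem_product.mp h0
    have g1 := (mem_sdiff.mp h1).2
    have g2 := (mem_sdiff.mp (mem_filter.mp h2).1).2
    refine mem_good.mpr ⟨h0, disj_of_good hm hb g1 g2, ?_⟩
    have := cell_weight (P.adm hm hb) P.hs P.hu P.huw hm g1 g2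
    have g3 := (mem_filter.mp h2).2
    dsimp only at g3 this ⊢
    linarith
  refine le_trans ?_ (sum_le_sum_of_subset_of_nonneg hsub fun _ _ _ => (wt_pos _).le)
  have hlow : ∀ α ∈ Z, p ^ ((s + 1) * s + 1) / 2 ^ ((s + 1) * s + 2) ≤ wt (NS k w α) := by
    rintro ⟨m, b⟩ hα
    obtain ⟨hm, hb⟩ := mem_product.mp (mem_filter.mp hα).1
    refine le_trans (le_of_eq ?_) (pow_le_pow_of_le_one (by norm_num) (by norm_num)
      (card_NS_le (P.adm hm hb)))
    rw [hp, ← pow_mul, show 1 + (J + 1) * ((s + 1) * s + 1)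
      = J * ((s + 1) * s + 1) + ((s + 1) * s + 2) by ring, pow_add _ (J * ((s + 1) * s + 1)),
      div_eq_mul_inv, ← inv_pow, one_div]
  refine le_trans ?_ (card_nsmul_le_sum _ _ _ hlow)
  rw [nsmul_eq_mul]
  have a1 : (Ms.card : ℝ) / 2 * ((w : ℝ) ^ s / 2) ≤ Z.card :=
    (mul_le_mul_of_nonneg_right hGM (by positivity)).trans hZ
  refine le_trans (le_of_eq ?_) (mul_le_mul_of_nonneg_right a1 (by positivity))
  rw [show (s + 1) * s + 4 = ((s + 1) * s + 2) + 2 by ring, pow_add _ _ 2]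
  ring

end Pool.Agent.MP_01c7b3_an.SE
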