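import Mathlib
import Pool.Agent.MP_01c7b3_an.SE.Fam3

namespace Pool.Agent.MP_01c7b3_an.SE
open Finset

variable {s : ℕ}

/-- the nonzero values of the difference of two parameter vectors -/
def vals (b b' : Fin (s + 1) → ℕ) : Finset ℤ :=
  (univ.image fun i => (b' i : ℤ) - b i).erase 0

lemma same_wt {k J w m : ℕ} {b b' : Fin (s + 1) → ℕ} (h : Adm k J w m b) (hb' : b' ∈ Pi s w) :
    wt (NS k w (m, b) ∪ NS k w (m, b'))
      ≤ wt (NS k w (m, b)) * (((1 / 2 : ℝ) ^ J) ^ (s + 1)) ^ (vals b b').card := by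
  have h' : Adm k J w m b' := ⟨h.hw, h.win, h.hm, hb'⟩
  set δ : Fin (s + 1) → ℤ := fun i => (b' i : ℤ) - b i with hδ
  set Y := (univ : Finset (Fin (s + 1) × Fin (s + 1))).filter fun z => δ z.1 ≠ δ z.2
  have hne : ∀ z ∈ Y, z.1 ≠ z.2 := fun z hz e => (mem_filter.mp hz).2 (by rw [e])
  have h1 := low h.m1 h.win Y (fun z => aa w b' z.1 - aa w b' z.2)
    (fun z hz z' hz' hn hd => cls_inc h' (some z) (some_mem_XX.mpr (hne z hz)) (some z')
      (some_mem_XX.mpr (hne z' hz')) (by simpa using hn) (by simpa [cls] using hd))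
    (NS k w (m, b')) (NS k w (m, b))
    (fun z hz => disj_NS (by
      rintro ⟨j, j', hd⟩
      obtain ⟨e, h2⟩ := diff_cong (σ := 0) (i := z.1) (i' := z.2) (j := j) (j' := j') h hb'
        (by simp) (by simpa using hd)
      rcases h2 with ⟨e1, -⟩ | ⟨e1, e2⟩
      · exact hne z hz e1
      · apply (mem_filter.mp hz).2
        rw [← e1, e2] at e
        simp only [hδ]; omega))
    (fun z _ => cl_sub_NS ⟨z.1, z.2, by simp⟩)
  have h0 : (0 : ℤ) ∈ univ.image δ :=
    mem_image.mpr ⟨0, mem_univ _, by simp [hδ, (mem_Pi.mp h.hb).1, (mem_Pi.mp hb').1]⟩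
  have h2 : (s + 1) * (vals b b').card ≤ Y.card := by
    have e : Y.card = ∑ i, (univ.filter fun i' => δ i ≠ δ i').card := by
      simp only [Y, card_filter]
      rw [← univ_product_univ, sum_product]
    rw [e]
    have := card_nsmul_le_sum (univ : Finset (Fin (s + 1)))
      (fun i => (univ.filter fun i' => δ i ≠ δ i').card) (vals b b').card fun i _ => by
        have a1 : (univ.image δ).erase (δ i) ⊆ (univ.filter fun i' => δ i ≠ δ i').image δ := by
          intro v hv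
          obtain ⟨hv1, hv2⟩ := mem_erase.mp hv
          obtain ⟨i', -, rfl⟩ := mem_image.mp hv2
          exact mem_image_of_mem _ (mem_filter.mpr ⟨mem_univ _, hv1.symm⟩)
        have a2 := (card_le_card a1).trans card_image_le
        rw [card_erase_of_mem (mem_image_of_mem _ (mem_univ i))] at a2
        rw [vals, card_erase_of_mem h0]
        exact a2
    simpa using this
  have h3 : wt (NS k w (m, b) ∪ NS k w (m, b'))
      = wt (NS k w (m, b)) * wt (NS k w (m, b') \ NS k w (m, b)) := by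
    unfold wt
    rw [← pow_add, union_comm, ← card_sdiff_add_card, add_comm]
  rw [h3, ← pow_mul]
  exact mul_le_mul_of_nonneg_left (wt_le_pow ((Nat.mul_le_mul_left _ h2).trans h1)) (wt_pos _).le

lemma sum_vals {w : ℕ} (hw : 1 ≤ w) {b : Fin (s + 1) → ℕ} (hb : b ∈ Pi s w) {y : ℝ} (hy : 0 ≤ y)
    (h1 : (2 * w + 1) * y ≤ 1) :
    ∑ b' ∈ (Pi s w).erase b, y ^ (vals b b').card ≤ (s + 1) ^ (s + 1) * (2 * ((2 * w + 1) * y)) := by
  set X := Icc (-(w : ℤ)) w
  have hX : X.card = 2 * w + 1 := by simp only [X, Int.card_Icc]; omega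
  have maps : ∀ b' ∈ (Pi s w).erase b, vals b b' ∈ X.powerset.erase ∅ := by
    intro b' hb'
    obtain ⟨hne, hb'⟩ := mem_erase.mp hb'
    refine mem_erase.mpr ⟨?_, mem_powerset.mpr fun v hv => ?_⟩
    · obtain ⟨i, hi⟩ := Function.ne_iff.mp hne
      refine Finset.Nonempty.ne_empty ⟨(b' i : ℤ) - b i, mem_erase.mpr ⟨by omega, ?_⟩⟩
      exact mem_image.mpr ⟨i, mem_univ _, rfl⟩
    · obtain ⟨i, -, rfl⟩ := mem_image.mp (mem_erase.mp hv).2
      have := lt_of_Pi hw hb i; have := lt_of_Pi hw hb' i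
      exact mem_Icc.mpr ⟨by omega, by omega⟩
  rw [← sum_fiberwise_of_maps_to maps]
  have fib : ∀ V ∈ X.powerset.erase ∅,
      ∑ b' ∈ ((Pi s w).erase b).filter (fun b' => vals b b' = V), y ^ (vals b b').card
        ≤ (s + 1) ^ (s + 1) * y ^ V.card := by
    intro V _
    rw [sum_congr rfl (g := fun _ => y ^ V.card) fun b' hb' => by rw [(mem_filter.mp hb').2],
      sum_const, nsmul_eq_mul]
    refine mul_le_mul_of_nonneg_right ?_ (by positivity)
    rcases (((Pi s w).erase b).filter (fun b' => vals b b' = V)).eq_empty_or_nonempty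
      with e | ⟨b0, hb0⟩
    · rw [e]; simp only [card_empty, Nat.cast_zero]; positivity
    have hc : (insert 0 V).card ≤ s + 1 := by
      have h0 : (0 : ℤ) ∈ univ.image fun i => (b0 i : ℤ) - b i :=
        mem_image.mpr ⟨0, mem_univ _, by
          simp [(mem_Pi.mp hb).1, (mem_Pi.mp (mem_erase.mp (mem_filter.mp hb0).1).2).1]⟩
      rw [← (mem_filter.mp hb0).2, vals, insert_erase h0]
      simpa using card_image_le (s := univ) (f := fun i => (b0 i : ℤ) - b i)
    have := card_le_card_of_injOn (s := ((Pi s w).erase b).filter (fun b' => vals b b' = V))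
      (t := Fintype.piFinset fun _ : Fin (s + 1) => insert 0 V)
      (fun b' i => (b' i : ℤ) - b i) (fun b' hb' => by
        simp only [mem_coe, Fintype.mem_piFinset]
        intro i
        rw [← (mem_filter.mp hb').2]
        by_cases e : (b' i : ℤ) - b i = 0
        · rw [e]; exact mem_insert_self _ _
        · exact mem_insert_of_mem (mem_erase.mpr ⟨e, mem_image.mpr ⟨i, mem_univ _, rfl⟩⟩))
      (fun b1 _ b2 _ e => funext fun i => by have := congrFun e i; dsimp only at this; omega)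
    rw [Fintype.card_piFinset, prod_const, card_univ, Fintype.card_fin] at this
    exact_mod_cast this.trans (Nat.pow_le_pow_left hc _)
  refine (sum_le_sum fib).trans ?_
  rw [← mul_sum]
  refine mul_le_mul_of_nonneg_left ?_ (by positivity)
  have e1 : ∑ V ∈ X.powerset, y ^ V.card = (1 + y) ^ X.card := by
    rw [← prod_const, prod_one_add]; simp
  have e2 := add_sum_erase X.powerset (fun V => y ^ V.card) (empty_mem_powerset X)
  rw [e1, hX] at e2
  simp only [card_empty, pow_zero] at e2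
  have e3 : (1 + y) ^ (2 * w + 1) ≤ Real.exp ((2 * w + 1) * y) := by
    have := pow_le_pow_left₀ (by positivity) (by linarith [Real.add_one_le_exp y] :
      1 + y ≤ Real.exp y) (2 * w + 1)
    rw [← Real.exp_nat_mul] at this
    exact_mod_cast this
  have z0 : 0 ≤ (2 * (w : ℝ) + 1) * y := by positivity
  have e4 := Real.abs_exp_sub_one_le (x := (2 * w + 1) * y) (by rwa [abs_of_nonneg z0])
  rw [abs_of_nonneg z0] at e4
  linarith [le_abs_self (Real.exp ((2 * w + 1) * y) - 1)]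

lemma cross_wt {k J w m m' : ℕ} {b b' : Fin (s + 1) → ℕ} (h : Adm k J w m b)
    (h' : Adm k J w m' b') (hne : m ≠ m') :
    wt (NS k w (m, b) ∪ NS k w (m', b'))
      ≤ 2 ^ (s + 1) ^ 4 * wt (NS k w (m, b)) * wt (NS k w (m', b')) := by
  have val : ∀ (x : Bool × Fin (k + 1)) (m : ℕ), x ∈ NN k {m} ∅ → x.1 = false ∧ (x.2 : ℕ) = m := by
    rintro ⟨c, i⟩ m h
    cases c
    · simpa [mem_NN_false] using h
    · simp [mem_NN_true] at h
  have h1 : NS k w (m, b) ∩ NS k w (m', b') ⊆ (XX s ×ˢ XX s).biUnion fun z =>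
      cl k m (cls w b 0 z.1) ∩ cl k m' (cls w b' 0 z.2) := by
    intro x hx
    obtain ⟨a1, a2⟩ := mem_inter.mp hx
    rcases mem_union.mp a1 with a1 | a1 <;> rcases mem_union.mp a2 with a2 | a2
    · exact absurd ((val _ _ a1).2.symm.trans (val _ _ a2).2) hne
    · obtain ⟨z, -, hz⟩ := mem_biUnion.mp a2
      have := (mem_cl.mp hz).1
      rw [(val _ _ a1).1] at this; exact absurd this (by simp)
    · obtain ⟨z, -, hz⟩ := mem_biUnion.mp a1
      have := (mem_cl.mp hz).1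
      rw [(val _ _ a2).1] at this; exact absurd this (by simp)
    · obtain ⟨z, hz0, hz⟩ := mem_biUnion.mp a1
      obtain ⟨z', hz0', hz'⟩ := mem_biUnion.mp a2
      exact mem_biUnion.mpr ⟨(z, z'), mem_product.mpr ⟨hz0, hz0'⟩, mem_inter.mpr ⟨hz, hz'⟩⟩
  have h2 : (NS k w (m, b) ∩ NS k w (m', b')).card ≤ (s + 1) ^ 4 := by
    refine (card_le_card h1).trans (card_biUnion_le.trans ((sum_le_card_nsmul _ _ 1
      fun z _ => card_cl_inter h.win h'.win hne _ _).trans ?_))
    rw [card_product, card_XX, smul_eq_mul, mul_one]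
    have : (s + 1) * s + 1 ≤ (s + 1) ^ 2 := by nlinarith
    calc _ ≤ (s + 1) ^ 2 * (s + 1) ^ 2 := Nat.mul_le_mul this this
      _ = _ := by ring
  have h3 := card_union_add_card_inter (NS k w (m, b)) (NS k w (m', b'))
  unfold wt
  rw [mul_assoc, ← pow_add, ← h3, pow_add, mul_left_comm]
  refine le_mul_of_one_le_right (by positivity) ?_
  have : (1 / 2 : ℝ) ^ (s + 1) ^ 4 ≤ (1 / 2) ^ (NS k w (m, b) ∩ NS k w (m', b')).card :=
    pow_le_pow_of_le_one (by norm_num) (by norm_num) h2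
  calc (1 : ℝ) = 2 ^ (s + 1) ^ 4 * (1 / 2) ^ (s + 1) ^ 4 := by rw [← mul_pow]; norm_num
    _ ≤ _ := mul_le_mul_of_nonneg_left this (by positivity)

lemma card_meet {k J w u : ℕ} {Ms : Finset ℕ} (P : Par s k J w u Ms) (hMs : Ms.Nonempty)
    (H : Finset (Bool × Fin (k + 1))) :
    (((Ms ×ˢ Pi s w).filter fun β => ¬ Disjoint H (NS k w β)).card : ℝ)
      ≤ H.card * ((4 * J + 5) + 2 * (s + 1) ^ 4 * Ms.card / w) * w ^ s := by
  obtain ⟨m0, hm0⟩ := hMs
  have hw : 1 ≤ w := P.hu.trans P.huw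
  have h1 : ((Ms ×ˢ Pi s w).filter fun β => ¬ Disjoint H (NS k w β))
      ⊆ (badM k u Ms H ×ˢ Pi s w) ∪ Ms.biUnion fun m => (bad1 s k m w u H).image fun b => (m, b) := by
    rintro ⟨m, b⟩ hβ
    obtain ⟨h0, hd⟩ := mem_filter.mp hβ
    obtain ⟨hm, hb⟩ := mem_product.mp h0
    by_cases e1 : m ∈ badM k u Ms H
    · exact mem_union_left _ (mem_product.mpr ⟨e1, hb⟩)
    by_cases e2 : b ∈ bad1 s k m w u H
    · exact mem_union_right _ (mem_biUnion.mpr ⟨m, hm, mem_image_of_mem _ e2⟩)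
    exact absurd (disj_of_good hm hb e1 e2).symm hd
  have h2 := (card_le_card h1).trans ((card_union_le _ _).trans
    (Nat.add_le_add_left card_biUnion_le _))
  rw [card_product, card_Pi] at h2
  have h3 := card_badM (fun m hm => (P.hM m hm).1)
    (by have := P.huw; have := P.mk' hm0; omega : u ≤ k) H
  have h4 : (∑ m ∈ Ms, ((bad1 s k m w u H).image fun b => (m, b)).card) * w
      ≤ Ms.card * (2 * (s + 1) ^ 4 * H.card * w ^ s) := by
    rw [sum_mul, ← smul_eq_mul]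
    exact sum_le_card_nsmul _ _ _ fun m hm => (Nat.mul_le_mul_right _ card_image_le).trans
      (card_bad1 (by have := P.mk' hm; omega) H)
  have w0 : (0 : ℝ) < w := by exact_mod_cast hw
  have h5 : ((∑ m ∈ Ms, ((bad1 s k m w u H).image fun b => (m, b)).card : ℕ) : ℝ)
      ≤ Ms.card * (2 * (s + 1) ^ 4 * H.card * w ^ s) / w := by
    rw [le_div_iff₀ w0]; exact_mod_cast h4
  have h6 : (((badM k u Ms H).card * w ^ s : ℕ) : ℝ) ≤ H.card * (4 * J + 5) * w ^ s := by
    exact_mod_cast Nat.mul_le_mul_right (w ^ s) h3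
  have h7 : (((Ms ×ˢ Pi s w).filter fun β => ¬ Disjoint H (NS k w β)).card : ℝ)
      ≤ (((badM k u Ms H).card * w ^ s : ℕ) : ℝ)
        + ((∑ m ∈ Ms, ((bad1 s k m w u H).image fun b => (m, b)).card : ℕ) : ℝ) := by
    exact_mod_cast h2
  refine h7.trans ((add_le_add h6 h5).trans (le_of_eq ?_))
  field_simp

lemma Del_le {k J w u : ℕ} {Ms : Finset ℕ} (P : Par s k J w u Ms) (hMs : Ms.Nonempty)
    (hy : k * ((1 / 2 : ℝ) ^ J) ^ (s + 1) ≤ 1) :
    Del (Ms ×ˢ Pi s w) (NS k w) ≤ Ms.card * w ^ s * ((1 / 2 : ℝ) ^ J) ^ ((s + 1) * s + 1) *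
      (2 * (s + 1) ^ (s + 1) * (k * ((1 / 2 : ℝ) ^ J) ^ (s + 1))
        + 2 ^ (s + 1) ^ 4 * (1 / 2) ^ J * ((1 + (J + 1) * ((s + 1) * s + 1)) *
          ((4 * J + 5) + 2 * (s + 1) ^ 4 * Ms.card / w))) := by
  set p : ℝ := (1 / 2) ^ J with hp
  have p0 : 0 < p := by positivity
  have hw : 1 ≤ w := P.hu.trans P.huw
  set Λ : ℝ := 2 * (s + 1) ^ (s + 1) * (k * p ^ (s + 1))
        + 2 ^ (s + 1) ^ 4 * p * ((1 + (J + 1) * ((s + 1) * s + 1)) *
          ((4 * J + 5) + 2 * (s + 1) ^ 4 * Ms.card / w)) with hΛ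
  have Λ0 : 0 ≤ Λ := by positivity
  refine le_trans ?_ (mul_le_mul_of_nonneg_right (mu_le P) Λ0)
  rw [sum_mul]
  refine sum_le_sum ?_
  rintro ⟨m, b⟩ hα
  obtain ⟨hm, hb⟩ := mem_product.mp hα
  have hA := P.adm hm hb
  obtain ⟨m1, m2⟩ := P.mk' hm
  have hwk : (2 * (w : ℝ) + 1) ≤ k := by exact_mod_cast (by omega : 2 * w + 1 ≤ k)
  have y0 : 0 ≤ p ^ (s + 1) := by positivity
  have N0 := (wt_pos (NS k w (m, b))).le
  rw [← sum_filter_add_sum_filter_not _ (fun β : ℕ × (Fin (s + 1) → ℕ) => β.1 = m), hΛ, mul_add]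
  refine add_le_add ?_ ?_
  · have a1 : (((Ms ×ˢ Pi s w).filter fun β => β ≠ (m, b) ∧
        ¬ Disjoint (NS k w (m, b)) (NS k w β)).filter fun β => β.1 = m)
        ⊆ ((Pi s w).erase b).image fun b' => (m, b') := by
      rintro ⟨m', b'⟩ hβ
      obtain ⟨h1, h2⟩ := mem_filter.mp hβ
      obtain ⟨h3, h4, -⟩ := mem_filter.mp h1
      dsimp only at h2
      subst h2
      exact mem_image_of_mem _ (mem_erase.mpr ⟨fun e => h4 (by rw [e]), (mem_product.mp h3).2⟩)
    refine (sum_le_sum_of_subset_of_nonneg a1 fun _ _ _ => (wt_pos _).le).trans ?_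
    rw [sum_image fun _ _ _ _ e => (Prod.mk.inj e).2]
    refine (sum_le_sum fun b' hb' => same_wt hA (mem_erase.mp hb').2).trans ?_
    rw [← mul_sum]
    refine mul_le_mul_of_nonneg_left ((sum_vals hw hb y0 (by nlinarith)).trans ?_) N0
    have : (2 * (w : ℝ) + 1) * p ^ (s + 1) ≤ k * p ^ (s + 1) := mul_le_mul_of_nonneg_right hwk y0
    have a2 : (0 : ℝ) ≤ (s + 1) ^ (s + 1) := by positivity
    nlinarith
  · have a1 : ∀ β ∈ (((Ms ×ˢ Pi s w).filter fun β => β ≠ (m, b) ∧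
        ¬ Disjoint (NS k w (m, b)) (NS k w β)).filter fun β => ¬ β.1 = m),
        wt (NS k w (m, b) ∪ NS k w β)
          ≤ 2 ^ (s + 1) ^ 4 * wt (NS k w (m, b)) * p ^ ((s + 1) * s + 1) := by
      rintro ⟨m', b'⟩ hβ
      obtain ⟨h1, h2⟩ := mem_filter.mp hβ
      obtain ⟨h3, h4⟩ := mem_product.mp (mem_filter.mp h1).1
      exact (cross_wt hA (P.adm h3 h4) (Ne.symm h2)).trans (mul_le_mul_of_nonneg_left
        (wt_le_pow (le_card_NS (P.adm h3 h4))) (by positivity))
    refine (sum_le_card_nsmul _ _ _ a1).trans ?_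
    rw [nsmul_eq_mul]
    have a2 : (((((Ms ×ˢ Pi s w).filter fun β => β ≠ (m, b) ∧
        ¬ Disjoint (NS k w (m, b)) (NS k w β)).filter fun β => ¬ β.1 = m).card : ℕ) : ℝ)
        ≤ (((Ms ×ˢ Pi s w).filter fun β => ¬ Disjoint (NS k w (m, b)) (NS k w β)).card : ℝ) := by
      refine Nat.cast_le.mpr (card_le_card fun β hβ => ?_)
      obtain ⟨h1, -, h2⟩ := mem_filter.mp (mem_filter.mp hβ).1
      exact mem_filter.mpr ⟨h1, h2⟩
    have a3 := card_meet P hMs (NS k w (m, b))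
    have a4 : ((NS k w (m, b)).card : ℝ) ≤ 1 + (J + 1) * ((s + 1) * s + 1) := by
      exact_mod_cast card_NS_le hA
    set Θ : ℝ := (4 * J + 5) + 2 * (s + 1) ^ 4 * Ms.card / w
    have Θ0 : 0 ≤ Θ := by positivity
    set a0 : ℝ := 1 + (J + 1) * ((s + 1) * s + 1)
    have a5 := a2.trans (a3.trans (mul_le_mul_of_nonneg_right
      (mul_le_mul_of_nonneg_right a4 Θ0) (by positivity)))
    have a6 : (w : ℝ) ^ s * p ^ ((s + 1) * s + 1) ≤ p := by
      rw [pow_succ, pow_mul, ← mul_assoc, ← mul_pow]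
      refine mul_le_of_le_one_left p0.le (pow_le_one₀ (by positivity) ?_)
      have : (w : ℝ) ≤ k := by linarith [(Nat.cast_nonneg w : (0 : ℝ) ≤ w)]
      nlinarith
    have a00 : 0 ≤ a0 := by positivity
    calc _ ≤ a0 * Θ * w ^ s * (2 ^ (s + 1) ^ 4 * wt (NS k w (m, b)) * p ^ ((s + 1) * s + 1)) :=
          mul_le_mul_of_nonneg_right a5 (by positivity)
      _ = wt (NS k w (m, b)) * (2 ^ (s + 1) ^ 4 * (w ^ s * p ^ ((s + 1) * s + 1)) * (a0 * Θ)) := by
          ring
      _ ≤ _ := by gcongr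

end Pool.Agent.MP_01c7b3_an.SE
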