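import Mathlib
import Pool.Agent.MP_01c7b3_an.SE.Fam4
import Pool.Agent.MP_01c7b3_an.SE.Dyn

namespace Pool.Agent.MP_01c7b3_an.SE
open Finset

variable {s : ℕ}

/-- numerator positions present, denominator positions absent -/
def GG (k : ℕ) (z : Finset (Fin (k + 1)) × Finset (Fin (k + 1))) : Finset (Bool × Fin (k + 1)) :=
  univ.filter fun x => if x.1 = true then x.2 ∉ z.2 else x.2 ∈ z.1

/-- numerator and denominator positions present -/
def GG' (k : ℕ) (z : Finset (Fin (k + 1)) × Finset (Fin (k + 1))) : Finset (Bool × Fin (k + 1)) :=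
  univ.filter fun x => if x.1 = true then x.2 ∈ z.2 else x.2 ∈ z.1

lemma GG_inj (k : ℕ) : Function.Injective (GG k) := by
  rintro ⟨P, Q⟩ ⟨P', Q'⟩ h
  refine Prod.ext ?_ ?_
  · ext i; simpa [GG] using Finset.ext_iff.mp h (false, i)
  · ext i
    have := Finset.ext_iff.mp h (true, i)
    simp only [GG, mem_filter, mem_univ, true_and, if_true] at this
    tauto

lemma GG'_inj (k : ℕ) : Function.Injective (GG' k) := by
  rintro ⟨P, Q⟩ ⟨P', Q'⟩ h
  refine Prod.ext ?_ ?_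
  · ext i; simpa [GG'] using Finset.ext_iff.mp h (false, i)
  · ext i; simpa [GG'] using Finset.ext_iff.mp h (true, i)

lemma of_not_sub {k m : ℕ} {P Q : Finset (Fin (k + 1))} {r : ℤ} {x : Bool × Fin (k + 1)}
    (hx : x ∈ cl k m r) (h : x ∉ GG k (P, Q)) :
    ∃ d ∈ Icc 1 k, mem k Q d ∧ (m : ℤ) ∣ (d : ℤ) - r := by
  obtain ⟨c, i⟩ := x
  obtain ⟨h1, h2, h3⟩ := mem_cl.mp hx
  dsimp only at h1 h2 h3
  subst h1
  refine ⟨i, mem_Icc.mpr ⟨h2, by have := i.2; omega⟩, ⟨i.2, ?_⟩, h3⟩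
  simpa [GG] using h

lemma ker_of {k J w u m : ℕ} {Ms : Finset ℕ} {b : Fin (s + 1) → ℕ} (A : Par s k J w u Ms)
    (hm : m ∈ Ms) (hb : b ∈ Pi s w) {P Q : Finset (Fin (k + 1))}
    (hN : NS k w (m, b) ⊆ GG k (P, Q))
    (hC : ∀ c ∈ Cs w (m, b), ¬ cell k w u (m, b) c ⊆ GG k (P, Q))
    (hP : mem k P u) (hQ : mem k Q u) : Ker k m u (inS m w b) (mem k P) (mem k Q) := by
  classical
  have h := A.adm hm hb
  obtain ⟨m1, m2⟩ := A.mk' hm
  have hw := h.hw; have hu := A.hu; have huw := A.huw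
  have per : ∀ v v' : ℤ, (m : ℤ) ∣ v - v' → inS m w b v → inS m w b v' := by
    rintro v v' hd ⟨i, hi⟩
    exact ⟨i, by simpa using dvd_sub hi hd⟩
  refine ⟨by omega, h.m1, m2, mem_Icc.mpr ⟨hu, by omega⟩, per, ⟨aa w b 0, 0, by simp⟩, ?_, ?_,
    hP, hQ, ?_, ?_, ?_, ?_⟩
  · rintro n ⟨i, hi⟩ ⟨j, hj⟩
    have l1 := lt_of_Pi hw hb i; have l2 := lt_of_Pi hw hb j
    obtain ⟨e, h2⟩ := sep4 (e := (b j : ℤ) - b i + 2 * u) h.hm j.2 j.2 i.2 j.2
      (abs_lt.mpr ⟨by omega, by omega⟩) (by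
        have := dvd_sub hi hj
        have e : base w j + base w j - base w i - base w j + ((b j : ℤ) - b i + 2 * u)
          = n - aa w b i - (n - u - u - aa w b j) := by unfold aa; ring
        rwa [e])
    have : j = i := Fin.ext (by omega)
    subst this
    omega
  · refine ⟨by omega, ?_⟩
    have := hN (mem_union_left _ (mem_NN_false (i := ⟨m, by omega⟩).mpr (mem_singleton_self m)))
    simpa [GG] using this
  · rintro d hd n ⟨i, hi⟩ ⟨j, hj⟩ ⟨hd', hq⟩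
    have h1 : inN m w b d := ⟨i, j, by
      have := dvd_sub hi hj
      have e : (d : ℤ) - (aa w b i - aa w b j) = n - aa w b i - (n - d - aa w b j) := by ring
      rwa [e]⟩
    have := hN (cl_sub_NS h1 (mem_cl (x := (true, ⟨d, hd'⟩)).mpr
      ⟨rfl, (mem_Icc.mp hd).1, by simp⟩))
    simp only [GG, mem_filter, mem_univ, true_and, if_true] at this
    exact this hq
  · intro n hn
    have hm0 : (0 : ℤ) < m := by omega
    obtain ⟨n0, hn0⟩ := Int.eq_ofNat_of_zero_le (Int.emod_nonneg n hm0.ne')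
    have hlt : n0 < m := by have := Int.emod_lt_of_pos n hm0; omega
    have hdv : (m : ℤ) ∣ n - n0 := by rw [← hn0]; exact Int.dvd_self_sub_emod
    have hn' : ¬ inS m w b n0 := fun h' => hn (per _ _ (by simpa using hdv.neg_right) h')
    have := hC (Sum.inl n0) (by
      rw [Cs, inl_mem_disjSum]; exact mem_filter.mpr ⟨mem_range.mpr hlt, hn'⟩)
    obtain ⟨x, hx, hx'⟩ := not_subset.mp this
    obtain ⟨i, -, hi⟩ := mem_biUnion.mp hx
    obtain ⟨d, hd, hq, hdd⟩ := of_not_sub hi hx'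
    refine ⟨d, hd, hq, i, ?_⟩
    have := dvd_sub hdv hdd
    have e : n - d - aa w b i = n - n0 - ((d : ℤ) - (n0 - aa w b i)) := by ring
    rwa [e]
  · have := hC (Sum.inr none) (by rw [Cs, inr_mem_disjSum]; exact none_mem_XX)
    obtain ⟨x, hx, hx'⟩ := not_subset.mp this
    obtain ⟨d, hd, hq, hdd⟩ := of_not_sub hx hx'
    exact ⟨d, hd, hq, by simpa [cls] using hdd⟩
  · rintro r r' ⟨i, hi⟩ ⟨i', hi'⟩ hne
    have hii : i ≠ i' := by
      rintro rfl
      exact hne (by simpa using dvd_sub hi hi')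
    have := hC (Sum.inr (some (i, i'))) (by rw [Cs, inr_mem_disjSum]; exact some_mem_XX.mpr hii)
    obtain ⟨x, hx, hx'⟩ := not_subset.mp this
    obtain ⟨d, hd, hq, hdd⟩ := of_not_sub hx hx'
    refine ⟨d, hd, hq, ?_⟩
    have := dvd_add (dvd_sub hdd hi) hi'
    have e : (d : ℤ) - (r + u - r') = d - cls w b u (some (i, i')) - (r - aa w b i)
        + (r' - aa w b i') := by simp only [cls]; ring
    rwa [e]

lemma none_le (k w : ℕ) :
    ((none' (Icc 1 w) fun u => NN k {u} {u}).card : ℝ)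
      ≤ 2 ^ Fintype.card (Bool × Fin (k + 1)) * Real.exp (-(w / 4)) := by
  refine (janson _ _).trans (mul_le_mul_of_nonneg_left (Real.exp_le_exp.mpr ?_) (by positivity))
  have h1 : Del (Icc 1 w) (fun u => NN k {u} {u}) = 0 := by
    refine sum_eq_zero fun u _ => sum_eq_zero fun u' hu' => ?_
    obtain ⟨-, hne, hd⟩ := mem_filter.mp hu'
    refine absurd ?_ hd
    rw [disjoint_iff_inter_eq_empty, NN_inter, singleton_inter_of_notMem (by simpa using hne.symm)]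
    ext ⟨c, i⟩; cases c <;> simp [mem_NN_true, mem_NN_false]
  have h2 := card_nsmul_le_sum (Icc 1 w) (fun u => wt (NN k {u} {u})) (1 / 4) fun u _ => by
    have : (NN k {u} {u}).card ≤ 2 := by simpa using card_NN_le k {u} {u}
    refine le_trans (by norm_num) (pow_le_pow_of_le_one (by norm_num) (by norm_num) this)
  simp only [Nat.card_Icc, Nat.add_sub_cancel, nsmul_eq_mul] at h2
  rw [h1]; linarith

theorem numESB_bound {k J w h L j : ℕ} {Ms : Finset ℕ} (hs : 2 ≤ s) (hJ : 1 ≤ J)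
    (hM : ∀ m ∈ Ms, Win k J m ∧ 16 * 4 ^ (s + 1) * w ≤ m) (hMs : Ms.Nonempty) (hwk : w ≤ k)
    {p μ0 η : ℝ} (hp : p = (1 / 2) ^ J) (hμ : μ0 = Ms.card * w ^ s * p ^ ((s + 1) * s + 1))
    (hη : η = 2 ^ (s + 3) * (k * p ^ (s + 1)) + 2 * (s + 1) ^ 3 * p)
    (hy : k * p ^ (s + 1) ≤ 1) (c1 : ((h + L : ℕ) : ℝ) ≤ w * p)
    (c2 : 8 * (s + 1) ^ 4 * (h + L) ≤ w) (c3 : 2 * ((h + L) * (4 * J + 5)) ≤ Ms.card)
    (c4 : 2 * (s + 1) ^ (s + 1) * (k * p ^ (s + 1))
        + 2 ^ (s + 1) ^ 4 * p * ((1 + (J + 1) * ((s + 1) * s + 1)) *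
          ((4 * J + 5) + 2 * (s + 1) ^ 4 * Ms.card / w)) ≤ 1 / 2 ^ ((s + 1) * s + 5))
    (hj : 2 * (1 + (J + 1) * ((s + 1) * s + 1)) * j ≤ h) (hL : 0 < L) :
    (numESB k : ℝ) ≤ 4 ^ (k + 1) * (Real.exp (-(w / 4)) + w *
      ((2 * k + 3) ^ (h + L) * Real.exp (-(μ0 / 2 ^ ((s + 1) * s + 5))) + (μ0 * η / L) ^ j)) := by
  classical
  subst hp
  set p : ℝ := (1 / 2) ^ J with hp
  have p0 : 0 < p := by positivity
  have μ00 : 0 ≤ μ0 := by rw [hμ]; positivity
  have par : ∀ u ∈ Icc 1 w, Par s k J w u Ms := fun u hu =>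
    ⟨hs, hJ, (mem_Icc.mp hu).1, (mem_Icc.mp hu).2, hM⟩
  have n2 : (2 : ℝ) ^ Fintype.card (Bool × Fin (k + 1)) = 4 ^ (k + 1) := by
    rw [Fintype.card_prod, Fintype.card_bool, Fintype.card_fin, pow_mul]; norm_num
  have n3 : (Fintype.card (Bool × Fin (k + 1)) : ℝ) + 1 = 2 * k + 3 := by
    rw [Fintype.card_prod, Fintype.card_bool, Fintype.card_fin]; push_cast; ring
  have hbad : ∀ u ∈ Icc 1 w, ((bad (Ms ×ˢ Pi s w) (NS k w) (Cs w) (cell k w u)).card : ℝ)
      ≤ 4 ^ (k + 1) * ((2 * k + 3) ^ (h + L) * Real.exp (-(μ0 / 2 ^ ((s + 1) * s + 5)))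
        + (μ0 * η / L) ^ j) := by
    intro u hu
    have A := par u hu
    have := ld (Ms ×ˢ Pi s w) (NS k w) (Cs w) (cell k w u) (1 + (J + 1) * ((s + 1) * s + 1))
      h L j μ0 (μ0 / 2 ^ ((s + 1) * s + 4)) η (by rw [hη]; positivity)
      (by
        rintro ⟨m, b⟩ hα
        have hA := A.adm (mem_product.mp hα).1 (mem_product.mp hα).2
        refine ⟨card_pos.mp (lt_of_lt_of_le ?_ (le_card_NS hA)), card_NS_le hA⟩
        positivity)
      (by
        rintro ⟨m, b⟩ hα c _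
        exact card_cell_le (A.adm (mem_product.mp hα).1 (mem_product.mp hα).2) c)
      (by rw [hμ]; exact mu_le A)
      (fun H hH => by rw [hμ, hη]; exact le_mu_good A H hH c1 c2 c3)
      (by
        refine (Del_le A hMs hy).trans ?_
        rw [← hμ]
        refine (mul_le_mul_of_nonneg_left c4 μ00).trans (le_of_eq ?_)
        rw [pow_succ _ ((s + 1) * s + 4)]; ring)
      hj hL
    rw [n2, n3] at this
    have e : μ0 / 2 ^ ((s + 1) * s + 4) / 2 = μ0 / 2 ^ ((s + 1) * s + 5) := by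
      rw [pow_succ _ ((s + 1) * s + 4)]; ring
    rwa [e] at this
  set E0 := (univ : Finset (Finset (Fin (k + 1)) × Finset (Fin (k + 1)))).filter fun z =>
    GG' k z ∈ none' (Icc 1 w) fun u => NN k {u} {u}
  let E1 := fun u : ℕ => (univ : Finset (Finset (Fin (k + 1)) × Finset (Fin (k + 1)))).filter
    fun z => GG k z ∈ bad (Ms ×ˢ Pi s w) (NS k w) (Cs w) (cell k w u)
  have h1 : numESB k ≤ (E0 ∪ (Icc 1 w).biUnion E1).card := by
    unfold numESB
    rw [← Set.ncard_coe_finset]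
    refine Set.ncard_le_ncard ?_ (Finset.finite_toSet _)
    rintro ⟨P, Q⟩ ⟨-, -, hE⟩
    rw [mem_coe, mem_union]
    by_cases e : (P, Q) ∈ E0
    · exact Or.inl e
    right
    simp only [E0, mem_filter, mem_univ, true_and, mem_none', not_forall, not_not] at e
    obtain ⟨u, hu, hsub⟩ := e
    have huk : u < k + 1 := by have := (mem_Icc.mp hu).2; omega
    have hP : mem k P u := ⟨huk, by
      simpa [GG'] using hsub (mem_NN_false (i := ⟨u, huk⟩).mpr (mem_singleton_self u))⟩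
    have hQ : mem k Q u := ⟨huk, by
      simpa [GG'] using hsub (mem_NN_true (i := ⟨u, huk⟩).mpr (mem_singleton_self u))⟩
    refine mem_biUnion.mpr ⟨u, hu, mem_filter.mpr ⟨mem_univ _, mem_bad.mpr ?_⟩⟩
    rintro ⟨m, b⟩ hα hN
    by_contra hC
    push Not at hC
    exact not_ESB (ker_of (par u hu) (mem_product.mp hα).1 (mem_product.mp hα).2 hN hC hP hQ) hE
  have h2 : (E0.card : ℝ) ≤ 4 ^ (k + 1) * Real.exp (-(w / 4)) := by
    rw [← n2]
    refine le_trans (Nat.cast_le.mpr ?_) (none_le k w)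
    exact card_le_card_of_injOn (GG' k) (fun z hz => (mem_filter.mp hz).2) (GG'_inj k).injOn
  have h3 : ∀ u ∈ Icc 1 w, ((E1 u).card : ℝ) ≤ 4 ^ (k + 1) *
      ((2 * k + 3) ^ (h + L) * Real.exp (-(μ0 / 2 ^ ((s + 1) * s + 5))) + (μ0 * η / L) ^ j) := by
    intro u hu
    refine le_trans (Nat.cast_le.mpr ?_) (hbad u hu)
    exact card_le_card_of_injOn (GG k) (fun z hz => (mem_filter.mp hz).2) (GG_inj k).injOn
  have h4 := sum_le_card_nsmul _ _ _ h3
  rw [Nat.card_Icc, Nat.add_sub_cancel, nsmul_eq_mul] at h4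
  have h5 : (numESB k : ℝ) ≤ E0.card + ∑ u ∈ Icc 1 w, ((E1 u).card : ℝ) := by
    exact_mod_cast h1.trans ((card_union_le _ _).trans (Nat.add_le_add_left card_biUnion_le _))
  linarith

end Pool.Agent.MP_01c7b3_an.SE
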