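import Mathlib
import Pool.Agent.MP_01c7b3_an.SE.Fam5

namespace Pool.Agent.MP_01c7b3_an.SE
open Finset

lemma final_step {k w X Z K μ0 r : ℝ} {L j T : ℕ} (hX : 12 ≤ X) (hk : X ^ T = k) (hT : 1 ≤ T)
    (hw0 : 0 ≤ w) (hwk : w ≤ k) (hZw : Z ≤ w / 4) (hK : 0 < K) (hKX : 4 * K * (T + 1) ≤ X)
    (hL : (L : ℝ) ≤ μ0 / X ^ 2) (hμ : Z * X ^ 5 ≤ μ0) (hZ : X ^ 2 ≤ Z) (hr0 : 0 ≤ r)
    (hr : r ≤ 1 / 3) (hj : Z ≤ j) (hTX : 2 * (T + 1 : ℝ) ≤ X) :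
    4 * (Real.exp (-(w / 4)) + w * ((2 * k + 3) ^ (L + L) * Real.exp (-(μ0 / K)) + r ^ j))
      ≤ Real.exp (-(Z / X)) := by
  have X0 : 0 < X := by linarith
  have k1 : X ≤ k := by rw [← hk]; exact le_self_pow₀ (by linarith) (by omega)
  have k0 : 0 < k := by linarith
  have hexp : k * X ≤ Real.exp ((T + 1) * X) := by
    have h1 : X ≤ Real.exp X := by linarith [Real.add_one_le_exp X]
    have h2 := pow_le_pow_left₀ X0.le h1 (T + 1)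
    rw [← Real.exp_nat_mul, pow_succ, hk] at h2
    exact_mod_cast h2
  have Z0 : 0 < Z := by nlinarith
  have μ00 : 0 < μ0 := lt_of_lt_of_le (by positivity) hμ
  have a1 : Real.exp (-(w / 4)) ≤ Real.exp (-Z) := Real.exp_le_exp.mpr (by linarith)
  have a2 : (2 * k + 3) ^ (L + L) * Real.exp (-(μ0 / K)) ≤ Real.exp (-Z) := by
    have b1 : (2 * k + 3) ^ (L + L) ≤ Real.exp ((T + 1) * X) ^ (L + L) :=
      pow_le_pow_left₀ (by linarith) (le_trans (by nlinarith) hexp) _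
    rw [← Real.exp_nat_mul] at b1
    refine (mul_le_mul_of_nonneg_right b1 (Real.exp_pos _).le).trans ?_
    rw [← Real.exp_add]
    refine Real.exp_le_exp.mpr ?_
    have b2 : ((L + L : ℕ) : ℝ) * ((T + 1) * X) ≤ 2 * (μ0 / X ^ 2) * ((T + 1) * X) := by
      refine mul_le_mul_of_nonneg_right (by push_cast; linarith) (by positivity)
    have b3 : 2 * (μ0 / X ^ 2) * ((T + 1) * X) ≤ μ0 / K / 2 := by
      rw [show 2 * (μ0 / X ^ 2) * ((T + 1) * X) = μ0 * (2 * (T + 1) / X) by field_simp,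
        show μ0 / K / 2 = μ0 * (1 / (2 * K)) by field_simp]
      refine mul_le_mul_of_nonneg_left ?_ μ00.le
      rw [div_le_div_iff₀ X0 (by positivity)]; linarith
    have b4 : Z ≤ μ0 / K / 2 := by
      rw [le_div_iff₀ (by norm_num), le_div_iff₀ hK]
      have c1 : X ≤ X ^ 5 := le_self_pow₀ (by linarith) (by norm_num)
      have c2 : 2 * K ≤ X := by nlinarith [(Nat.cast_nonneg T : (0 : ℝ) ≤ T)]
      nlinarith
    linarith
  have a3 : r ^ j ≤ Real.exp (-Z) := by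
    have b1 : r ≤ Real.exp (-1) := by
      rw [Real.exp_neg]
      refine hr.trans ?_
      rw [one_div]
      exact inv_anti₀ (Real.exp_pos 1) (by linarith [Real.exp_one_lt_d9])
    refine (pow_le_pow_left₀ hr0 b1 j).trans ?_
    rw [← Real.exp_nat_mul]
    exact Real.exp_le_exp.mpr (by linarith)
  have e0 := Real.exp_pos (-Z)
  have a4 : w * ((2 * k + 3) ^ (L + L) * Real.exp (-(μ0 / K)) + r ^ j) ≤ k * (2 * Real.exp (-Z)) :=
    mul_le_mul hwk (by linarith) (by positivity) (by linarith)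
  have a5 : Real.exp ((T + 1) * X) * Real.exp (-Z) ≤ Real.exp (-(Z / X)) := by
    rw [← Real.exp_add]
    refine Real.exp_le_exp.mpr ?_
    have b1 : Z / X ≤ Z / 2 := div_le_div_of_nonneg_left Z0.le (by norm_num) (by linarith)
    nlinarith
  have a6 : 4 * (1 + 2 * k) ≤ k * X := by nlinarith
  nlinarith


lemma chooseJ {X : ℝ} {E : ℕ} (X1 : 1 ≤ X) (g0 : 2 * E * Real.log X + 2 ≤ X) :
    ∃ J : ℕ, 1 ≤ J ∧ (J : ℝ) + 1 ≤ X ∧ (1 / 2) ^ J * X ^ E ≤ 1 ∧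
      1 ≤ 2 * ((1 / 2) ^ J * X ^ E) := by
  obtain ⟨n, hn1, hn2⟩ := exists_nat_pow_near (one_le_pow₀ (n := E) X1)
    (by norm_num : (1 : ℝ) < 2)
  have pP : (1 / 2 : ℝ) ^ (n + 1) * 2 ^ (n + 1) = 1 := by rw [← mul_pow]; norm_num
  have p0 : (0 : ℝ) < (1 / 2) ^ (n + 1) := by positivity
  refine ⟨n + 1, by omega, ?_, ?_, ?_⟩
  · have h1 := Real.log_le_log (by positivity) hn1
    rw [Real.log_pow, Real.log_pow] at h1
    have h2 := Real.log_two_gt_d9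
    have h3 : (0 : ℝ) ≤ n := Nat.cast_nonneg n
    have h4 : (n : ℝ) * (1 / 2) ≤ n * Real.log 2 := mul_le_mul_of_nonneg_left (by linarith) h3
    push_cast
    linarith
  · exact (mul_le_mul_of_nonneg_left hn2.le p0.le).trans pP.le
  · have := mul_le_mul_of_nonneg_left hn1 p0.le
    rw [pow_succ (2 : ℝ) n] at pP
    linarith

lemma moduli {k J c : ℕ} {X : ℝ} (J1 : 1 ≤ J) (hJX : (J : ℝ) + 1 ≤ X) (g1 : 20 ≤ X)
    (k3 : X ^ 3 ≤ k) (c0 : 0 < c) (g2 : 2 * (c : ℝ) ≤ X) :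
    ∃ (Ms : Finset ℕ) (w : ℕ), (∀ m ∈ Ms, Win k J m ∧ c * w ≤ m) ∧ (Ms.card : ℝ) ≤ k ∧
      (k : ℝ) ≤ 2 * X ^ 2 * Ms.card ∧ w ≤ k ∧ (k : ℝ) ≤ X ^ 2 * w := by
  have X0' : 0 < X := by linarith
  have X3 : 20 * X ^ 2 ≤ X ^ 3 := by nlinarith [sq_nonneg X]
  have J1' : (1 : ℝ) ≤ J := by exact_mod_cast J1
  obtain ⟨w, hw⟩ : ∃ w : ℕ, w = k / ((J + 1) * c) := ⟨_, rfl⟩
  refine ⟨Icc (k / (J + 1) + 1) (k / J), w, ?_, ?_, ?_, ?_, ?_⟩
  · intro m hm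
    rw [mem_Icc] at hm
    refine ⟨⟨?_, ?_⟩, ?_⟩
    · exact (Nat.mul_le_mul_left _ hm.2).trans (Nat.mul_div_le k J)
    · rw [mul_comm]; exact (Nat.div_lt_iff_lt_mul (by omega)).mp (by omega)
    · have : c * w ≤ k / (J + 1) := by
        rw [hw, ← Nat.div_div_eq_div_mul]; exact Nat.mul_div_le _ _
      omega
  · rw [Nat.card_Icc]
    rw [Nat.add_sub_add_right]
    exact_mod_cast (Nat.sub_le _ _).trans (Nat.div_le_self k J)
  · have a0 : k / (J + 1) ≤ k / J := Nat.div_le_div_left (by omega) (by omega)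
    have a1 : ((Icc (k / (J + 1) + 1) (k / J)).card : ℝ)
        = ((k / J : ℕ) : ℝ) - ((k / (J + 1) : ℕ) : ℝ) := by
      rw [Nat.card_Icc, ← Nat.cast_sub a0]; congr 1; omega
    have a2 : (k : ℝ) < (((k / J : ℕ) : ℝ) + 1) * J := by
      exact_mod_cast (Nat.div_lt_iff_lt_mul (by omega : 0 < J)).mp (Nat.lt_succ_self _)
    have a3 : ((k / (J + 1) : ℕ) : ℝ) * (J + 1) ≤ k := by
      exact_mod_cast Nat.div_mul_le_self k (J + 1)
    rw [a1]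
    have a7 : ((k / (J + 1) : ℕ) : ℝ) ≤ ((k / J : ℕ) : ℝ) := by exact_mod_cast a0
    generalize ((k / (J + 1) : ℕ) : ℝ) = a at *
    generalize ((k / J : ℕ) : ℝ) = b at *
    have a4 : (k : ℝ) ≤ (b - a + 1) * (J * (J + 1)) := by
      have d1 := mul_le_mul_of_nonneg_right a2.le (by linarith : (0 : ℝ) ≤ J + 1)
      have d2 := mul_le_mul_of_nonneg_right a3 (by linarith : (0 : ℝ) ≤ J)
      nlinarith
    have a5 : (J : ℝ) * (J + 1) ≤ X ^ 2 := by nlinarith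
    have a6 : (b - a + 1 : ℝ) * (J * (J + 1)) ≤ (b - a + 1) * X ^ 2 :=
      mul_le_mul_of_nonneg_left a5 (by linarith)
    have a8 : 0 ≤ X ^ 2 := by positivity
    by_cases hb : 1 ≤ b - a
    · nlinarith
    · nlinarith
  · rw [hw]; exact Nat.div_le_self _ _
  · have a2 : (k : ℝ) < (w + 1) * ((J + 1) * c) := by
      rw [hw]
      exact_mod_cast (Nat.div_lt_iff_lt_mul (by positivity)).mp (Nat.lt_succ_self _)
    have a3 : ((J : ℝ) + 1) * c ≤ X * (X / 2) :=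
      mul_le_mul hJX (by linarith) (by positivity) X0'.le
    have a4 : ((w : ℝ) + 1) * ((J + 1) * c) ≤ (w + 1) * (X * (X / 2)) :=
      mul_le_mul_of_nonneg_left a3 (by positivity)
    have a8 : 0 ≤ X ^ 2 := by positivity
    by_cases hb : (1 : ℝ) ≤ w
    · nlinarith
    · nlinarith

lemma mu_est {k M w p X : ℝ} {s : ℕ} (hs : 3 ≤ s) (g1 : 20 ≤ X) (k0 : 0 < k) (p0 : 0 < p)
    (w0 : 0 < w) (M0 : 0 < M) (g3 : 2 ^ (s + 1) ≤ X)
    (f2 : 1 ≤ 2 * (p * X ^ ((s + 1) ^ 2 + 1)))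
    (y2 : 1 ≤ 2 ^ (s + 1) * (k * p ^ (s + 1) * X ^ (s + 1)))
    (y3 : k * p ^ (s + 1) * X ^ 3 ≤ 1) (pX1 : p * X ≤ 1) (wk : w ≤ k) (Mk : M ≤ k)
    (M1 : k ≤ 2 * X ^ 2 * M) (w1 : k ≤ X ^ 2 * w) :
    k / X ^ (2 * (s + 1) ^ 2 + 2 * (s + 1) + 6) * X ^ 5 ≤ M * w ^ s * p ^ ((s + 1) * s + 1) ∧
      M * w ^ s * p ^ ((s + 1) * s + 1) ≤ w * p ∧ M * w ^ s * p ^ ((s + 1) * s + 1) ≤ M := by
  have X0' : 0 < X := by linarith
  have X1 : 1 ≤ X := by linarith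
  have eμ : M * w ^ s * p ^ ((s + 1) * s + 1) = M * p * (w * p ^ (s + 1)) ^ s := by
    rw [mul_pow, ← pow_mul, pow_succ p ((s + 1) * s)]; ring
  have v1 : (w * p ^ (s + 1)) ^ s * X ^ 2 ≤ 1 := by
    have a1 : w * p ^ (s + 1) * X ^ 2 ≤ 1 := by
      refine le_trans ?_ y3; gcongr; norm_num
    have a2 : w * p ^ (s + 1) ≤ 1 := by
      refine le_trans (le_mul_of_one_le_right (by positivity) (one_le_pow₀ X1)) a1
    refine le_trans ?_ a1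
    gcongr
    exact pow_le_of_le_one (by positivity) a2 (by omega)
  have v0 : 0 ≤ (w * p ^ (s + 1)) ^ s := by positivity
  rw [eμ]
  refine ⟨?_, ?_, ?_⟩
  · have a1 : 1 ≤ w * p ^ (s + 1) * X ^ (s + 4) := by
      have b1 : k * p ^ (s + 1) * X ^ (s + 1) ≤ X ^ 2 * w * p ^ (s + 1) * X ^ (s + 1) := by gcongr
      have b2 : 2 ^ (s + 1) * (k * p ^ (s + 1) * X ^ (s + 1))
          ≤ X * (X ^ 2 * w * p ^ (s + 1) * X ^ (s + 1)) := by gcongr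
      refine y2.trans (b2.trans (le_of_eq ?_)); ring
    have a2 : k ≤ M * p * X ^ ((s + 1) ^ 2 + 4) := by
      have b1 : k * 1 ≤ 2 * X ^ 2 * M * (2 * (p * X ^ ((s + 1) ^ 2 + 1))) := by gcongr
      have b2 : 4 * (X ^ 2 * M * (p * X ^ ((s + 1) ^ 2 + 1)))
          ≤ X * (X ^ 2 * M * (p * X ^ ((s + 1) ^ 2 + 1))) :=
        mul_le_mul_of_nonneg_right (by linarith) (by positivity)
      calc k = k * 1 := (mul_one k).symm
        _ ≤ _ := b1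
        _ = 4 * (X ^ 2 * M * (p * X ^ ((s + 1) ^ 2 + 1))) := by ring
        _ ≤ _ := b2
        _ = _ := by ring
    have a3 : k * 1 ≤ M * p * X ^ ((s + 1) ^ 2 + 4) * (w * p ^ (s + 1) * X ^ (s + 4)) ^ s :=
      mul_le_mul a2 (one_le_pow₀ a1) zero_le_one (by positivity)
    rw [div_mul_eq_mul_div, div_le_iff₀ (by positivity),
      show 2 * (s + 1) ^ 2 + 2 * (s + 1) + 6 = ((s + 1) ^ 2 + 4) + (s + 4) * s + 5 by ring,
      pow_add, pow_add, ← mul_assoc]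
    refine mul_le_mul_of_nonneg_right (le_trans (mul_one k).ge (a3.trans (le_of_eq ?_)))
      (by positivity)
    rw [mul_pow _ (X ^ (s + 4)), ← pow_mul]; ring
  · calc _ ≤ X ^ 2 * w * p * (w * p ^ (s + 1)) ^ s := by gcongr; linarith
      _ = w * p * ((w * p ^ (s + 1)) ^ s * X ^ 2) := by ring
      _ ≤ w * p * 1 := by gcongr
      _ = _ := mul_one _
  · have a1 : (w * p ^ (s + 1)) ^ s ≤ 1 :=
      le_trans (le_mul_of_one_le_right v0 (one_le_pow₀ X1)) v1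
    have a2 : p ≤ 1 := le_trans (le_mul_of_one_le_right p0.le X1) pX1
    calc _ ≤ M * 1 * 1 := by gcongr
      _ = _ := by ring

lemma chooseL {μ0 Z X η : ℝ} {a0 : ℕ} (g1 : 20 ≤ X) (Z2 : X ^ 2 ≤ Z) (μ1 : Z * X ^ 5 ≤ μ0)
    (a00 : 0 < a0) (a0X : 2 * (a0 : ℝ) ≤ X ^ 2) (η0 : 0 ≤ η) (η1 : η * X ^ 3 ≤ X / 6) :
    ∃ L j : ℕ, 0 < L ∧ (L : ℝ) ≤ μ0 / X ^ 2 ∧ (L : ℝ) * X ^ 2 ≤ μ0 ∧ 2 * a0 * j ≤ L ∧ Z ≤ j ∧
      μ0 * η / L ≤ 1 / 3 := by
  have X0' : 0 < X := by linarith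
  have X2 : 400 ≤ X ^ 2 := by nlinarith
  have X3 : 20 * X ^ 2 ≤ X ^ 3 := by nlinarith
  have Z0 : 0 < Z := by linarith
  have μ0' : 0 < μ0 := lt_of_lt_of_le (by positivity) μ1
  obtain ⟨L, hL⟩ : ∃ L : ℕ, L = ⌊μ0 / X ^ 2⌋₊ := ⟨_, rfl⟩
  have L1 : (L : ℝ) ≤ μ0 / X ^ 2 := by rw [hL]; exact Nat.floor_le (by positivity)
  have L2 : μ0 / X ^ 2 < L + 1 := by rw [hL]; exact Nat.lt_floor_add_one _
  have L3 : Z * X ^ 3 ≤ μ0 / X ^ 2 := by
    rw [le_div_iff₀ (by positivity)]; refine le_trans (le_of_eq ?_) μ1; ring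
  have ZX : 1 * 2 ≤ Z * X ^ 3 := mul_le_mul (by linarith) (by linarith) (by norm_num) Z0.le
  have L4 : μ0 / X ^ 2 ≤ 2 * L := by linarith
  have b0 : (0 : ℝ) < L := by linarith
  obtain ⟨j, hj⟩ : ∃ j : ℕ, j = L / (2 * a0) := ⟨_, rfl⟩
  refine ⟨L, j, by exact_mod_cast b0, L1, by rwa [le_div_iff₀ (by positivity)] at L1,
    by rw [hj]; exact Nat.mul_div_le _ _, ?_, ?_⟩
  · have b1 : (L : ℝ) < (j + 1) * (2 * a0) := by
      rw [hj]; exact_mod_cast (Nat.div_lt_iff_lt_mul (by omega)).mp (Nat.lt_succ_self _)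
    have b2 : ((j : ℝ) + 1) * (2 * a0) ≤ (j + 1) * X ^ 2 :=
      mul_le_mul_of_nonneg_left a0X (by positivity)
    have b3 : Z * X * X ^ 2 ≤ 2 * (j + 1) * X ^ 2 := by
      calc Z * X * X ^ 2 = Z * X ^ 3 := by ring
        _ ≤ 2 * (L : ℝ) := by linarith
        _ ≤ 2 * ((j + 1) * X ^ 2) := by linarith
        _ = _ := by ring
    have b4 := le_of_mul_le_mul_right b3 (by positivity)
    have b5 : Z * 20 ≤ Z * X := mul_le_mul_of_nonneg_left g1 Z0.le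
    linarith
  · rw [div_le_iff₀ b0]
    have b1 : μ0 ≤ 2 * L * X ^ 2 := by rwa [div_le_iff₀ (by positivity)] at L4
    have b2 : η * X ^ 2 ≤ 1 / 6 := le_of_mul_le_mul_right (by
      calc η * X ^ 2 * X = η * X ^ 3 := by ring
        _ ≤ _ := η1
        _ = _ := by ring) X0'
    calc μ0 * η ≤ 2 * L * X ^ 2 * η := mul_le_mul_of_nonneg_right b1 η0
      _ = 2 * L * (η * X ^ 2) := by ring
      _ ≤ 2 * L * (1 / 6) := mul_le_mul_of_nonneg_left b2 (by positivity)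
      _ = _ := by ring

lemma c4_est {A B K y p a J t M w k X : ℝ} (g1 : 20 ≤ X) (A0 : 0 ≤ A) (B0 : 0 ≤ B) (K0 : 0 < K)
    (g5 : (A + B) * K ≤ X) (y0 : 0 ≤ y) (y3 : y * X ^ 3 ≤ 1) (p0 : 0 < p) (p6 : p * X ^ 6 ≤ 1)
    (a0 : 0 ≤ a) (aX : 2 * a ≤ X ^ 2) (J0 : 0 ≤ J) (hJX : J + 1 ≤ X) (t0 : 0 ≤ t)
    (g4 : 8 * t ≤ X) (M0 : 0 ≤ M) (w0 : 0 < w) (Mk : M ≤ k) (w1 : k ≤ X ^ 2 * w) :
    A * y + B * p * (a * ((4 * J + 5) + 2 * t * M / w)) ≤ 1 / K := by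
  have X0' : 0 < X := by linarith
  have X1 : 1 ≤ X := by linarith
  have b1 : y ≤ 1 / X := by
    rw [le_div_iff₀ X0']
    exact le_trans (mul_le_mul_of_nonneg_left (le_self_pow₀ X1 (by norm_num)) y0) y3
  have b2 : a ≤ X ^ 2 := by linarith
  have b3 : (4 * J + 5) + 2 * t * M / w ≤ X ^ 3 := by
    have d1 : 2 * t * M / w ≤ X / 4 * X ^ 2 := by
      rw [div_le_iff₀ w0, mul_assoc (X / 4)]
      exact mul_le_mul (by linarith) (Mk.trans w1) M0 (by positivity)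
    have d2 : 20 * X ≤ X ^ 2 := by nlinarith
    have d3 : 20 * X ^ 2 ≤ X ^ 3 := by nlinarith
    have d4 : X / 4 * X ^ 2 = X ^ 3 / 4 := by ring
    linarith
  have b4 : p * (X ^ 2 * X ^ 3) ≤ 1 / X := by
    rw [le_div_iff₀ X0']; refine le_trans (le_of_eq ?_) p6; ring
  calc _ ≤ A * (1 / X) + B * p * (X ^ 2 * X ^ 3) := by gcongr
    _ ≤ A * (1 / X) + B * (1 / X) := by rw [mul_assoc _ p]; gcongr
    _ = (A + B) / X := by ring
    _ ≤ _ := by rw [div_le_div_iff₀ X0' K0]; linarith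

lemma small1 {Z X k w : ℝ} (g1 : 20 ≤ X) (Z0 : 0 < Z) (b1 : Z * X ^ 3 ≤ k) (w1 : k ≤ X ^ 2 * w) :
    Z ≤ w / 4 := by
  have X0' : 0 < X := by linarith
  have b2 : Z * X * X ^ 2 ≤ w * X ^ 2 := by
    calc Z * X * X ^ 2 = Z * X ^ 3 := by ring
      _ ≤ X ^ 2 * w := b1.trans w1
      _ = _ := mul_comm _ _
  have b3 := le_of_mul_le_mul_right b2 (by positivity)
  have b5 : Z * 20 ≤ Z * X := mul_le_mul_of_nonneg_left g1 Z0.le
  linarith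

lemma small2 {s J X : ℝ} (s3 : 3 ≤ s) (J0 : 0 ≤ J) (hJX : J + 1 ≤ X) (g1 : 20 ≤ X)
    (g4 : 8 * (s + 1) ^ 4 ≤ X) : 2 * (1 + (J + 1) * ((s + 1) * s + 1)) ≤ X ^ 2 := by
  have b0 : 1 ≤ (s + 1) ^ 2 := one_le_pow₀ (by linarith)
  have b1 : (s + 1) * s + 1 ≤ (s + 1) ^ 4 := by
    calc (s + 1) * s + 1 ≤ (s + 1) ^ 2 * 1 := by nlinarith
      _ ≤ (s + 1) ^ 2 * (s + 1) ^ 2 := mul_le_mul_of_nonneg_left b0 (by positivity)
      _ = _ := by ring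
  have b2 : (J + 1) * ((s + 1) * s + 1) ≤ X * (X / 8) :=
    mul_le_mul hJX (by linarith) (by positivity) (by linarith)
  nlinarith

lemma small3 {L X μ0 w p M J t : ℝ} (g1 : 20 ≤ X) (L0 : 0 ≤ L) (L5 : L * X ^ 2 ≤ μ0)
    (μ2 : μ0 ≤ w * p) (μ3 : μ0 ≤ M) (w0 : 0 ≤ w) (pX1 : p * X ≤ 1) (hJX : J + 1 ≤ X)
    (g4 : 8 * t ≤ X) :
    L + L ≤ w * p ∧ 8 * t * (L + L) ≤ w ∧ 2 * ((L + L) * (4 * J + 5)) ≤ M := by
  have d2 : 20 * X ≤ X ^ 2 := by nlinarith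
  have b2 : L * (20 * X) ≤ L * X ^ 2 := mul_le_mul_of_nonneg_left d2 L0
  have b0 : L * 2 ≤ L * X ^ 2 := mul_le_mul_of_nonneg_left (by linarith) L0
  have c1 : L + L ≤ w * p := by linarith
  refine ⟨c1, ?_, ?_⟩
  · calc 8 * t * (L + L) ≤ X * (w * p) := mul_le_mul g4 c1 (by linarith) (by linarith)
      _ = w * (p * X) := by ring
      _ ≤ w * 1 := mul_le_mul_of_nonneg_left pX1 w0
      _ = w := mul_one w
  · have b1 : L * (4 * J + 5) ≤ L * (5 * X) := mul_le_mul_of_nonneg_left (by linarith) L0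
    linarith

lemma small4 {A B y p X : ℝ} (A0 : 0 ≤ A) (B0 : 0 ≤ B) (y3 : y * X ^ 3 ≤ 1) (pX : p * X ^ 3 ≤ 1)
    (g6 : 6 * (A + B) ≤ X) : (A * y + B * p) * X ^ 3 ≤ X / 6 := by
  have b1 := mul_le_mul_of_nonneg_left y3 A0
  have b2 := mul_le_mul_of_nonneg_left pX B0
  calc (A * y + B * p) * X ^ 3 = A * (y * X ^ 3) + B * (p * X ^ 3) := by ring
    _ ≤ _ := by linarith

lemma small5 {K T X : ℝ} (K1 : 1 ≤ K) (T0 : 0 ≤ T) (g7 : 4 * K * (T + 1) ≤ X) :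
    2 * (T + 1) ≤ X := by nlinarith

lemma small6 {s : ℕ} (hs : 3 ≤ s) : 2 * (s + 1) ^ 2 + 2 * (s + 1) + 8 ≤ (s + 1) ^ 3 ∧
    6 ≤ (s + 1) ^ 2 + 1 := by
  have : 4 ≤ s + 1 := by omega
  generalize s + 1 = t at this
  constructor <;> nlinarith [Nat.mul_le_mul_left (t * t) this]

lemma thresholds {s : ℕ} (hs : 3 ≤ s) {X : ℝ} (hX : (2 ^ (s + 1) ^ 4) ^ 2 ≤ X) :
    2 * (((s + 1) ^ 2 + 1 : ℕ) : ℝ) * Real.log X + 2 ≤ X ∧ 20 ≤ X ∧
    2 * ((16 * 4 ^ (s + 1) : ℕ) : ℝ) ≤ X ∧ (2 : ℝ) ^ (s + 1) ≤ X ∧ 8 * ((s : ℝ) + 1) ^ 4 ≤ X ∧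
    (2 * ((s : ℝ) + 1) ^ (s + 1) + 2 ^ (s + 1) ^ 4) * 2 ^ ((s + 1) * s + 5) ≤ X ∧
    6 * (2 ^ (s + 3) + 2 * ((s : ℝ) + 1) ^ 3) ≤ X ∧
    4 * 2 ^ ((s + 1) * s + 5) * ((((s + 1) ^ 3 : ℕ) : ℝ) + 1) ≤ X := by
  obtain ⟨A, hA⟩ : ∃ A : ℕ, A = 2 ^ (s + 1) ^ 4 := ⟨_, rfl⟩
  have hX' : ((A * A : ℕ) : ℝ) ≤ X := by rw [hA, ← sq]; exact_mod_cast hX
  have up : ∀ {n : ℕ}, n ≤ A * A → (n : ℝ) ≤ X := fun h => le_trans (by exact_mod_cast h) hX'
  have t4 : (s + 1) ^ 4 ≤ A := by rw [hA]; exact Nat.lt_two_pow_self.le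
  have pA : ∀ {n : ℕ}, n ≤ (s + 1) ^ 4 → 2 ^ n ≤ A := fun h => by
    rw [hA]; exact Nat.pow_le_pow_right (by norm_num) h
  have q2 : 4 * (s + 1) ≤ (s + 1) ^ 2 := by rw [sq]; exact Nat.mul_le_mul_right _ (by omega)
  have q3 : 4 * (s + 1) ^ 2 ≤ (s + 1) ^ 3 := by
    rw [pow_succ _ 2, mul_comm]; exact Nat.mul_le_mul_left _ (by omega)
  have q4 : 4 * (s + 1) ^ 3 ≤ (s + 1) ^ 4 := by
    rw [pow_succ _ 3, mul_comm]; exact Nat.mul_le_mul_left _ (by omega)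
  have q5 : (s + 1) * s ≤ (s + 1) ^ 2 := by rw [sq]; exact Nat.mul_le_mul_left _ (by omega)
  have A20 : 20 ≤ A := by omega
  have AA : A ≤ A * A := Nat.le_mul_self A
  refine ⟨?_, up (n := 20) (by omega), ?_, ?_, ?_, ?_, ?_, ?_⟩
  · have a1 : ((4 * ((s + 1) ^ 2 + 1) + 1 : ℕ) : ℝ) ≤ A := by exact_mod_cast (by omega)
    have a0 : (20 : ℝ) ≤ A := by exact_mod_cast A20
    push_cast at hX' a1 ⊢
    have a2 : (A : ℝ) ≤ √X := Real.le_sqrt_of_sq_le (by rw [sq]; exact hX')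
    have a3 : √X * √X = X := Real.mul_self_sqrt (le_trans (by positivity) hX')
    have a4 : Real.log X ≤ 2 * √X := by
      have := Real.log_le_sub_one_of_pos (by linarith : 0 < √X)
      rw [Real.log_sqrt (le_trans (by positivity) hX')] at this
      linarith
    have a5 := mul_le_mul_of_nonneg_left a4 (by positivity : (0 : ℝ) ≤ 2 * ((s + 1) ^ 2 + 1))
    have a6 := mul_le_mul_of_nonneg_right (a1.trans a2) (Real.sqrt_nonneg X)
    nlinarith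
  · have : 2 * (16 * 4 ^ (s + 1)) = 2 ^ (2 * (s + 1) + 5) := by
      rw [pow_add 2, pow_mul]; ring
    exact_mod_cast up (n := 2 * (16 * 4 ^ (s + 1))) (this ▸ (pA (by omega)).trans AA)
  · exact_mod_cast up ((pA (n := s + 1) (by omega)).trans AA)
  · exact_mod_cast up (Nat.mul_le_mul (by omega : 8 ≤ A) t4)
  · have a1 : 2 * (s + 1) ^ (s + 1) ≤ A := by
      refine le_trans ?_ (pA (n := (s + 1) * (s + 1) + 1) (by rw [← sq]; omega))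
      rw [pow_succ 2, pow_mul, mul_comm]
      exact Nat.mul_le_mul_right _ (Nat.pow_le_pow_left Nat.lt_two_pow_self.le _)
    have a2 : 2 * 2 ^ ((s + 1) * s + 5) ≤ A := by
      rw [← pow_succ']; exact pA (by omega)
    have a3 : (2 * (s + 1) ^ (s + 1) + 2 ^ (s + 1) ^ 4) * 2 ^ ((s + 1) * s + 5) ≤ A * A := by
      rw [← hA]
      calc _ ≤ (A * 2) * 2 ^ ((s + 1) * s + 5) := Nat.mul_le_mul_right _ (by omega)
        _ ≤ _ := by rw [mul_assoc]; exact Nat.mul_le_mul_left _ a2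
    exact_mod_cast up a3
  · have a1 := pA (n := s + 3) (by omega)
    have a2 : 20 * A ≤ A * A := Nat.mul_le_mul_right _ A20
    exact_mod_cast up (n := 6 * (2 ^ (s + 3) + 2 * (s + 1) ^ 3)) (by omega)
  · have a2 : 4 * 2 ^ ((s + 1) * s + 5) ≤ A := by
      refine le_trans (le_of_eq ?_) (pA (n := (s + 1) * s + 5 + 2) (by omega))
      rw [pow_add _ _ 2]; ring
    exact_mod_cast up (Nat.mul_le_mul a2 (by omega : (s + 1) ^ 3 + 1 ≤ A))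

theorem asym {s : ℕ} (hs : 3 ≤ s) (k : ℕ) (X : ℝ) (hX : (2 ^ (s + 1) ^ 4) ^ 2 ≤ X)
    (hk : X ^ (s + 1) ^ 3 = k) :
    (numESB k : ℝ) ≤ 4 ^ k * Real.exp (-(k / X ^ (2 * (s + 1) ^ 2 + 2 * (s + 1) + 7))) := by
  obtain ⟨g0, g1, g2, g3, g4, g5, g6, g7⟩ := thresholds hs hX
  have X0' : 0 < X := lt_of_lt_of_le (by norm_num) g1
  have X1 : 1 ≤ X := le_trans (by norm_num) g1
  have s3 : (3 : ℝ) ≤ s := by exact_mod_cast hs
  obtain ⟨J, J1, hJX, f1, f2⟩ := chooseJ X1 g0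
  obtain ⟨p, hp⟩ : ∃ p : ℝ, p = (1 / 2) ^ J := ⟨_, rfl⟩
  rw [← hp] at f1 f2
  have p0 : 0 < p := by rw [hp]; positivity
  have e1 : (p * X ^ ((s + 1) ^ 2 + 1)) ^ (s + 1) = k * p ^ (s + 1) * X ^ (s + 1) := by
    rw [mul_pow, ← pow_mul, ← hk, show ((s + 1) ^ 2 + 1) * (s + 1) = (s + 1) ^ 3 + (s + 1) by ring,
      pow_add X, mul_left_comm, mul_assoc]
  have y1 : k * p ^ (s + 1) * X ^ (s + 1) ≤ 1 := by
    rw [← e1]; exact pow_le_one₀ (by positivity) f1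
  have y2 : 1 ≤ 2 ^ (s + 1) * (k * p ^ (s + 1) * X ^ (s + 1)) := by
    rw [← e1, ← mul_pow]; exact one_le_pow₀ f2
  have pw : ∀ {a b : ℕ}, a ≤ b → X ^ a ≤ X ^ b := fun h => pow_le_pow_right₀ X1 h
  obtain ⟨hD, hD2⟩ := small6 hs
  have k3 : X ^ 3 ≤ k := by rw [← hk]; exact pw (by omega)
  have k0 : (0 : ℝ) < k := lt_of_lt_of_le (by positivity) k3
  have y3 : k * p ^ (s + 1) * X ^ 3 ≤ 1 :=
    le_trans (mul_le_mul_of_nonneg_left (pw (by omega)) (by positivity)) y1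
  have p6 : p * X ^ 6 ≤ 1 := le_trans (mul_le_mul_of_nonneg_left (pw hD2) p0.le) f1
  have pX : p * X ^ 3 ≤ 1 := le_trans (mul_le_mul_of_nonneg_left (pw (by norm_num)) p0.le) p6
  have pX1 : p * X ≤ 1 := le_trans (mul_le_mul_of_nonneg_left
    (le_self_pow₀ X1 (by norm_num)) p0.le) p6
  obtain ⟨Ms, w, hM, Mk, M1, wk, w1⟩ := moduli (k := k) J1 hJX g1 k3 (by positivity) g2
  have wk' : (w : ℝ) ≤ k := by exact_mod_cast wk
  have w0 : (0 : ℝ) < w := (pos_iff_pos_of_mul_pos (k0.trans_le w1)).mp (by positivity)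
  have M0 : (0 : ℝ) < Ms.card :=
    (pos_iff_pos_of_mul_pos (k0.trans_le M1)).mp (by positivity)
  obtain ⟨μ1, μ2, μ3⟩ := mu_est hs g1 k0 p0 w0 M0 g3 f2 y2 y3 pX1 wk' Mk M1 w1
  obtain ⟨μ0, hμ⟩ : ∃ μ0 : ℝ, μ0 = Ms.card * w ^ s * p ^ ((s + 1) * s + 1) := ⟨_, rfl⟩
  obtain ⟨Z, hZ⟩ : ∃ Z : ℝ, Z = k / X ^ (2 * (s + 1) ^ 2 + 2 * (s + 1) + 6) := ⟨_, rfl⟩
  rw [← hμ] at μ1 μ2 μ3
  rw [← hZ] at μ1
  have Z2 : X ^ 2 ≤ Z := by
    rw [hZ, le_div_iff₀ (by positivity), ← pow_add, ← hk]; exact pw (by omega)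
  have Z0 : 0 < Z := lt_of_lt_of_le (by positivity) Z2
  have μ0' : 0 < μ0 := lt_of_lt_of_le (by positivity) μ1
  have a0X := small2 s3 (Nat.cast_nonneg J) hJX g1 g4
  obtain ⟨η, hη⟩ : ∃ η : ℝ, η = 2 ^ (s + 3) * (k * p ^ (s + 1)) + 2 * (s + 1) ^ 3 * p := ⟨_, rfl⟩
  have η0 : 0 ≤ η := by rw [hη]; positivity
  have η1 : η * X ^ 3 ≤ X / 6 := by
    rw [hη]; exact small4 (by positivity) (by positivity) y3 pX g6
  obtain ⟨L, j, L0, L1, L5, hj, jZ, hr⟩ := chooseL (a0 := 1 + (J + 1) * ((s + 1) * s + 1)) g1 Z2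
    μ1 (by positivity) (by exact_mod_cast a0X) η0 η1
  obtain ⟨c1, c2, c3⟩ := small3 g1 (Nat.cast_nonneg L) L5 μ2 μ3 w0.le pX1 hJX g4
  have main := numESB_bound (k := k) (J := J) (w := w) (h := L) (L := L) (j := j) (Ms := Ms)
    (by omega : 2 ≤ s) J1 hM (card_pos.mp (by exact_mod_cast M0)) wk hp hμ hη
    (le_trans (le_mul_of_one_le_right (by positivity) (one_le_pow₀ X1)) y3)
    (by rw [Nat.cast_add]; exact c1) (by exact_mod_cast c2) (by exact_mod_cast c3)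
    (c4_est g1 (by positivity) (by positivity) (by positivity) g5 (by positivity) y3 p0 p6
      (by positivity) a0X (Nat.cast_nonneg J) hJX (by positivity) g4 M0.le w0 Mk w1) hj L0
  have fin := final_step (k := k) (w := w) (X := X) (Z := Z) (K := 2 ^ ((s + 1) * s + 5))
    (μ0 := μ0) (r := μ0 * η / L) (L := L) (j := j) (T := (s + 1) ^ 3) (le_trans (by norm_num) g1)
    hk (by omega) w0.le wk' (small1 g1 Z0 (by
      rw [hZ, div_mul_eq_mul_div, div_le_iff₀ (by positivity)]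
      exact mul_le_mul_of_nonneg_left (pw (by omega)) k0.le) w1) (by positivity) g7 L1 μ1 Z2
      (by positivity) hr jZ (small5 (one_le_pow₀ (by norm_num)) (Nat.cast_nonneg _) g7)
  have eZ : Z / X = k / X ^ (2 * (s + 1) ^ 2 + 2 * (s + 1) + 7) := by
    rw [hZ, div_div, ← pow_succ]
  rw [← eZ]
  refine main.trans ?_
  rw [pow_succ, mul_assoc]
  exact mul_le_mul_of_nonneg_left fin (by positivity)

theorem upper : ∃ k0 : ℕ, ∀ k : ℕ, k0 ≤ k →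
    (numESB k : ℝ) ≤ 4 ^ k * Real.exp (-(k * Real.exp (-(12 * Real.log k ^ (6 / 7 : ℝ))))) := by
  have t1 : Filter.Tendsto (fun k : ℕ => Real.log k ^ (1 / 7 : ℝ)) Filter.atTop Filter.atTop :=
    (tendsto_rpow_atTop (by norm_num)).comp
      (Real.tendsto_log_atTop.comp tendsto_natCast_atTop_atTop)
  obtain ⟨k0, hk0⟩ := Filter.eventually_atTop.mp
    ((t1.eventually_ge_atTop 8).and (Filter.eventually_gt_atTop 1))
  refine ⟨k0, fun k hk => ?_⟩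
  obtain ⟨h1, h2⟩ := hk0 k hk
  have k1 : (1 : ℝ) < k := by exact_mod_cast h2
  have l0 : 0 < Real.log k := Real.log_pos k1
  obtain ⟨y, hy⟩ : ∃ y : ℝ, y = Real.log k ^ (1 / 7 : ℝ) := ⟨_, rfl⟩
  rw [← hy] at h1
  have y0 : 0 < y := by linarith
  have y7 : y ^ 7 = Real.log k := by
    rw [hy, ← Real.rpow_natCast, ← Real.rpow_mul l0.le]; norm_num
  have y6 : Real.log k ^ (6 / 7 : ℝ) = y ^ 6 := by
    rw [hy, ← Real.rpow_natCast, ← Real.rpow_mul l0.le]; norm_num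
  have t4 : 4 ≤ ⌊y / 2⌋₊ := Nat.le_floor (by push_cast; linarith)
  obtain ⟨s, hs⟩ : ∃ s, ⌊y / 2⌋₊ = s + 1 := ⟨⌊y / 2⌋₊ - 1, by omega⟩
  have u1 : (s : ℝ) + 1 ≤ y / 2 := by
    have := Nat.floor_le (by positivity : 0 ≤ y / 2)
    rw [hs] at this; exact_mod_cast this
  have u2 : y / 4 ≤ (s : ℝ) + 1 := by
    have := Nat.lt_floor_add_one (y / 2)
    rw [hs] at this; push_cast at this; linarith
  have s3 : (3 : ℝ) ≤ s := by exact_mod_cast (by omega : 3 ≤ s)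
  obtain ⟨t, ht⟩ : ∃ t : ℝ, t = s + 1 := ⟨_, rfl⟩
  rw [← ht] at u1 u2
  have t0 : 4 ≤ t := by linarith
  have := asym (s := s) (by omega) k (Real.exp (y ^ 7 / t ^ 3)) (by
    have a1 : (2 : ℝ) ≤ Real.exp 1 := by linarith [Real.add_one_le_exp (1 : ℝ)]
    rw [← pow_mul]
    refine (pow_le_pow_left₀ (by norm_num) a1 _).trans ?_
    rw [← Real.exp_nat_mul]
    refine Real.exp_le_exp.mpr ?_
    push_cast
    rw [← ht, le_div_iff₀ (by positivity)]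
    have a2 : (2 * t) ^ 7 ≤ y ^ 7 := pow_le_pow_left₀ (by positivity) (by linarith) 7
    have a3 : 0 ≤ t ^ 7 := by positivity
    nlinarith) (by
    rw [← Real.exp_nat_mul]
    push_cast
    rw [← ht, mul_div_cancel₀ _ (by positivity), y7, Real.exp_log (by linarith)])
  refine this.trans (mul_le_mul_of_nonneg_left (Real.exp_le_exp.mpr (neg_le_neg ?_))
    (by positivity))
  rw [← Real.exp_nat_mul, div_eq_mul_inv (k : ℝ), ← Real.exp_neg]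
  refine mul_le_mul_of_nonneg_left (Real.exp_le_exp.mpr (neg_le_neg ?_)) (by positivity)
  push_cast
  rw [← ht, y6, ← mul_div_assoc, div_le_iff₀ (by positivity)]
  have a1 : 2 * t ^ 2 + 2 * t + 7 ≤ 3 * t ^ 2 := by nlinarith
  calc (2 * t ^ 2 + 2 * t + 7) * y ^ 7 ≤ 3 * t ^ 2 * y ^ 7 :=
        mul_le_mul_of_nonneg_right a1 (by positivity)
    _ = 12 * y ^ 6 * t ^ 2 * (y / 4) := by ring
    _ ≤ 12 * y ^ 6 * t ^ 2 * t := mul_le_mul_of_nonneg_left u2 (by positivity)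
    _ = _ := by ring

/-- the form with an arbitrary exponent below one -/
theorem upper_eps (ε : ℝ) (hε : 0 < ε) : ∃ k0 : ℕ, ∀ k : ℕ, k0 ≤ k →
    (numESB k : ℝ) ≤ 4 ^ k * Real.exp (-(k : ℝ) ^ (1 - ε)) := by
  obtain ⟨k1, hk1⟩ := upper
  have t1 : Filter.Tendsto (fun k : ℕ => Real.log k ^ (1 / 7 : ℝ)) Filter.atTop Filter.atTop :=
    (tendsto_rpow_atTop (by norm_num)).comp
      (Real.tendsto_log_atTop.comp tendsto_natCast_atTop_atTop)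
  obtain ⟨k0, hk0⟩ := Filter.eventually_atTop.mp ((t1.eventually_ge_atTop (12 / ε)).and
    ((Filter.eventually_gt_atTop 1).and (Filter.eventually_ge_atTop k1)))
  refine ⟨k0, fun k hk => ?_⟩
  obtain ⟨h1, h2, h3⟩ := hk0 k hk
  have k1 : (1 : ℝ) < k := by exact_mod_cast h2
  have l0 : 0 < Real.log k := Real.log_pos k1
  refine (hk1 k h3).trans (mul_le_mul_of_nonneg_left (Real.exp_le_exp.mpr (neg_le_neg ?_))
    (by positivity))
  rw [sub_eq_add_neg, Real.rpow_add (by linarith), Real.rpow_one, Real.rpow_def_of_pos (by linarith)]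
  refine mul_le_mul_of_nonneg_left (Real.exp_le_exp.mpr ?_) (by positivity)
  have e : Real.log k = Real.log k ^ (1 / 7 : ℝ) * Real.log k ^ (6 / 7 : ℝ) := by
    rw [← Real.rpow_add l0]; norm_num
  have a1 := mul_le_mul_of_nonneg_right ((div_le_iff₀ hε).mp h1)
    (Real.rpow_nonneg l0.le (6 / 7 : ℝ))
  have a2 : Real.log k * ε = Real.log k ^ (1 / 7 : ℝ) * ε * Real.log k ^ (6 / 7 : ℝ) := by
    rw [mul_right_comm, ← e]
  linarith

/-- the earlier polynomial bound is a consequence -/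
theorem upper_old : ∃ C : ℝ, ∀ k : ℕ, 1 ≤ k →
    (numESB k : ℝ) ≤ C * 4 ^ k / (k : ℝ) ^ (1 / 6 : ℝ) := by
  obtain ⟨k0, hk0⟩ := upper_eps (5 / 6) (by norm_num)
  have S0 : ∀ i : ℕ, 0 ≤ (numESB i : ℝ) * (i : ℝ) ^ (1 / 6 : ℝ) / 4 ^ i := fun i => by positivity
  refine ⟨1 + ∑ i ∈ range k0, (numESB i : ℝ) * (i : ℝ) ^ (1 / 6 : ℝ) / 4 ^ i, fun k hk => ?_⟩
  have k0' : (0 : ℝ) < k := by exact_mod_cast hk
  have y0 : 0 < (k : ℝ) ^ (1 / 6 : ℝ) := by positivity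
  rw [le_div_iff₀ y0, ← div_le_iff₀ (by positivity)]
  by_cases h : k0 ≤ k
  · refine le_trans ?_ (le_add_of_nonneg_right (sum_nonneg fun i _ => S0 i))
    have a1 := hk0 k h
    rw [show (1 - 5 / 6 : ℝ) = 1 / 6 by norm_num, Real.exp_neg] at a1
    rw [div_le_one (by positivity), ← le_div_iff₀ y0]
    refine a1.trans (mul_le_mul_of_nonneg_left (inv_anti₀ y0 ?_) (by positivity))
    linarith [Real.add_one_le_exp ((k : ℝ) ^ (1 / 6 : ℝ))]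
  · have := single_le_sum (f := fun i : ℕ => (numESB i : ℝ) * (i : ℝ) ^ (1 / 6 : ℝ) / 4 ^ i)
      (fun i _ => S0 i) (mem_range.mpr (not_le.mp h))
    linarith

end Pool.Agent.MP_01c7b3_an.SE
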